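import Pool.Agent.PellSC.Geg

/-!
# Value of `H(1/2)` mod p²
-/

set_option autoImplicit false
set_option linter.unusedSectionVars false
set_option linter.unusedVariables false

namespace Pool.Agent.PellSC

open Finset

section ring
variable {R : Type*} [CommRing R]

/-- terms of the Gegenbauer sum -/
def gt (x : R) (M j : ℕ) : R := (-2 : R) ^ j * ((2 * M).choose j : R) * (df x j * df (2 * x - 2 * (j : R)) (2 * M - j))

lemma gt_rec (x : R) (M j : ℕ) (hj : j < 2 * M) :
    (2 * x - 2 * (j : R)) * (((j + 1 : ℕ) : R) * (2 * x - 2 * (j : R) - 1) * gt x M (j + 1))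
      = (2 * x - 2 * (j : R)) * (-(((2 * M - j : ℕ) : R)) * (2 * x - 2 * (j : R) - ((2 * M - j : ℕ) : R)) * gt x M j) := by
  obtain ⟨m, hm⟩ : ∃ m, 2 * M - j = m + 1 := ⟨2 * M - j - 1, by omega⟩
  have hm' : 2 * M - (j + 1) = m := by omega
  have h1 := Nat.choose_succ_right_eq (2 * M) j
  rw [hm] at h1
  have h1' : ((2 * M).choose (j + 1) : R) * ((j + 1 : ℕ) : R) = ((2 * M).choose j : R) * ((m + 1 : ℕ) : R) := by
    exact_mod_cast congrArg (Nat.cast : ℕ → R) h1
  unfold gt
  rw [hm, hm', df_succ x j, pow_succ]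
  set y := 2 * x - 2 * (j : R) with hy
  have e1 : 2 * x - 2 * ((j + 1 : ℕ) : R) = y - 1 - 1 := by rw [hy]; push_cast; ring
  have e2 : df y (m + 1) * (y - ((m + 1 : ℕ) : R)) = y * ((y - 1) * df (y - 1 - 1) m) := by
    rw [← df_succ, df_succ', df_succ']
  rw [e1]
  have e3 : y = 2 * (x - (j : R)) := by rw [hy]; ring
  have e4 : (2 : R) * (x - (j : R)) = y := e3.symm
  linear_combination (y * (y - 1) * ((-2) ^ j * (-2)) * (df x j * (x - (j : R)) * df (y - 1 - 1) m)) * h1'
    + ((-2) ^ j * 2 * (x - (j : R)) * df x j * ((2 * M).choose j : R) * ((m + 1 : ℕ) : R)) * e2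
    - ((-2) ^ j * ((2 * M).choose j : R) * ((m + 1 : ℕ) : R) * df x j * df y (m + 1) * (y - ((m + 1 : ℕ) : R))) * e4

end ring

section ext

variable {p n : ℕ} {A F : Type*} [CommRing A] [Field F] (S : SqExt p A F)
variable [hpr : Fact p.Prime] [CharP F p]

include S

lemma p_mul_h {h : A} (hh : 2 * h = 1) (k : ℕ) (hF2 : (2 : F) ≠ 0) (hk : ((k + 1 : ℕ) : F) ≠ 0) :
    2 * ((k + 1 : ℕ) : A) * S.w (((k + 1 : ℕ) : F)⁻¹ / 4) = p * h := by
  have hr : 2 * S.ρ h = 1 := by
    have := congrArg S.ρ hh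
    rwa [map_mul, map_one, map_ofNat] at this
  have h1 : S.w (S.ρ h) = p * h := S.w_rho h
  rw [← h1, S.mul_w]
  congr 1
  have h4 : (4 : F) = 2 * 2 := by norm_num
  have h5 : (4 : F) ≠ 0 := by rw [h4]; exact mul_ne_zero hF2 hF2
  simp only [map_mul, map_ofNat, map_natCast]
  field_simp
  linear_combination (-2 : F) * hr

lemma g_eq' (hp : p = 2 * n + 1) {M : ℕ} (hM : n = 4 * M ∨ n = 4 * M + 1) {h : A} (hh : 2 * h = 1) (j : ℕ) (hj : j ≤ 2 * M) :
    gt (p * h ^ 2 - h) M j = df (2 * (p * h ^ 2 - h)) (2 * M) * (hc A n h j * (1 + S.w ((1 / 4) * har F j)) * h ^ j) := by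
  induction j with
  | zero => simp [gt, hc]
  | succ j ih =>
    have hF : ((j + 1 : ℕ) : F) ≠ 0 := cast_ne_zero' (p := p) (j + 1) (by omega) (by omega)
    have hF2 : (2 : F) ≠ 0 := two_ne (p := p) hp
    have ih' := ih (by omega)
    have r0 := gt_rec (p * h ^ 2 - h) M j (by omega)
    have hr : 2 * S.ρ h = 1 := by
      have := congrArg S.ρ hh
      rwa [map_mul, map_one, map_ofNat] at this
    have hcan : S.ρ (2 * (p * h ^ 2 - h) - 2 * (j : A)) ≠ 0 := by
      have e : S.ρ (2 * (p * h ^ 2 - h) - 2 * (j : A)) = -((2 * j + 1 : ℕ) : F) := by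
        simp only [map_sub, map_mul, map_ofNat, map_natCast, map_pow, S.p_zero]
        push_cast
        linear_combination (-1 : F) * hr
      rw [e, neg_ne_zero]
      exact cast_ne_zero' (p := p) (2 * j + 1) (by omega) (by omega)
    have r1 := S.cancel hcan r0
    have c0 : 2 * (p * h ^ 2 - h) = p * h - 1 := by linear_combination (p * h - 1) * hh
    rw [c0] at r1
    have r2 := hc_rec n h hh j (by omega)
    have r2' := S.cancel (rho_ne S (2 * j + 1) (by omega) (by omega)) r2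
    have hW := p_mul_h S hh j hF2 hF
    set W := S.w (((j + 1 : ℕ) : F)⁻¹ / 4) with hWdef
    have hWW : W * W = 0 := S.w_mul_w _ _
    have hHW : S.w ((1 / 4) * har F j) * W = 0 := S.w_mul_w _ _
    have e1 : (1 / 4 : F) * har F (j + 1) = (1 / 4) * har F j + ((j + 1 : ℕ) : F)⁻¹ / 4 := by
      rw [har_succ]; ring
    rw [e1, S.w_add, ← hWdef]
    set G1 := gt (p * h ^ 2 - h) M (j + 1)
    set G0 := gt (p * h ^ 2 - h) M j
    set D := df (2 * (p * h ^ 2 - h)) (2 * M)
    have hcan2 : S.ρ (8 * ((j + 1 : ℕ) : A) ^ 2) ≠ 0 := by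
      rw [map_mul, map_pow, map_natCast, map_ofNat]
      have : (8 : F) ≠ 0 := by
        have e : (8 : F) = 2 * 2 * 2 := by norm_num
        rw [e]; exact mul_ne_zero (mul_ne_zero hF2 hF2) hF2
      exact mul_ne_zero this (pow_ne_zero 2 hF)
    -- the product of the two linear factors
    have r3 : 4 * (((2 * M - j : ℕ) : A) * (p * h - 1 - 2 * (j : A) - ((2 * M - j : ℕ) : A))) = ((n - 2 * j : ℕ) : A) * ((n - 2 * j - 1 : ℕ) : A) := by
      rw [Nat.cast_sub (by omega : j ≤ 2 * M)]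
      rcases hM with hM | hM
      · have b1 : n - 2 * j = 4 * M - 2 * j := by omega
        have b2 : n - 2 * j - 1 = 4 * M - (2 * j + 1) := by omega
        rw [b1, show 4 * M - 2 * j - 1 = 4 * M - (2 * j + 1) by omega, Nat.cast_sub (by omega), Nat.cast_sub (by omega)]
        have hp' : (p : A) = 8 * M + 1 := by rw [hp, hM]; push_cast; ring
        rw [hp']
        push_cast
        linear_combination (2 * (8 * (M : A) + 1) * (2 * M - j)) * hh
      · have b1 : n - 2 * j = 4 * M + 1 - 2 * j := by omega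
        have b2 : n - 2 * j - 1 = 4 * M + 1 - (2 * j + 1) := by omega
        rw [b1, show 4 * M + 1 - 2 * j - 1 = 4 * M + 1 - (2 * j + 1) by omega, Nat.cast_sub (by omega), Nat.cast_sub (by omega)]
        have hp' : (p : A) = 8 * M + 3 := by rw [hp, hM]; push_cast; ring
        rw [hp']
        push_cast
        linear_combination (2 * (8 * (M : A) + 3) * (2 * M - j)) * hh
    have r4 : 8 * ((j + 1 : ℕ) : A) ^ 2 * ((1 - W) * G1) = ((n - 2 * j : ℕ) : A) * ((n - 2 * j - 1 : ℕ) : A) * G0 := by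
      rw [← r3]
      push_cast at r1 hW ⊢
      linear_combination (-4 : A) * r1 - (4 * ((j : A) + 1) * G1) * hW
    rw [ih'] at r4
    have r5 : 8 * ((j + 1 : ℕ) : A) ^ 2 * ((1 - W) * G1) = 8 * ((j + 1 : ℕ) : A) ^ 2 * (D * hc A n h (j + 1) * (1 + S.w ((1 / 4) * har F j)) * h ^ (j + 1)) := by
      rw [r4, pow_succ]
      linear_combination (-D * (1 + S.w ((1 / 4) * har F j)) * h ^ j) * r2' - (4 * ((j + 1 : ℕ) : A) ^ 2 * D * hc A n h (j + 1) * (1 + S.w ((1 / 4) * har F j)) * h ^ j) * hh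
    have r6 := S.cancel hcan2 r5
    have r7 : G1 = (1 + W) * ((1 - W) * G1) := by linear_combination G1 * hWW
    rw [r7, r6]
    linear_combination (D * hc A n h (j + 1) * h ^ (j + 1)) * hHW

lemma df_double (hp : p = 2 * n + 1) {h : A} (hh : 2 * h = 1) (k : ℕ) (hk : k ≤ n) :
    df (2 * (p * h ^ 2 - h)) (2 * k) = (-4) ^ k * (k.factorial : A) * df (p * h ^ 2 - h) k * (1 - S.w (har F k / 4)) := by
  induction k with
  | zero => simp
  | succ k ih =>
    have hF : ((k + 1 : ℕ) : F) ≠ 0 := cast_ne_zero' (p := p) (k + 1) (by omega) (by omega)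
    have hF2 : (2 : F) ≠ 0 := two_ne (p := p) hp
    have e : 2 * (k + 1) = 2 * k + 1 + 1 := by ring
    rw [e, df_succ, df_succ, ih (by omega), df_succ, har_succ, Nat.factorial_succ, pow_succ (-4 : A) k]
    have hW := p_mul_h S hh k hF2 hF
    have e1 : (har F k + ((k + 1 : ℕ) : F)⁻¹) / 4 = har F k / 4 + ((k + 1 : ℕ) : F)⁻¹ / 4 := by ring
    rw [e1, S.w_add]
    set W := S.w (((k + 1 : ℕ) : F)⁻¹ / 4) with hWdef
    have hHW : S.w (har F k / 4) * W = 0 := S.w_mul_w _ _
    have c0 : 2 * (p * h ^ 2 - h) = p * h - 1 := by linear_combination (p * h - 1) * hh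
    set x := p * h ^ 2 - h with hx
    push_cast at hW ⊢
    have e2 : (2 * x - (2 * (k : A) + 1)) = -2 * ((k : A) + 1) * (1 - W) := by
      rw [c0]
      linear_combination (-1 : A) * hW
    rw [e2]
    linear_combination ((-4) ^ k * (k.factorial : A) * df x k * (-4) * (x - k) * ((k : A) + 1)) * hHW

lemma K_eq (hp : p = 2 * n + 1) {M : ℕ} (hM : n = 4 * M ∨ n = 4 * M + 1) {h : A} (hh : 2 * h = 1) :
    Hv A n h h + S.w ((1 / 4) * BB F n (S.ρ h)) = (n.choose M : A) * (1 + S.w (od F M + har F M / 4)) := by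
  have hF2 : (2 : F) ≠ 0 := two_ne (p := p) hp
  have hr : 2 * S.ρ h = 1 := by
    have := congrArg S.ρ hh
    rwa [map_mul, map_one, map_ofNat] at this
  rw [← sum_hc_w S (1 / 4)]
  set K := ∑ k ∈ range (n + 1), hc A n h k * (1 + S.w ((1 / 4) * har F k)) * h ^ k with hK
  have h1 := geg_ring M (p * h ^ 2 - h)
  have h2 : ∑ j ∈ range (2 * M + 1), (-2 : A) ^ j * ((2 * M).choose j : A) * (df (p * h ^ 2 - h) j * df (2 * (p * h ^ 2 - h) - 2 * (j : A)) (2 * M - j))
      = df (2 * (p * h ^ 2 - h)) (2 * M) * K := by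
    rw [hK, mul_sum]
    have e1 : ∑ k ∈ range (n + 1), df (2 * (p * h ^ 2 - h)) (2 * M) * (hc A n h k * (1 + S.w ((1 / 4) * har F k)) * h ^ k)
        = ∑ k ∈ range (2 * M + 1), df (2 * (p * h ^ 2 - h)) (2 * M) * (hc A n h k * (1 + S.w ((1 / 4) * har F k)) * h ^ k) := by
      symm
      apply sum_subset
      · intro k hk; rw [mem_range] at *; omega
      · intro k _ hk
        rw [mem_range, not_lt] at hk
        rw [hc_zero h (by omega : n < 2 * k)]; simp
    rw [e1]
    refine sum_congr rfl fun j hj => ?_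
    rw [mem_range] at hj
    exact g_eq' S hp hM hh j (by omega)
  rw [h2, df_double S hp hh M (by omega)] at h1
  have hdf : S.ρ (df (p * h ^ 2 - h) M) ≠ 0 := by
    rw [df_map]
    unfold df
    rw [Finset.prod_ne_zero_iff]
    intro i hi
    rw [mem_range] at hi
    have h3 : (2 : F) * (S.ρ (p * h ^ 2 - h) - (i : F)) = -((2 * i + 1 : ℕ) : F) := by
      simp only [map_sub, map_mul, map_natCast, map_pow, S.p_zero]
      push_cast
      linear_combination (-1 : F) * hr
    intro h4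
    rw [h4, mul_zero] at h3
    have h5 : ((2 * i + 1 : ℕ) : F) ≠ 0 := cast_ne_zero' (p := p) (2 * i + 1) (by omega) (by omega)
    apply h5
    linear_combination h3
  have hfac : S.ρ (M.factorial : A) ≠ 0 := by
    rw [map_natCast, Ne, CharP.cast_eq_zero_iff F p, hpr.out.dvd_factorial]
    omega
  have h3 : (M.factorial : A) * df (p * h ^ 2 - h) M * ((-4) ^ M * (1 - S.w (har F M / 4)) * K) = (M.factorial : A) * df (p * h ^ 2 - h) M * (M.centralBinom : A) := by
    linear_combination h1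
  have h4 : S.ρ ((M.factorial : A) * df (p * h ^ 2 - h) M) ≠ 0 := by rw [map_mul]; exact mul_ne_zero hfac hdf
  have h5 := S.cancel h4 h3
  have h6 := choose_half S hp M (by omega)
  rw [← h5] at h6
  have h7 : S.ρ ((-4 : A) ^ M) ≠ 0 := by
    rw [map_pow, map_neg, map_ofNat]
    apply pow_ne_zero
    rw [neg_ne_zero]
    have e : (4 : F) = 2 * 2 := by norm_num
    rw [e]; exact mul_ne_zero hF2 hF2
  have h8 : (-4 : A) ^ M * (n.choose M : A) = (-4) ^ M * ((1 - S.w (har F M / 4)) * K * (1 - S.w (od F M))) := by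
    linear_combination h6
  have h9 := S.cancel h7 h8
  have m1 := S.w_mul_w (har F M / 4) (od F M)
  have m2 := S.w_mul_w (har F M / 4) (har F M / 4)
  have m3 := S.w_mul_w (od F M) (od F M)
  rw [h9, S.w_add]
  linear_combination (-K * (1 - S.w (har F M / 4) - S.w (od F M))) * m1 * 0 + (K * (1 - S.w (od F M) - S.w (har F M / 4)) - K * (S.w (har F M / 4) * S.w (od F M)) + 2 * K) * 0 * m2 + K * (m2 + m3 + m1) - (K * S.w (har F M / 4)) * m3 - (K * S.w (od F M)) * m2

end ext

end Pool.Agent.PellSC
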