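import Pool.Agent.PellSC.AsmA

/-!
# `(-2)^n H(1/2)²` mod p²
-/

set_option autoImplicit false
set_option linter.unusedSectionVars false
set_option linter.unusedVariables false

namespace Pool.Agent.PellSC

open Finset

section field
variable {p n : ℕ} {F : Type*} [Field F] [hpr : Fact p.Prime] [CharP F p]

lemma har_2M (hp : p = 2 * n + 1) {M : ℕ} (hM : n = 4 * M ∨ n = 4 * M + 1) : har F (2 * M) = 3 / 2 * har F n := by
  have h2 : (2 : F) ≠ 0 := two_ne (p := p) hp
  have key : har F n = -(har F n - har F (2 * M)) / 2 + har F (2 * M) / 2 := by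
    rcases hM with hM | hM
    · have h3 := od_refl (F := F) (p := p) hp (2 * M) (by omega)
      have h4 := har_two_mul (F := F) (2 * M) h2
      have e1 : n - 2 * M = 2 * M := by omega
      have e2 : 2 * (2 * M) = n := by omega
      rw [e1] at h3
      rw [e2, h3] at h4
      exact h4
    · have h3 := od_refl (F := F) (p := p) hp (2 * M + 1) (by omega)
      have h4 := har_two_mul (F := F) (2 * M) h2
      have e1 : n - (2 * M + 1) = 2 * M := by omega
      have e2 : n = 2 * (2 * M) + 1 := by omega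
      rw [e1, od_succ] at h3
      have h5 : har F n = har F (2 * (2 * M)) + ((2 * (2 * M) + 1 : ℕ) : F)⁻¹ := by
        conv_lhs => rw [e2]
        rw [har_succ]
      rw [h4] at h5
      linear_combination h5 + h3
  field_simp at key ⊢
  linear_combination (-1 : F) * key

lemma har_nM (hp : p = 2 * n + 1) {M : ℕ} (hM : n = 4 * M ∨ n = 4 * M + 1) : har F (n - M) = 4 * har F n - har F M := by
  have h2 : (2 : F) ≠ 0 := two_ne (p := p) hp
  have h3 := od_refl (F := F) (p := p) hp M (by omega)
  have h4 := har_two_mul (F := F) M h2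
  rw [har_2M (p := p) hp hM, h3] at h4
  field_simp at h4
  linear_combination (-1 : F) * h4

lemma od_M (hp : p = 2 * n + 1) {M : ℕ} (hM : n = 4 * M ∨ n = 4 * M + 1) : od F M = 3 / 2 * har F n - har F M / 2 := by
  have h2 : (2 : F) ≠ 0 := two_ne (p := p) hp
  have h4 := har_two_mul (F := F) M h2
  rw [har_2M (p := p) hp hM] at h4
  linear_combination (-1 : F) * h4

end field

section ext

variable {p n : ℕ} {A F : Type*} [CommRing A] [Field F] (S : SqExt p A F)
variable [hpr : Fact p.Prime] [CharP F p]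

include S

lemma sqrt_one_add_w {a : A} {y : F} (hF2 : (2 : F) ≠ 0) (h1 : S.ρ a = 1) (h2 : a ^ 2 = 1 + S.w y) : a = 1 + S.w (y / 2) := by
  obtain ⟨x, hx⟩ := S.exists_add_w (a := a) (b := 1) (by rw [h1, map_one])
  rw [hx] at h2 ⊢
  have h3 := S.w_mul_w x x
  have h4 : S.w (2 * x) = S.w y := by
    have : S.w (2 * x) = 2 * S.w x := by
      rw [S.mul_w, map_ofNat]
    rw [this]
    linear_combination h2 - h3
  have h5 := S.w_eq h4
  rw [← h5]
  congr 2
  field_simp

theorem H_value (hp : p = 2 * n + 1) {M : ℕ} (hM : n = 4 * M ∨ n = 4 * M + 1) {h : A} (hh : 2 * h = 1)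
    (hs : ((-2 : F)) ^ n = 1) :
    S.ρ (Hv A n h h) = (n.choose M : F) ∧
    (-2) ^ n * (Hv A n h h) ^ 2 = (n.choose M : A) ^ 2 * (1 + S.w (2 * har F n - har F M / 2)) := by
  have hF2 : (2 : F) ≠ 0 := two_ne (p := p) hp
  set H := Hv A n h h with hH
  set B := BB F n (S.ρ h) with hB
  have k1 := K_eq S hp hM hh
  have k2 := sym_half S hp hh
  rw [← hH, ← hB] at k1 k2
  -- central binomial
  have k3 : (-1) ^ n * ((2 * n).choose n : A) = 1 - S.w (har F n) := by
    have := choose_pred S n (by omega)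
    have e : p - 1 = 2 * n := by omega
    rwa [e] at this
  have k4 := choose_half S hp n le_rfl
  rw [Nat.choose_self, Nat.cast_one, mul_one, od_refl (F := F) (p := p) hp n le_rfl, Nat.sub_self, har_zero, sub_zero, Nat.centralBinom] at k4
  have m11 : (-1 : A) ^ n * (-1) ^ n = 1 := by rw [← mul_pow]; simp
  set ν : A := (-2) ^ n with hν
  have k5 : ν ^ 2 = 1 + S.w (-(har F n) / 2) := by
    have e1 : ν ^ 2 = (-1) ^ n * (-4) ^ n := by
      rw [hν, ← pow_mul, mul_comm n 2, pow_mul, ← mul_pow]; norm_num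
    rw [e1, k4]
    have m1 := S.w_mul_w (har F n) (-har F n / 2)
    have e2 : har F n = (-har F n / 2) * (-2) := by field_simp
    have e3 : S.w (har F n) = -2 * S.w (-har F n / 2) := by
      rw [S.mul_w]
      simp only [map_neg, map_ofNat]
      congr 1
      field_simp
    rw [← mul_assoc, k3]
    linear_combination m1 - e3
  have k6 : ν = 1 + S.w (-(har F n) / 4) := by
    have := sqrt_one_add_w S hF2 (a := ν) (by rw [hν, map_pow, map_neg, map_ofNat]; exact hs) k5
    rw [this]
    congr 2
    have : (4 : F) = 2 * 2 := by norm_num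
    rw [this]
    field_simp
  -- B
  have k7 : ν * H = (1 - S.w (har F n)) * (H + S.w (B / 2)) := by
    have e1 : ν = (-1) ^ n * 2 ^ n := by rw [hν, ← mul_pow]; norm_num
    rw [e1, ← k3]
    linear_combination ((-1) ^ n) * k2
  have k8 : S.w (B / 2) = S.w (3 / 4 * har F n * S.ρ H) := by
    rw [k6] at k7
    have m1 := S.w_mul_w (har F n) (B / 2)
    have e1 : S.w (3 / 4 * har F n * S.ρ H) = H * S.w (3 / 4 * har F n) := by
      rw [S.mul_w]; congr 1; ring
    have e2 : S.w (3 / 4 * har F n) = S.w (har F n) + S.w (-(har F n) / 4) := by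
      rw [← S.w_add]; congr 1
      have h4 : (4 : F) ≠ 0 := by
        have : (4 : F) = 2 * 2 := by norm_num
        rw [this]; exact mul_ne_zero hF2 hF2
      field_simp
      ring
    rw [e1, e2]
    linear_combination (-1 : A) * k7 + m1
  have k9 := S.w_eq k8
  have h4 : (4 : F) ≠ 0 := by
    have : (4 : F) = 2 * 2 := by norm_num
    rw [this]; exact mul_ne_zero hF2 hF2
  have h8 : (8 : F) ≠ 0 := by
    have : (8 : F) = 2 * 4 := by norm_num
    rw [this]; exact mul_ne_zero hF2 h4
  have k10 : (1 / 4 : F) * B = S.ρ H * (3 / 8 * har F n) := by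
    have : B = 2 * (3 / 4 * har F n * S.ρ H) := by
      rw [← k9]; field_simp
    rw [this]
    field_simp
    ring
  have k11 : S.w (1 / 4 * B) = H * S.w (3 / 8 * har F n) := by rw [k10, S.mul_w]
  rw [k11] at k1
  have hρ : S.ρ H = (n.choose M : F) := by
    have := congrArg S.ρ k1
    simpa using this
  refine ⟨hρ, ?_⟩
  -- H = C(n,M) (1 + w(..))
  have k12 : H = (n.choose M : A) * (1 + S.w (od F M + har F M / 4 - 3 / 8 * har F n)) := by
    have m1 := S.w_mul_w (od F M + har F M / 4) (3 / 8 * har F n)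
    have m2 := S.w_mul_w (3 / 8 * har F n) (3 / 8 * har F n)
    rw [S.w_sub]
    have e1 : H = (H + H * S.w (3 / 8 * har F n)) * (1 - S.w (3 / 8 * har F n)) := by
      linear_combination H * m2
    rw [e1, k1]
    linear_combination (-(n.choose M : A)) * m1
  rw [k12, k6]
  have e1 : ((n.choose M : A) * (1 + S.w (od F M + har F M / 4 - 3 / 8 * har F n))) ^ 2 = (n.choose M : A) ^ 2 * (1 + S.w (2 * (od F M + har F M / 4 - 3 / 8 * har F n))) := by
    have m1 := S.w_mul_w (od F M + har F M / 4 - 3 / 8 * har F n) (od F M + har F M / 4 - 3 / 8 * har F n)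
    have e2 : S.w (2 * (od F M + har F M / 4 - 3 / 8 * har F n)) = 2 * S.w (od F M + har F M / 4 - 3 / 8 * har F n) := by
      rw [S.mul_w, map_ofNat]
    rw [e2]
    linear_combination ((n.choose M : A) ^ 2) * m1
  rw [e1]
  have e3 : (1 + S.w (-har F n / 4)) * ((n.choose M : A) ^ 2 * (1 + S.w (2 * (od F M + har F M / 4 - 3 / 8 * har F n))))
      = (n.choose M : A) ^ 2 * ((1 + S.w (-har F n / 4)) * (1 + S.w (2 * (od F M + har F M / 4 - 3 / 8 * har F n)))) := by ring
  rw [e3, S.one_add_w_mul, od_M (p := p) hp hM]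
  congr 3
  field_simp
  ring

end ext

end Pool.Agent.PellSC
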