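import Pool.Agent.PellSC.AsmB

/-!
# The sum `S₀` mod p²
-/

set_option autoImplicit false
set_option linter.unusedSectionVars false
set_option linter.unusedVariables false

namespace Pool.Agent.PellSC

open Finset Polynomial

section field
variable {p n : ℕ} {F : Type*} [Field F] [hpr : Fact p.Prime] [CharP F p]

lemma z_pow_four_mul {z : F} (hz : z ^ 4 = -1) (M : ℕ) : z ^ (4 * M) = (-1) ^ M := by
  rw [pow_mul, hz]

lemma z_pow_eight_mul {z : F} (hz : z ^ 4 = -1) (M : ℕ) : z ^ (8 * M) = 1 := by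
  have : 8 * M = 4 * (2 * M) := by ring
  rw [this, z_pow_four_mul hz, pow_mul]; simp

lemma one_add_z_ne {z : F} (h2 : (2 : F) ≠ 0) (hz : z ^ 4 = -1) : 1 + z ≠ 0 := by
  intro h
  have : z = -1 := by linear_combination h
  rw [this] at hz
  apply h2
  linear_combination hz

lemma add_pow_p (a b : F) : (a + b) ^ p = a ^ p + b ^ p := add_pow_char a b p

lemma case1 (hp : p = 2 * n + 1) {M : ℕ} (hM : n = 4 * M) {z : F} (hz : z ^ 4 = -1) :
    (2 + (z - z ^ 3)) ^ n = (-1) ^ M := by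
  have h2 : (2 : F) ≠ 0 := two_ne (p := p) hp
  have h1 : z ^ n * (2 + (z - z ^ 3)) ^ n = (1 + z) ^ (2 * n) := by
    rw [← mul_pow, pow_mul]
    congr 1
    linear_combination (-1 : F) * hz
  have h3 : (1 + z) * (1 + z) ^ (2 * n) = (1 + z) * 1 := by
    rw [← pow_succ', ← hp, add_pow_p, one_pow]
    have : p = 8 * M + 1 := by omega
    rw [this, pow_succ, z_pow_eight_mul hz]; ring
  have h4 := mul_left_cancel₀ (one_add_z_ne h2 hz) h3
  rw [h4, hM, z_pow_four_mul hz, ← hM] at h1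
  have h5 : (-1 : F) ^ M * (-1) ^ M = 1 := by rw [← mul_pow]; simp
  linear_combination ((-1) ^ M) * h1 - (2 + (z - z ^ 3)) ^ n * h5

lemma case3 (hp : p = 2 * n + 1) {M : ℕ} (hM : n = 4 * M + 1) {z : F} (hz : z ^ 4 = -1) :
    (2 + (z - z ^ 3)) ^ n = (-1) ^ M * ((z - z ^ 3) - 1) := by
  have h2 : (2 : F) ≠ 0 := two_ne (p := p) hp
  have h1 : z ^ n * (2 + (z - z ^ 3)) ^ n = (1 + z) ^ (2 * n) := by
    rw [← mul_pow, pow_mul]
    congr 1
    linear_combination (-1 : F) * hz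
  have h3 : (1 + z) * (1 + z) ^ (2 * n) = (1 + z) * (1 - z + z ^ 2) := by
    rw [← pow_succ', ← hp, add_pow_p, one_pow]
    have : p = 8 * M + 3 := by omega
    rw [this, pow_add, z_pow_eight_mul hz]; ring
  have h4 := mul_left_cancel₀ (one_add_z_ne h2 hz) h3
  have hz0 : z ≠ 0 := by
    rintro rfl
    simp at hz
  have e : z ^ n = (-1) ^ M * z := by rw [hM, pow_succ, z_pow_four_mul hz]
  rw [h4, e] at h1
  have h5 : (-1 : F) ^ M * (-1) ^ M = 1 := by rw [← mul_pow]; simp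
  apply mul_left_cancel₀ hz0
  linear_combination ((-1) ^ M) * h1 - (z * (2 + (z - z ^ 3)) ^ n) * h5 + (-1) ^ M * hz

lemma neg_two_pow (hp : p = 2 * n + 1) {M : ℕ} (hM : n = 4 * M ∨ n = 4 * M + 1) {z : F} (hz : z ^ 4 = -1) :
    ((-2 : F)) ^ n = 1 := by
  have h2 : (2 : F) ≠ 0 := two_ne (p := p) hp
  have h1 : (z + z ^ 3) ^ 2 = -2 := by linear_combination (2 + z ^ 2) * hz
  have h0 : z + z ^ 3 ≠ 0 := by
    intro h
    rw [h] at h1
    apply h2
    linear_combination h1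
  apply mul_left_cancel₀ h0
  rw [← h1, ← pow_mul, ← pow_succ', ← hp, add_pow_p, mul_one, ← pow_mul]
  rcases hM with hM | hM
  · have : p = 8 * M + 1 := by omega
    have e1 : z ^ p = z := by rw [this, pow_succ, z_pow_eight_mul hz, one_mul]
    rw [mul_comm 3 p, pow_mul, e1]
  · have : p = 8 * M + 3 := by omega
    have e1 : z ^ p = z ^ 3 := by rw [this, pow_add, z_pow_eight_mul hz, one_mul]
    rw [mul_comm 3 p, pow_mul, e1]
    linear_combination (z * (z ^ 4 - 1)) * hz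

end field

section ext

variable {p n : ℕ} {A F : Type*} [CommRing A] [Field F] (S : SqExt p A F)
variable [hpr : Fact p.Prime] [CharP F p]

include S

/-- `(1-t)^p = 1 - t^p - w(Λ(t))` -/
lemma one_sub_pow_p (hodd : Odd p) (t : A) : (1 - t) ^ p = 1 - t ^ p - S.w (eval (S.ρ t) (LamP F p)) := by
  have hp2 := hpr.out.two_le
  obtain ⟨q, hq⟩ : ∃ q, p = q + 1 := ⟨p - 1, by omega⟩
  have e0 : (1 - t) = -t + 1 := by ring
  have e1 : (1 - t) ^ p = ∑ m ∈ range (p + 1), (-t) ^ m * (p.choose m : A) := by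
    rw [e0, add_pow]
    simp
  rw [e1, sum_range_succ, Nat.choose_self, hodd.neg_pow]
  have e2 : ∑ m ∈ range p, (-t) ^ m * (p.choose m : A) = (∑ j ∈ range (p - 1), (-t) ^ (j + 1) * (p.choose (j + 1) : A)) + 1 := by
    have : range p = range ((p - 1) + 1) := by congr 1; omega
    rw [this, sum_range_succ']
    simp
  rw [e2]
  have e3 : S.w (eval (S.ρ t) (LamP F p)) = - ∑ j ∈ range (p - 1), (-t) ^ (j + 1) * (p.choose (j + 1) : A) := by
    unfold LamP
    rw [eval_finsetSum, S.w_sum, ← sum_neg_distrib]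
    refine sum_congr rfl fun j hj => ?_
    rw [mem_range] at hj
    have hF : ((j + 1 : ℕ) : F) ≠ 0 := cast_ne_zero' (p := p) (j + 1) (by omega) (by omega)
    apply S.cancel (rho_ne S (j + 1) (by omega) (by omega))
    simp only [eval_mul, eval_C, eval_pow, eval_X]
    have a1 : ((j + 1 : ℕ) : A) * S.w ((((j + 1 : ℕ) : F))⁻¹ * S.ρ t ^ (j + 1)) = S.w (S.ρ (t ^ (j + 1))) := by
      rw [S.mul_w, map_natCast, ← mul_assoc, mul_inv_cancel₀ hF, one_mul, map_pow]
    rw [a1, S.w_rho]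
    have a2 := Nat.add_one_mul_choose_eq (p - 1) j
    have a3 : p - 1 + 1 = p := by omega
    rw [a3] at a2
    have a4 : (p : A) * ((p - 1).choose j : A) = (p.choose (j + 1) : A) * ((j + 1 : ℕ) : A) := by
      exact_mod_cast congrArg (Nat.cast : ℕ → A) a2
    have a5 := choose_pred S j (by omega)
    have a6 : (p : A) * S.w (har F j) = 0 := by
      rw [S.mul_w, map_natCast, S.p_zero, zero_mul, S.w_zero]
    have a7 : (-1 : A) ^ j * (-1) ^ j = 1 := by rw [← mul_pow]; simp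
    rw [neg_pow, pow_succ (-1 : A) j]
    linear_combination ((-1) ^ j * t ^ (j + 1)) * a4 - (p * t ^ (j + 1)) * a5 + t ^ (j + 1) * a6
  rw [e3]
  push_cast
  ring

lemma ell_w (hp : p = 2 * n + 1) (u : A) : 2 * S.w (eval (S.ρ u) (ellP F n)) = (1 + u) ^ p - (1 - u) ^ p - 2 * u ^ p := by
  have hodd : Odd p := ⟨n, hp⟩
  have h1 := one_sub_pow_p S hodd u
  have h2 := one_sub_pow_p S hodd (-u)
  rw [sub_neg_eq_add, hodd.neg_pow] at h2
  have h3 : eval (S.ρ u) (LamP F p) - eval (S.ρ (-u)) (LamP F p) = 2 * eval (S.ρ u) (ellP F n) := by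
    rw [map_neg]
    set x := S.ρ u
    unfold LamP ellP
    rw [eval_finsetSum, eval_finsetSum, eval_finsetSum, ← sum_sub_distrib]
    have hp1 : p - 1 = 2 * n := by omega
    rw [hp1]
    have e1 : ∀ N : ℕ, ∑ j ∈ range (2 * N), (eval x (C (((j + 1 : ℕ) : F)⁻¹) * X ^ (j + 1)) - eval (-x) (C (((j + 1 : ℕ) : F)⁻¹) * X ^ (j + 1)))
        = 2 * ∑ m ∈ range N, eval x (C (((2 * m + 1 : ℕ) : F)⁻¹) * X ^ (2 * m + 1)) := by
      intro N
      induction N with
      | zero => simp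
      | succ N ih =>
        have e : 2 * (N + 1) = 2 * N + 1 + 1 := by ring
        rw [e, sum_range_succ, sum_range_succ, ih, sum_range_succ, mul_add]
        simp only [eval_mul, eval_C, eval_pow, eval_X]
        have o1 : Odd (2 * N + 1) := ⟨N, rfl⟩
        have o2 : Even (2 * N + 1 + 1) := ⟨N + 1, by ring⟩
        rw [o1.neg_pow, o2.neg_pow]
        ring
    rw [e1 n]
  have h4 : 2 * S.w (eval (S.ρ u) (ellP F n)) = S.w (eval (S.ρ u) (LamP F p)) - S.w (eval (S.ρ (-u)) (LamP F p)) := by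
    rw [← S.w_sub, h3, S.mul_w, map_ofNat]
  rw [h4]
  linear_combination h1 - h2

/-- `2^n = C(2n,n)` mod `p` -/
lemma two_pow_eq (hp : p = 2 * n + 1) (hs : ((-2 : F)) ^ n = 1) : (2 : F) ^ n = ((2 * n).choose n : F) := by
  have k3 : (-1) ^ n * ((2 * n).choose n : A) = 1 - S.w (har F n) := by
    have := choose_pred S n (by omega)
    have e : p - 1 = 2 * n := by omega
    rwa [e] at this
  have h1 := congrArg S.ρ k3
  simp only [map_mul, map_pow, map_neg, map_one, map_natCast, map_sub, S.rho_w, sub_zero] at h1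
  have e1 : ((-2 : F)) ^ n = (-1) ^ n * 2 ^ n := by rw [← mul_pow]; norm_num
  rw [e1] at hs
  have h5 : (-1 : F) ^ n * (-1) ^ n = 1 := by rw [← mul_pow]; simp
  linear_combination ((-1) ^ n) * (hs - h1) - (2 ^ n - ((2 * n).choose n : F)) * h5

/-- the value of one half of the sum -/
lemma Fs_value (hp : p = 2 * n + 1) (hn : 0 < n) (hs : ((-2 : F)) ^ n = 1) {h : A} (hh : 2 * h = 1)
    {u l : A} (hu : u ^ 2 = h) (hl : l * (1 + u) = 2 * u) :
    (1 + u) ^ n * Fs A p h l = Hv A n h h * (1 + h ^ 2 * ((1 + u) ^ p - (1 - u) ^ p - 2 * u ^ p)) := by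
  have h1 := leg1 S hp hh hl
  have hr : 2 * S.ρ h = 1 := by
    have := congrArg S.ρ hh
    rwa [map_mul, map_one, map_ofNat] at this
  have hsym := HP_symm S hp hr ⟨h, hh, rfl⟩ (two_pow_eq S hp hs)
  have hx : (S.ρ u) ^ 2 = S.ρ h := by rw [← map_pow, hu]
  have h2 := Xc_eq (p := p) hp hn hr hsym hx
  rw [hu] at h1
  rw [h1]
  have h3 : S.ρ (Hv A n h h) = Hv F n (S.ρ h) (S.ρ h) := by
    unfold Hv hc; simp
  have h4 : 4 * S.w (Xc F n (S.ρ h) (S.ρ u)) = Hv A n h h * (2 * S.w (eval (S.ρ u) (ellP F n))) := by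
    have e1 : 4 * S.w (Xc F n (S.ρ h) (S.ρ u)) = S.w (4 * Xc F n (S.ρ h) (S.ρ u)) := by
      rw [S.mul_w, map_ofNat]
    have e2 : (2 : A) * S.w (eval (S.ρ u) (ellP F n)) = S.w (2 * eval (S.ρ u) (ellP F n)) := by
      rw [S.mul_w, map_ofNat]
    rw [e1, e2, h2, S.mul_w, h3]
    congr 1; ring
  rw [← ell_w S hp u]
  linear_combination (h ^ 2) * h4 - (S.w (Xc F n (S.ρ h) (S.ρ u))) * (2 * h + 1) * hh

/-- the sum `S₀` -/
def S0A (A : Type*) [CommRing A] (p : ℕ) (h r : A) : A := Fs A p h (-2 * (1 + r)) + Fs A p h (-2 * (1 - r))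

theorem S0_value (hp : p = 2 * n + 1) (hn : 0 < n) {M : ℕ} (hM : n = 4 * M ∨ n = 4 * M + 1) {h : A} (hh : 2 * h = 1)
    {z : F} (hz : z ^ 4 = -1) {r : A} (hr : r ^ 2 = 2) (hrz : S.ρ r = z - z ^ 3) :
    S.ρ (S0A A p h r) = 2 * (-1) ^ (M + n) * (n.choose M : F) ∧
    (S0A A p h r) ^ 2 = 4 * (n.choose M : A) ^ 2 * (1 + S.w (2 * har F n - har F M / 2)) := by
  have hs := neg_two_pow (p := p) hp hM hz
  have hF2 : (2 : F) ≠ 0 := two_ne (p := p) hp
  obtain ⟨v1, v2⟩ := H_value S hp hM hh hs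
  set H := Hv A n h h with hH
  set u := r * h with hu'
  have hu : u ^ 2 = h := by
    rw [hu', mul_pow, hr]; linear_combination h * hh
  have f1 := Fs_value S hp hn hs hh (u := u) (l := -2 * (1 - r)) hu (by
    rw [hu']; linear_combination (-2 * r + r ^ 2) * hh + hr)
  have f2 := Fs_value S hp hn hs hh (u := -u) (l := -2 * (1 + r)) (by rw [neg_sq, hu]) (by
    rw [hu']; linear_combination (2 * r + r ^ 2) * hh + hr)
  rw [← hH] at f1 f2
  have hodd : Odd p := ⟨n, hp⟩
  rw [sub_neg_eq_add, hodd.neg_pow, ← sub_eq_add_neg] at f2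
  set a := (1 + u) ^ n with ha
  set b := (1 - u) ^ n with hb
  set T := (1 + u) ^ p - (1 - u) ^ p - 2 * u ^ p with hT
  have hab : a * b = h ^ n := by
    rw [ha, hb, ← mul_pow]; congr 1
    linear_combination (-1 : A) * hu - hh
  -- T in terms of a, b
  have t1 : (1 + u) ^ p = (1 + u) * a ^ 2 := by rw [hp, ha, ← pow_mul]; ring
  have t2 : (1 - u) ^ p = (1 - u) * b ^ 2 := by rw [hp, hb, ← pow_mul]; ring
  have t3 : u ^ p = u * (a * b) := by
    have : u ^ p = u * (u ^ 2) ^ n := by rw [hp, ← pow_mul]; ring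
    rw [this, hu, hab]
  have hTd : T = (a - b) * ((a + b) + u * (a - b)) := by rw [hT, t1, t2, t3]; ring
  have hTw := ell_w S hp u
  rw [← hT] at hTw
  have hTT : T * T = 0 := by
    rw [← hTw]
    have := S.w_mul_w (eval (S.ρ u) (ellP F n)) (eval (S.ρ u) (ellP F n))
    linear_combination 4 * this
  have hρT : S.ρ T = 0 := by rw [← hTw, map_mul, S.rho_w, mul_zero]
  -- the sum
  have hsum : h ^ n * S0A A p h r = H * ((a + b) - (a - b) * (h ^ 2 * T)) := by
    unfold S0A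
    rw [← hab]
    have f2' : b * Fs A p h (-2 * (1 + r)) = H * (1 - h ^ 2 * T) := by
      rw [f2, hT]; ring
    linear_combination b * f1 + a * f2'
  -- facts in F
  have hrF : S.ρ u = (z - z ^ 3) * S.ρ h := by rw [hu', map_mul, hrz]
  have hhF : 2 * S.ρ h = 1 := by
    have := congrArg S.ρ hh
    rwa [map_mul, map_one, map_ofNat] at this
  have hnz : (-z) ^ 4 = -1 := by rw [← hz]; ring
  have h2n : (2 : F) ^ n = (-1) ^ n := by
    have e1 : ((-2 : F)) ^ n = (-1) ^ n * 2 ^ n := by rw [← mul_pow]; norm_num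
    have h5 : (-1 : F) ^ n * (-1) ^ n = 1 := by rw [← mul_pow]; simp
    rw [e1] at hs
    linear_combination ((-1) ^ n) * hs - (2 ^ n) * h5
  have hhn : (S.ρ h) ^ n = (-1) ^ n := by
    have h5 : (-1 : F) ^ n * (-1) ^ n = 1 := by rw [← mul_pow]; simp
    have e1 : (2 : F) ^ n * (S.ρ h) ^ n = 1 := by rw [← mul_pow, hhF, one_pow]
    rw [h2n] at e1
    linear_combination ((-1) ^ n) * e1 - ((S.ρ h) ^ n) * h5
  have ra : S.ρ a = (-1) ^ n * (2 + (z - z ^ 3)) ^ n := by
    rw [ha, map_pow, map_add, map_one, hrF, ← hhn, ← mul_pow]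
    congr 1
    linear_combination (-1 : F) * hhF
  have rb : S.ρ b = (-1) ^ n * (2 + ((-z) - (-z) ^ 3)) ^ n := by
    rw [hb, map_pow, map_sub, map_one, hrF, ← hhn, ← mul_pow]
    congr 1
    linear_combination (-1 : F) * hhF
  have h4n : (2 : A) ^ n * (2 : A) ^ n * (h ^ n * h ^ n) = 1 := by
    have : (2 : A) ^ n * h ^ n = 1 := by rw [← mul_pow, hh, one_pow]
    linear_combination ((2 : A) ^ n * h ^ n + 1) * this
  have key : ((a + b) - (a - b) * (h ^ 2 * T)) ^ 2 = 4 * h ^ n * (-1) ^ n ∧ S.ρ (a + b) = 2 * (-1) ^ M := by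
    rcases hM with hM | hM
    · have c1 := case1 (p := p) hp hM hz
      have c2 := case1 (p := p) hp hM hnz
      have hev : (-1 : F) ^ n = 1 := by rw [hM, pow_mul]; norm_num
      have hevA : (-1 : A) ^ n = 1 := by rw [hM, pow_mul]; norm_num
      rw [c1, hev, one_mul] at ra
      rw [c2, hev, one_mul] at rb
      have hd : S.ρ (a - b) = 0 := by rw [map_sub, ra, rb, sub_self]
      obtain ⟨x, hx⟩ := S.exists_w hd
      have e1 : (a - b) * T = 0 := by
        rw [hx, ← hTw]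
        have := S.w_mul_w x (eval (S.ρ u) (ellP F n))
        linear_combination 2 * this
      have e2 : (a - b) * (a - b) = 0 := by rw [hx]; exact S.w_mul_w x x
      refine ⟨?_, by rw [map_add, ra, rb]; ring⟩
      rw [hevA]
      linear_combination (-2 * (a + b) * h ^ 2 + (a - b) * h ^ 4 * T) * e1 + e2 + 4 * hab
    · have c1 := case3 (p := p) hp hM hz
      have c2 := case3 (p := p) hp hM hnz
      have hev : (-1 : F) ^ n = -1 := by rw [hM, pow_succ, pow_mul]; norm_num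
      have hevA : (-1 : A) ^ n = -1 := by rw [hM, pow_succ, pow_mul]; norm_num
      rw [c1, hev] at ra
      rw [c2, hev] at rb
      have m2 : (-1 : F) ^ M * (-1) ^ M = 1 := by rw [← mul_pow]; simp
      have hr2 : (z - z ^ 3) ^ 2 = 2 := by linear_combination (z ^ 2 - 2) * hz
      have hd : S.ρ (a - b) = -(2 * (-1) ^ M * (z - z ^ 3)) := by
        rw [map_sub, ra, rb]; ring
      have hd2 : S.ρ ((a - b) ^ 2) = S.ρ 8 := by
        rw [map_pow, hd, map_ofNat]
        linear_combination (4 * (z - z ^ 3) ^ 2) * m2 + 4 * hr2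
      obtain ⟨x, hx⟩ := S.exists_add_w hd2
      have hd0 : S.ρ (a - b) ≠ 0 := by
        intro h0
        rw [map_pow, h0, map_ofNat] at hd2
        have e : (8 : F) = 2 * 2 * 2 := by norm_num
        rw [e] at hd2
        have : (2 * 2 * 2 : F) ≠ 0 := mul_ne_zero (mul_ne_zero hF2 hF2) hF2
        apply this
        rw [← hd2]; ring
      have hs0 : S.ρ ((a + b) + u * (a - b)) = 0 := by
        rw [hTd, map_mul] at hρT
        rcases mul_eq_zero.1 hρT with h0 | h0
        · exact absurd h0 hd0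
        · exact h0
      obtain ⟨y, hy⟩ := S.exists_w hs0
      have e1 : ((a + b) + u * (a - b)) * ((a + b) + u * (a - b)) = 0 := by rw [hy]; exact S.w_mul_w y y
      have e2 : (a - b) ^ 2 * ((a + b) + u * (a - b)) = 8 * ((a + b) + u * (a - b)) := by
        rw [hx, hy]
        have := S.w_mul_w x y
        linear_combination this
      refine ⟨?_, by rw [map_add, ra, rb]; ring⟩
      rw [hevA]
      have e3 : (a - b) * T = 8 * ((a + b) + u * (a - b)) := by
        rw [hTd, ← e2]; ring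
      have e4 : ((a + b) - (a - b) * (h ^ 2 * T)) ^ 2 = (a + b) ^ 2 - 2 * (a + b) * h ^ 2 * ((a - b) * T) + (a - b) ^ 2 * h ^ 4 * (T * T) := by ring
      rw [e4, hTT, e3]
      linear_combination (-4 * (a + b) * ((a + b) + u * (a - b)) * (2 * h + 1)) * hh - 2 * e1 + (2 * (a - b) ^ 2) * hu - 4 * hab + (a - b) ^ 2 * hh
  obtain ⟨key1, key2⟩ := key
  constructor
  · have h1 := congrArg S.ρ hsum
    rw [map_mul, map_pow, hhn, map_mul, v1, map_sub, key2, map_mul, map_mul, hρT, mul_zero, mul_zero, sub_zero] at h1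
    have h5 : (-1 : F) ^ n * (-1) ^ n = 1 := by rw [← mul_pow]; simp
    rw [pow_add]
    linear_combination ((-1) ^ n) * h1 - (S.ρ (S0A A p h r)) * h5
  · have h1 : (h ^ n * S0A A p h r) ^ 2 = H ^ 2 * (4 * h ^ n * (-1) ^ n) := by
      rw [hsum, mul_pow, key1]
    have e1 : ((-2 : A)) ^ n = (-1) ^ n * 2 ^ n := by rw [← mul_pow]; norm_num
    have h3 : (2 : A) ^ n * h ^ n = 1 := by rw [← mul_pow, hh, one_pow]
    rw [mul_assoc, ← v2, e1]
    have e5 : (S0A A p h r) ^ 2 = (2 : A) ^ n * (2 : A) ^ n * (h ^ n * S0A A p h r) ^ 2 := by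
      linear_combination (-(S0A A p h r) ^ 2) * h4n
    rw [e5, h1]
    linear_combination (4 * H ^ 2 * (-1) ^ n * 2 ^ n) * h3

end ext

end Pool.Agent.PellSC
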