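import Pool.Agent.PellSC.Ode

/-!
# First order data for `S₁`
-/

set_option autoImplicit false
set_option linter.unusedSectionVars false
set_option linter.unusedVariables false

namespace Pool.Agent.PellSC

open Finset Polynomial

section field
variable {p n : ℕ} {F : Type*} [Field F] [hpr : Fact p.Prime] [CharP F p]

/-- `X'(u) H = H² - h^n` at `u² = h = 1/2` -/
lemma XcP_der_half (hp : p = 2 * n + 1) (hn : 0 < n) {h : F} (hh : 2 * h = 1) (hs : (HP F n h).comp (1 - X) = HP F n h)
    {x : F} (hx : x ^ 2 = h) :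
    eval x (derivative (XcP F n h)) * Hv F n h h = (Hv F n h h) ^ 2 - h ^ n := by
  have h2 : (2 : F) ≠ 0 := two_ne (p := p) hp
  have h1 := D1 (p := p) hp h
  rw [WP_eq (p := p) hp hn hh] at h1
  have e0 : Hv F[X] n (C h) (X ^ 2) = (HP F n h).comp (X ^ 2) := by
    rw [Hv_poly]
    unfold HP
    rw [Polynomial.sum_comp]
    refine sum_congr rfl fun i _ => ?_
    rw [mul_comp, C_comp, pow_comp, X_comp, ← pow_mul]
  rw [e0] at h1
  have h3 := congrArg derivative h1
  have hpX : derivative ((X : F[X]) ^ p) = 0 := by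
    rw [derivative_X_pow]
    have : ((p : ℕ) : F) = 0 := CharP.cast_eq_zero F p
    rw [this]; simp
  rw [derivative_sub, derivative_mul, derivative_mul (f := (X : F[X]) ^ p), hpX, derivative_comp, derivative_comp] at h3
  have d4 : derivative (4 * XcP F n h) = 4 * derivative (XcP F n h) := by
    rw [show (4 : F[X]) = C 4 from rfl, derivative_C_mul]
  have d2 : derivative (2 * ellP F n) = 2 * derivative (ellP F n) := by
    rw [show (2 : F[X]) = C 2 from rfl, derivative_C_mul]
  rw [d4, d2] at h3
  have h4 := congrArg (eval x) h3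
  have dX2 : derivative ((X : F[X]) ^ 2) = C 2 * X := by
    rw [derivative_X_pow]; simp
  simp only [dX2, eval_add, eval_sub, eval_mul, eval_comp, eval_pow, eval_X, eval_C, hx, eval_HP, eval_ofNat, derH_half (p := p) hp hh hs, zero_mul, mul_zero, add_zero, zero_add] at h4
  -- derivative of ell
  have dl : h * eval x (derivative (ellP F n)) = 1 - h ^ n := by
    have e1 : derivative (ellP F n) = ∑ m ∈ range n, (X ^ 2) ^ m := by
      unfold ellP
      rw [derivative_sum]
      refine sum_congr rfl fun m hm => ?_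
      rw [mem_range] at hm
      rw [derivative_C_mul, derivative_X_pow]
      have a1 : ((2 * m + 1 : ℕ) : F) ≠ 0 := cast_ne_zero' (p := p) (2 * m + 1) (by omega) (by omega)
      have a2 : (((2 * m + 1 : ℕ) : F))⁻¹ * ((2 * m + 1 : ℕ) : F) = 1 := inv_mul_cancel₀ a1
      have a3 : 2 * m + 1 - 1 = 2 * m := by omega
      rw [a3, ← mul_assoc, ← C_mul, a2, C_1, one_mul, pow_mul]
    rw [e1, eval_finsetSum]
    simp only [eval_pow, eval_X, hx]
    have g := geom_sum_mul h n
    have e2 : h - 1 = -h := by linear_combination hh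
    rw [e2] at g
    linear_combination (-1 : F) * g
  have hxp : x ^ p * (2 * x) = h ^ n := by
    have : x ^ p * (2 * x) = 2 * (x ^ 2) * (x ^ 2) ^ n := by rw [hp, ← pow_mul]; ring
    rw [this, hx, hh, one_mul]
  have hG := derG_half (p := p) hp hn hh hs
  have h4ne : (4 : F) ≠ 0 := by
    have : (4 : F) = 2 * 2 := by norm_num
    rw [this]; exact mul_ne_zero h2 h2
  apply mul_left_cancel₀ h4ne
  set H := Hv F n h h
  set G' := eval h (derivative (GP F n h))
  set L' := eval x (derivative (ellP F n))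
  set X' := eval x (derivative (XcP F n h))
  linear_combination (-H) * h4 + 4 * H ^ 2 * dl - (2 * L' * H ^ 2) * hh + h ^ n * hG - (G' * H) * hxp * (-1)

end field

section ext
variable {p n : ℕ} {A F : Type*} [CommRing A] [Field F] (S : SqExt p A F)
variable [hpr : Fact p.Prime] [CharP F p]

include S

/-- `h B'(h)` -/
lemma BD_eq (h : F) : h * eval h (derivative (BP F n h)) = ∑ k ∈ range (n + 1), (k : F) * (hc F n h k * har F k) * h ^ k := by
  unfold BP
  rw [derivative_sum, eval_finsetSum, mul_sum]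
  refine sum_congr rfl fun k _ => ?_
  rw [derivative_C_mul, derivative_X_pow]
  rcases k with _ | k
  · simp
  · simp only [eval_mul, eval_C, eval_pow, eval_X, Nat.add_sub_cancel]
    rw [pow_succ]; ring

/-- `H'(1/2)` mod `p²`: `Hd = h H'(h)` -/
lemma Hd_half (hp : p = 2 * n + 1) (hn : 0 < n) {h : A} (hh : 2 * h = 1) (hs : ((-2 : F)) ^ n = 1) :
    Hd A n h h = S.w (-(S.ρ h * eval (S.ρ h) (derivative (BP F n (S.ρ h)))) / 4) := by
  have hF2 : (2 : F) ≠ 0 := two_ne (p := p) hp
  have hh' : 2 * (C h : A[X]) = 1 := by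
    rw [show (2 : A[X]) = C 2 from rfl, ← C_mul, hh, C_1]
  have h1 := S3 n (C h) (X : A[X]) hh'
  have h3 := congrArg derivative h1
  have h4 := congrArg (fun f => h * eval h f) h3
  have e : (1 : A) - h = h := by linear_combination (-1 : A) * hh
  have l1 : h * eval h (derivative (2 ^ n * Hv A[X] n (C h) (1 - X))) = - (2 ^ n * Hd A n h h) := by
    have : (2 : A[X]) ^ n = C (2 ^ n) := by rw [C_pow]; rfl
    rw [this, derivative_C_mul, eval_mul, eval_C]
    unfold Hv Hd hc
    rw [derivative_sum, eval_finsetSum, mul_sum, mul_sum, mul_sum, ← sum_neg_distrib]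
    refine sum_congr rfl fun j _ => ?_
    have a1 : ((n.choose (2 * j) : A[X]) * (j.centralBinom : A[X]) * (C h) ^ (2 * j) * (1 - X) ^ j)
        = C ((n.choose (2 * j) : A) * (j.centralBinom : A) * h ^ (2 * j)) * (1 - X) ^ j := by
      simp only [C_mul, C_pow, C_eq_natCast]
    rw [a1, derivative_C_mul, derivative_pow]
    rcases j with _ | j
    · simp
    · simp only [eval_mul, eval_C, eval_pow, eval_sub, eval_one, eval_X, derivative_sub, derivative_one, derivative_X, zero_sub, eval_neg, e, Nat.add_sub_cancel, pow_succ h j]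
      ring
  have l2 : h * eval h (derivative (∑ k ∈ range (n + 1), ee A[X] n k * X ^ k)) = ∑ k ∈ range (n + 1), (k : A) * ee A n k * h ^ k := by
    rw [derivative_sum, eval_finsetSum, mul_sum]
    refine sum_congr rfl fun k _ => ?_
    have a1 : ee A[X] n k * X ^ k = C (ee A n k) * X ^ k := by unfold ee; simp
    rw [a1, derivative_C_mul, derivative_X_pow]
    rcases k with _ | k
    · simp
    · simp only [eval_mul, eval_C, eval_pow, eval_X, Nat.add_sub_cancel]
      rw [pow_succ h k]; ring
  simp only [l1, l2] at h4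
  have l3 : ∑ k ∈ range (n + 1), (k : A) * ee A n k * h ^ k = ((2 * n).choose n : A) * (Hd A n h h + S.w ((S.ρ h * eval (S.ρ h) (derivative (BP F n (S.ρ h)))) / 2)) := by
    rw [BD_eq (p := p) S, sum_div, S.w_sum]
    unfold Hd
    rw [← sum_add_distrib, mul_sum]
    refine sum_congr rfl fun k hk => ?_
    rw [mem_range] at hk
    rw [ee_eq S hp hh k (by omega)]
    have e1 : S.w ((k : F) * (hc F n (S.ρ h) k * har F k) * S.ρ h ^ k / 2) = ((k : A) * hc A n h k * h ^ k) * S.w (har F k / 2) := by
      rw [S.mul_w]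
      congr 1
      simp only [map_mul, map_pow, map_natCast, rho_hc S]
      ring
    rw [e1]
    ring
  rw [l3] at h4
  have h2n := two_pow_eq S hp hs
  have h2nA : S.ρ ((2 : A) ^ n) = S.ρ ((2 * n).choose n : A) := by
    rw [map_pow, map_ofNat, map_natCast, h2n]
  have hne : S.ρ ((2 : A) ^ n) ≠ 0 := by
    rw [map_pow, map_ofNat]; exact pow_ne_zero _ hF2
  set E := Hd A n h h
  set b := S.ρ h * eval (S.ρ h) (derivative (BP F n (S.ρ h)))
  have hE0 : S.ρ E = 0 := by
    have h5 := congrArg S.ρ h4
    rw [map_neg, map_mul, map_mul, map_add, S.rho_w, add_zero, ← h2nA] at h5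
    have h6 : (2 : F) * (S.ρ (2 ^ n) * S.ρ E) = 0 := by linear_combination (-1 : F) * h5
    rcases mul_eq_zero.1 h6 with h7 | h7
    · exact absurd h7 hF2
    · rcases mul_eq_zero.1 h7 with h8 | h8
      · exact absurd h8 hne
      · exact h8
  obtain ⟨d, hd⟩ := S.exists_w hE0
  rw [hd] at h4 ⊢
  rw [← S.w_add, S.mul_w, S.mul_w, ← h2nA, ← S.w_neg] at h4
  have h5 := S.w_eq h4
  have h6 : d = -b / 4 := by
    have h7 : S.ρ (2 ^ n) * (4 * d) = S.ρ (2 ^ n) * (-b) := by
      field_simp at h5 ⊢
      linear_combination (-1 : F) * h5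
    have h8 := mul_left_cancel₀ hne h7
    have h4ne : (4 : F) ≠ 0 := by
      have : (4 : F) = 2 * 2 := by norm_num
      rw [this]; exact mul_ne_zero hF2 hF2
    field_simp
    linear_combination h8
  rw [h6]

end ext

end Pool.Agent.PellSC
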