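import Pool.Agent.PellSC.AsmD

/-!
# Value of `S₁` mod p²
-/

set_option autoImplicit false
set_option linter.unusedSectionVars false
set_option linter.unusedVariables false

namespace Pool.Agent.PellSC

open Finset Polynomial

section ext
variable {p n : ℕ} {A F : Type*} [CommRing A] [Field F] (S : SqExt p A F)
variable [hpr : Fact p.Prime] [CharP F p]

/-- the sum `S₁` -/
def S1A (A : Type*) [CommRing A] (p : ℕ) (h r : A) : A := FsD A p h (-2 * (1 + r)) + FsD A p h (-2 * (1 - r))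

include S

/-- the value of one half of the sum `S₁` -/
lemma FsD_value (hp : p = 2 * n + 1) (hn : 0 < n) (hs : ((-2 : F)) ^ n = 1) {h : A} (hh : 2 * h = 1)
    {u l : A} (hu : u ^ 2 = h) (hl : l * (1 + u) = 2 * u) (hH : Hv F n (S.ρ h) (S.ρ h) ≠ 0) :
    (1 + u) ^ n * FsD A p h l = 2 * (1 + u) * Hd A n h h - (n : A) * u * Hv A n h h
      + u * (1 + u) * S.w (Hv F n (S.ρ h) (S.ρ h) - (S.ρ h) ^ n * (Hv F n (S.ρ h) (S.ρ h))⁻¹)
      - (n : A) * u * (h ^ 2 * Hv A n h h * ((1 + u) ^ p - (1 - u) ^ p - 2 * u ^ p)) := by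
  have h1 := leg1D S hp hh hl
  have hr : 2 * S.ρ h = 1 := by
    have := congrArg S.ρ hh
    rwa [map_mul, map_one, map_ofNat] at this
  have hsym := HP_symm S hp hr ⟨h, hh, rfl⟩ (two_pow_eq S hp hs)
  have hx : (S.ρ u) ^ 2 = S.ρ h := by rw [← map_pow, hu]
  have h2 := Xc_eq (p := p) hp hn hr hsym hx
  have h2' := XcP_der_half (p := p) hp hn hr hsym hx
  rw [hu] at h1
  rw [h1]
  have h3 : S.ρ (Hv A n h h) = Hv F n (S.ρ h) (S.ρ h) := by
    unfold Hv hc; simp
  set HF := Hv F n (S.ρ h) (S.ρ h) with hHF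
  have h5 : eval (S.ρ u) (derivative (XcP F n (S.ρ h))) = HF - (S.ρ h) ^ n * HF⁻¹ := by
    have : HF * HF⁻¹ = 1 := mul_inv_cancel₀ hH
    linear_combination HF⁻¹ * h2' + (HF - eval (S.ρ u) (derivative (XcP F n (S.ρ h)))) * this
  rw [h5]
  have h4 : 4 * S.w (Xc F n (S.ρ h) (S.ρ u)) = Hv A n h h * (2 * S.w (eval (S.ρ u) (ellP F n))) := by
    have e1 : 4 * S.w (Xc F n (S.ρ h) (S.ρ u)) = S.w (4 * Xc F n (S.ρ h) (S.ρ u)) := by
      rw [S.mul_w, map_ofNat]
    have e2 : (2 : A) * S.w (eval (S.ρ u) (ellP F n)) = S.w (2 * eval (S.ρ u) (ellP F n)) := by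
      rw [S.mul_w, map_ofNat]
    rw [e1, e2, h2, S.mul_w, h3]
    congr 1; ring
  have e6 : S.w (S.ρ u * (1 + S.ρ u) * (HF - (S.ρ h) ^ n * HF⁻¹) - (n : F) * S.ρ u * Xc F n (S.ρ h) (S.ρ u))
      = u * (1 + u) * S.w (HF - (S.ρ h) ^ n * HF⁻¹) - (n : A) * u * S.w (Xc F n (S.ρ h) (S.ρ u)) := by
    rw [S.mul_w, S.mul_w, ← S.w_sub]
    congr 1
    simp only [map_mul, map_add, map_one, map_natCast]
  rw [e6, ← ell_w S hp u]
  linear_combination (-(n : A) * u * h ^ 2) * h4 + ((n : A) * u * (S.w (Xc F n (S.ρ h) (S.ρ u))) * (2 * h + 1)) * hh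

theorem S1_value (hp : p = 2 * n + 1) (hn : 0 < n) {M : ℕ} (hM : n = 4 * M ∨ n = 4 * M + 1) {h : A} (hh : 2 * h = 1)
    {z : F} (hz : z ^ 4 = -1) {r : A} (hr : r ^ 2 = 2) (hrz : S.ρ r = z - z ^ 3) (hCM : (n.choose M : F) ≠ 0) :
    (n = 4 * M → S1A A p h r = 0) ∧
    (n = 4 * M + 1 → 2 * S1A A p h r = S0A A p h r - S.w (10 * (-1) ^ M * (n.choose M : F)⁻¹)) := by
  have hs := neg_two_pow (p := p) hp hM hz
  have hF2 : (2 : F) ≠ 0 := two_ne (p := p) hp
  obtain ⟨v1, v2⟩ := H_value S hp hM hh hs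
  have v1' : Hv F n (S.ρ h) (S.ρ h) = (n.choose M : F) := by
    rw [← v1]; unfold Hv hc; simp
  have hHne : Hv F n (S.ρ h) (S.ρ h) ≠ 0 := by rw [v1']; exact hCM
  have hhF : 2 * S.ρ h = 1 := by
    have := congrArg S.ρ hh
    rwa [map_mul, map_one, map_ofNat] at this
  have hsym := HP_symm S hp hhF ⟨h, hh, rfl⟩ (two_pow_eq S hp hs)
  have vE := Hd_half S hp hn hh hs
  have vB := derB_half (p := p) hp hn hhF hsym
  rw [v1'] at vB
  set HF := (n.choose M : F) with hHF
  have hHi : HF * HF⁻¹ = 1 := mul_inv_cancel₀ hCM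
  have h4ne : (4 : F) ≠ 0 := by
    have : (4 : F) = 2 * 2 := by norm_num
    rw [this]; exact mul_ne_zero hF2 hF2
  have vb : -(S.ρ h * eval (S.ρ h) (derivative (BP F n (S.ρ h)))) / 4 = -(HF - HF⁻¹) / 4 := by
    congr 2
    linear_combination (S.ρ h * HF⁻¹) * vB + (-S.ρ h * eval (S.ρ h) (derivative (BP F n (S.ρ h))) + 2 * HF * S.ρ h) * hHi + (HF - HF⁻¹) * hhF
  rw [vb] at vE
  set H := Hv A n h h with hH
  set E := Hd A n h h with hE
  set u := r * h with hu'
  have hu : u ^ 2 = h := by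
    rw [hu', mul_pow, hr]; linear_combination h * hh
  have f1 := FsD_value S hp hn hs hh (u := u) (l := -2 * (1 - r)) hu (by
    rw [hu']; linear_combination (-2 * r + r ^ 2) * hh + hr) hHne
  have f2 := FsD_value S hp hn hs hh (u := -u) (l := -2 * (1 + r)) (by rw [neg_sq, hu]) (by
    rw [hu']; linear_combination (2 * r + r ^ 2) * hh + hr) hHne
  have g1 := Fs_value S hp hn hs hh (u := u) (l := -2 * (1 - r)) hu (by
    rw [hu']; linear_combination (-2 * r + r ^ 2) * hh + hr)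
  have g2 := Fs_value S hp hn hs hh (u := -u) (l := -2 * (1 + r)) (by rw [neg_sq, hu]) (by
    rw [hu']; linear_combination (2 * r + r ^ 2) * hh + hr)
  rw [← hH, v1', ← hE] at f1 f2
  rw [← hH] at g1 g2
  have hodd : Odd p := ⟨n, hp⟩
  rw [sub_neg_eq_add, hodd.neg_pow, ← sub_eq_add_neg] at f2 g2
  set a := (1 + u) ^ n with ha
  set b := (1 - u) ^ n with hb
  set T := (1 + u) ^ p - (1 - u) ^ p - 2 * u ^ p with hT
  set W1 := S.w (HF - (S.ρ h) ^ n * HF⁻¹) with hW1
  have hab : a * b = h ^ n := by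
    rw [ha, hb, ← mul_pow]; congr 1
    linear_combination (-1 : A) * hu - hh
  have t1 : (1 + u) ^ p = (1 + u) * a ^ 2 := by rw [hp, ha, ← pow_mul]; ring
  have t2 : (1 - u) ^ p = (1 - u) * b ^ 2 := by rw [hp, hb, ← pow_mul]; ring
  have t3 : u ^ p = u * (a * b) := by
    have : u ^ p = u * (u ^ 2) ^ n := by rw [hp, ← pow_mul]; ring
    rw [this, hu, hab]
  have hTd : T = (a - b) * ((a + b) + u * (a - b)) := by rw [hT, t1, t2, t3]; ring
  have hTw := ell_w S hp u
  rw [← hT] at hTw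
  have hρT : S.ρ T = 0 := by rw [← hTw, map_mul, S.rho_w, mul_zero]
  have hTneg : (1 - u) ^ p - (1 + u) ^ p - 2 * -u ^ p = -T := by rw [hT]; ring
  rw [hTneg] at f2 g2
  have hsum0 : h ^ n * S0A A p h r = H * ((a + b) - (a - b) * (h ^ 2 * T)) := by
    unfold S0A
    rw [← hab]
    linear_combination b * g1 + a * g2
  have hsum1 : h ^ n * S1A A p h r = 2 * E * ((a + b) - u * (a - b)) + (n : A) * u * H * (a - b) + u * W1 * (u * (a + b) - (a - b))
      - (n : A) * u * h ^ 2 * H * T * (a + b) := by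
    unfold S1A
    rw [← hab]
    linear_combination b * f1 + a * f2
  -- facts in F
  have hrF : S.ρ u = (z - z ^ 3) * S.ρ h := by rw [hu', map_mul, hrz]
  have hnz : (-z) ^ 4 = -1 := by rw [← hz]; ring
  have h5 : (-1 : F) ^ n * (-1) ^ n = 1 := by rw [← mul_pow]; simp
  have h2n : (2 : F) ^ n = (-1) ^ n := by
    have e1 : ((-2 : F)) ^ n = (-1) ^ n * 2 ^ n := by rw [← mul_pow]; norm_num
    rw [e1] at hs
    linear_combination ((-1) ^ n) * hs - (2 ^ n) * h5
  have hhn : (S.ρ h) ^ n = (-1) ^ n := by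
    have e1 : (2 : F) ^ n * (S.ρ h) ^ n = 1 := by rw [← mul_pow, hhF, one_pow]
    rw [h2n] at e1
    linear_combination ((-1) ^ n) * e1 - ((S.ρ h) ^ n) * h5
  have ra : S.ρ a = (-1) ^ n * (2 + (z - z ^ 3)) ^ n := by
    rw [ha, map_pow, map_add, map_one, hrF, ← hhn, ← mul_pow]
    congr 1
    linear_combination (-1 : F) * hhF
  have rb : S.ρ b = (-1) ^ n * (2 + ((-z) - (-z) ^ 3)) ^ n := by
    rw [hb, map_pow, map_sub, map_one, hrF, ← hhn, ← mul_pow]
    congr 1
    linear_combination (-1 : F) * hhF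
  have hh2 : (2 : A) ^ n * h ^ n = 1 := by rw [← mul_pow, hh, one_pow]
  have hun : S.ρ (h ^ n) ≠ 0 := by
    intro h0
    have := congrArg S.ρ hh2
    rw [map_mul, h0, mul_zero, map_one] at this
    exact zero_ne_one this
  constructor
  · intro hM1
    have c1 := case1 (p := p) hp hM1 hz
    have c2 := case1 (p := p) hp hM1 hnz
    have hev : (-1 : F) ^ n = 1 := by rw [hM1, pow_mul]; norm_num
    rw [c1, hev, one_mul] at ra
    rw [c2, hev, one_mul] at rb
    have hd : S.ρ (a - b) = 0 := by rw [map_sub, ra, rb, sub_self]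
    obtain ⟨x, hx⟩ := S.exists_w hd
    have hE1 : W1 = -4 * E := by
      rw [hW1, vE, hhn, hev, one_mul, S.mul_w]
      congr 1
      rw [map_neg, map_ofNat]
      field_simp
    have e1 : E * (a - b) = 0 := by rw [hx, vE]; exact S.w_mul_w _ _
    have e2 : (a - b) * (a - b) = 0 := by rw [hx]; exact S.w_mul_w x x
    have e3 : (a - b) * (a + b) ^ 2 = 4 * (a - b) := by
      rw [hx, mul_comm, S.mul_w, S.mul_w]
      congr 1
      rw [map_pow, map_add, ra, rb, map_ofNat]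
      have : ((-1 : F) ^ M) ^ 2 = 1 := by rw [← pow_mul, mul_comm, pow_mul]; simp
      linear_combination (4 * x) * this
    apply S.cancel hun
    rw [mul_zero, hsum1, hTd, hE1]
    linear_combination (-2 * u + 4 * u) * e1 + (-(n : A) * u ^ 2 * h ^ 2 * H * (a + b)) * e2 - ((n : A) * u * h ^ 2 * H) * e3 - (4 * E * (a + b)) * hu - (2 * E * (a + b) + (n : A) * u * H * (a - b) * (2 * h + 1)) * hh
  · intro hM3
    have c1 := case3 (p := p) hp hM3 hz
    have c2 := case3 (p := p) hp hM3 hnz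
    have hev : (-1 : F) ^ n = -1 := by rw [hM3, pow_succ, pow_mul]; norm_num
    rw [c1, hev] at ra
    rw [c2, hev] at rb
    have m2 : (-1 : F) ^ M * (-1) ^ M = 1 := by rw [← mul_pow]; simp
    have hr2 : (z - z ^ 3) ^ 2 = 2 := by linear_combination (z ^ 2 - 2) * hz
    have hd : S.ρ (a - b) = -(2 * (-1) ^ M * (z - z ^ 3)) := by
      rw [map_sub, ra, rb]; ring
    have hσ : S.ρ (a + b) = 2 * (-1) ^ M := by rw [map_add, ra, rb]; ring
    have hd2 : S.ρ ((a - b) ^ 2) = S.ρ 8 := by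
      rw [map_pow, hd, map_ofNat]
      linear_combination (4 * (z - z ^ 3) ^ 2) * m2 + 4 * hr2
    obtain ⟨x, hx⟩ := S.exists_add_w hd2
    have hd0 : S.ρ (a - b) ≠ 0 := by
      intro h0
      rw [map_pow, h0, map_ofNat] at hd2
      have e : (8 : F) = 2 * 2 * 2 := by norm_num
      rw [e] at hd2
      have : (2 * 2 * 2 : F) ≠ 0 := mul_ne_zero (mul_ne_zero hF2 hF2) hF2
      apply this
      rw [← hd2]; ring
    have hs0 : S.ρ ((a + b) + u * (a - b)) = 0 := by
      rw [hTd, map_mul] at hρT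
      rcases mul_eq_zero.1 hρT with h0 | h0
      · exact absurd h0 hd0
      · exact h0
    obtain ⟨y, hy⟩ := S.exists_w hs0
    set σ := a + b with hσd
    set δ := a - b with hδd
    set τ := σ + u * δ with hτd
    have e1 : τ * τ = 0 := by rw [hy]; exact S.w_mul_w y y
    have eE : E * τ = 0 := by rw [hy, vE]; exact S.w_mul_w _ _
    have eW : W1 * τ = 0 := by rw [hy, hW1]; exact S.w_mul_w _ _
    have eδ : δ = 2 * u * (τ - σ) := by
      rw [hτd]; linear_combination (-2 * δ) * hu - δ * hh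
    have e2 : δ ^ 2 * τ = 8 * τ := by
      rw [hx, hy]
      have := S.w_mul_w x y
      linear_combination this
    have e3 : σ ^ 2 * τ = 4 * τ := by
      rw [hy, S.mul_w, S.mul_w]
      congr 1
      rw [map_pow, hσ, map_ofNat]
      linear_combination (4 * y) * m2
    have ep : (p : A) * τ = 0 := by
      rw [hy, S.mul_w, map_natCast, S.p_zero, zero_mul, S.w_zero]
    have e4 : 8 * E + 3 * W1 - p * H = S.w (5 * HF⁻¹) := by
      have a1 : (p : A) * H = S.w HF := by rw [← S.w_rho, v1]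
      rw [a1, hW1, vE, hhn, hev, S.mul_w, S.mul_w, ← S.w_add, ← S.w_sub]
      congr 1
      simp only [map_ofNat]
      field_simp
      ring
    have hpn : (p : A) = 2 * n + 1 := by rw [hp]; push_cast; ring
    -- 2 h^n S1 = h^n S0 + σ w(5/H)
    have key : 2 * (h ^ n * S1A A p h r) = h ^ n * S0A A p h r + σ * S.w (5 * HF⁻¹) := by
      rw [hsum0, hsum1, hTd, ← e4]
      have b1 : 2 * E * (σ - u * δ) = 4 * E * σ := by
        linear_combination (-2) * eE + (0 : A) * eδ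
      have b2 : u * W1 * (u * σ - δ) = 3 * h * σ * W1 := by
        rw [eδ]
        linear_combination (-2 * h) * eW + (W1 * (3 * σ - 2 * τ)) * hu
      have b3 : (n : A) * u * H * δ = n * H * (τ - σ) := by
        rw [eδ]
        linear_combination (2 * (n : A) * H * (τ - σ)) * hu + ((n : A) * H * (τ - σ)) * hh
      have b4 : (n : A) * u * h ^ 2 * H * (δ * τ) * σ = -(n * H * τ) := by
        rw [eδ]
        linear_combination (2 * (n : A) * u ^ 2 * h ^ 2 * H * σ) * e1 - (2 * (n : A) * u ^ 2 * h ^ 2 * H) * e3 - (8 * (n : A) * h ^ 2 * H * τ) * hu - ((n : A) * H * τ * (4 * h ^ 2 + 2 * h + 1)) * hh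
      have b5 : δ * (h ^ 2 * (δ * τ)) = 2 * τ := by
        linear_combination (h ^ 2) * e2 + (2 * τ * (2 * h + 1)) * hh
      rw [b1, b2, b3, b4, b5]
      linear_combination (H * σ) * hpn * 1 - 2 * H * τ * hpn + (2 * H) * ep + (3 * σ * W1) * hh
    have hfin : h ^ n * (2 * S1A A p h r) = h ^ n * (S0A A p h r - S.w (10 * (-1) ^ M * HF⁻¹)) := by
      have a1 : σ * S.w (5 * HF⁻¹) = -(h ^ n * S.w (10 * (-1) ^ M * HF⁻¹)) := by
        rw [S.mul_w, S.mul_w, ← S.w_neg]
        congr 1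
        rw [hσ, map_pow, hhn, hev]
        ring
      linear_combination key + a1
    exact S.cancel hun hfin

end ext

end Pool.Agent.PellSC
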