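import Mathlib

/-!
# Square-zero extensions of a field by `p`, for the Pell supercongruence (MP_a989c0_nt)
-/

set_option autoImplicit false

namespace Pool.Agent.PellSC

/-- `A` is a ring with `p² = 0`, flat over `ℤ/p²`, with residue field `A / p = F`. -/
structure SqExt (p : ℕ) (A F : Type*) [CommRing A] [Field F] where
  /-- reduction mod `p` -/
  ρ : A →+* F
  surj : Function.Surjective ρ
  hp2 : (p : A) ^ 2 = 0
  ker : ∀ a, ρ a = 0 → ∃ b, a = p * b
  ann : ∀ a, (p : A) * a = 0 → ρ a = 0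

namespace SqExt

variable {p : ℕ} {A F : Type*} [CommRing A] [Field F] (S : SqExt p A F)

include S in
lemma p_zero : (p : F) = 0 := by
  have h := congrArg S.ρ S.hp2
  rw [map_pow, map_natCast, map_zero] at h
  exact pow_eq_zero_iff (two_ne_zero) |>.1 h

include S in
lemma charP (hp : p.Prime) : CharP F p := by
  have h := S.p_zero
  have : ringChar F ∣ p := (ringChar.spec F p).1 h
  rcases (Nat.dvd_prime hp).1 this with h1 | h1
  · exact absurd h1 (by
      intro h2
      have := CharP.ringChar_ne_one (R := F)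
      exact this h2)
  · rw [← h1]; exact ringChar.charP F

/-- multiplication by `p`, as a map from the residue field -/
noncomputable def w (x : F) : A := p * Function.surjInv S.surj x

lemma w_rho (a : A) : S.w (S.ρ a) = p * a := by
  unfold w
  have h : S.ρ (Function.surjInv S.surj (S.ρ a) - a) = 0 := by
    rw [map_sub, Function.surjInv_eq S.surj]; ring
  obtain ⟨b, hb⟩ := S.ker _ h
  have h2 : Function.surjInv S.surj (S.ρ a) = a + p * b := by rw [← hb]; ring
  rw [h2]
  linear_combination b * S.hp2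

lemma w_of {x : F} {a : A} (h : S.ρ a = x) : S.w x = p * a := by
  rw [← h, w_rho]

lemma w_add (x y : F) : S.w (x + y) = S.w x + S.w y := by
  obtain ⟨a, rfl⟩ := S.surj x
  obtain ⟨b, rfl⟩ := S.surj y
  rw [← map_add, w_rho, w_rho, w_rho]; ring

lemma w_neg (x : F) : S.w (-x) = - S.w x := by
  obtain ⟨a, rfl⟩ := S.surj x
  rw [← map_neg, w_rho, w_rho]; ring

lemma w_sub (x y : F) : S.w (x - y) = S.w x - S.w y := by
  rw [sub_eq_add_neg, w_add, w_neg, sub_eq_add_neg]

@[simp] lemma w_zero : S.w 0 = 0 := by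
  have := S.w_rho 0
  rwa [map_zero, mul_zero] at this

lemma mul_w (a : A) (x : F) : a * S.w x = S.w (S.ρ a * x) := by
  obtain ⟨b, rfl⟩ := S.surj x
  rw [← map_mul, w_rho, w_rho]; ring

lemma w_mul_w (x y : F) : S.w x * S.w y = 0 := by
  obtain ⟨a, rfl⟩ := S.surj x
  obtain ⟨b, rfl⟩ := S.surj y
  rw [w_rho, w_rho]
  linear_combination (a * b) * S.hp2

@[simp] lemma rho_w (x : F) : S.ρ (S.w x) = 0 := by
  obtain ⟨a, rfl⟩ := S.surj x
  rw [w_rho, map_mul, map_natCast, S.p_zero, zero_mul]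

lemma w_inj {x : F} (h : S.w x = 0) : x = 0 := by
  obtain ⟨a, rfl⟩ := S.surj x
  rw [w_rho] at h
  exact S.ann a h

lemma w_eq {x y : F} (h : S.w x = S.w y) : x = y := by
  have : S.w (x - y) = 0 := by rw [w_sub, h, sub_self]
  exact sub_eq_zero.1 (S.w_inj this)

lemma exists_w {a : A} (h : S.ρ a = 0) : ∃ x, a = S.w x := by
  obtain ⟨b, hb⟩ := S.ker a h
  exact ⟨S.ρ b, by rw [w_rho, hb]⟩

lemma exists_add_w {a b : A} (h : S.ρ a = S.ρ b) : ∃ x, a = b + S.w x := by
  obtain ⟨x, hx⟩ := S.exists_w (a := a - b) (by rw [map_sub, h, sub_self])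
  exact ⟨x, by rw [← hx]; ring⟩

lemma w_sum {ι : Type*} (s : Finset ι) (f : ι → F) : S.w (∑ i ∈ s, f i) = ∑ i ∈ s, S.w (f i) := by
  classical
  induction s using Finset.induction_on with
  | empty => simp
  | insert a s ha ih => rw [Finset.sum_insert ha, Finset.sum_insert ha, w_add, ih]

lemma isUnit_of {a : A} (h : S.ρ a ≠ 0) : IsUnit a := by
  obtain ⟨b, hb⟩ := S.surj (S.ρ a)⁻¹
  have h1 : S.ρ (a * b) = S.ρ 1 := by rw [map_mul, hb, mul_inv_cancel₀ h, map_one]
  obtain ⟨x, hx⟩ := S.exists_add_w h1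
  refine IsUnit.of_mul_eq_one (b * (1 - S.w x)) ?_
  have h2 := S.w_mul_w x x
  linear_combination (1 - S.w x) * hx - h2

/-- cancellation of units -/
lemma cancel {a b c : A} (h : S.ρ a ≠ 0) (h2 : a * b = a * c) : b = c :=
  (S.isUnit_of h).mul_left_cancel h2

lemma pow_add_w (a : A) (x : F) (k : ℕ) : (a + S.w x) ^ k = a ^ k + S.w (k * S.ρ a ^ (k - 1) * x) := by
  induction k with
  | zero => simp
  | succ k ih =>
    rw [pow_succ, ih]
    have e1 : a ^ k * S.w x = S.w (S.ρ a ^ k * x) := by rw [mul_w, map_pow]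
    have e2 : S.w (k * S.ρ a ^ (k - 1) * x) * a = S.w (S.ρ a * (k * S.ρ a ^ (k - 1) * x)) := by
      rw [mul_comm, mul_w]
    have e3 := S.w_mul_w (k * S.ρ a ^ (k - 1) * x) x
    have e4 : (((k + 1 : ℕ) : F) * S.ρ a ^ (k + 1 - 1) * x) = S.ρ a * (k * S.ρ a ^ (k - 1) * x) + S.ρ a ^ k * x := by
      rcases Nat.eq_zero_or_pos k with h | h
      · subst h; simp
      · obtain ⟨m, rfl⟩ : ∃ m, k = m + 1 := ⟨k - 1, by omega⟩
        simp only [Nat.add_sub_cancel]
        push_cast
        ring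
    rw [e4, w_add, ← e1, ← e2]
    linear_combination e3

lemma pow_p_eq (a : A) (b : A) (h : S.ρ a = S.ρ b) : a ^ p = b ^ p := by
  obtain ⟨x, hx⟩ := S.exists_add_w h
  rw [hx, pow_add_w, S.p_zero]
  simp

lemma mul_one_add_w (a : A) (x y : F) (b : A) : (a * (1 + S.w x)) * (b * (1 + S.w y)) = (a * b) * (1 + S.w (x + y)) := by
  rw [w_add]
  have := S.w_mul_w x y
  linear_combination (a * b) * this

lemma one_add_w_mul (x y : F) : (1 + S.w x) * (1 + S.w y) = 1 + S.w (x + y) := by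
  have := S.mul_one_add_w 1 x y 1
  simpa using this

end SqExt

end Pool.Agent.PellSC
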