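import Pool.Agent.PellSC.Glue2

/-!
# The value of `S₀` in `ZMod (p^2)`
-/

set_option autoImplicit false
set_option linter.unusedSectionVars false
set_option linter.unusedVariables false

namespace Pool.Agent.PellSC

open Finset

/-- companion Pell numbers `Q₀ = Q₁ = 2`, `Q_{n+2} = 2 Q_{n+1} + Q_n` -/
def pellQ : ℕ → ℤ
  | 0 => 2
  | 1 => 2
  | (n + 2) => 2 * pellQ (n + 1) + pellQ n

lemma pellQ_eq {A : Type*} [CommRing A] (r : A) (hr : r ^ 2 = 2) (n : ℕ) :
    (1 + r) ^ n + (1 - r) ^ n = (pellQ n : A) := by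
  induction n using Nat.twoStepInduction with
  | zero => norm_num [pellQ]
  | one => norm_num [pellQ]
  | more n h0 h1 =>
    rw [pellQ]
    push_cast
    rw [← h0, ← h1]
    linear_combination ((1 + r) ^ n + (1 - r) ^ n) * hr

/-- `S₀` in a ring with `2h = 1` -/
def S0R (A : Type*) [CommRing A] (p : ℕ) (h : A) : A :=
  ∑ k ∈ range p, (pellQ k : A) * (k.centralBinom : A) ^ 2 * (-h ^ 3) ^ k

lemma S0R_eq {A : Type*} [CommRing A] (p : ℕ) {h r : A} (hh : 2 * h = 1) (hr : r ^ 2 = 2) : S0R A p h = S0A A p h r := by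
  unfold S0R S0A Fs cc
  rw [← sum_add_distrib]
  refine sum_congr rfl fun k _ => ?_
  rw [← pellQ_eq r hr k]
  have e1 : (-h ^ 3) ^ k = (h ^ 4) ^ k * (-2) ^ k := by
    rw [← mul_pow]; congr 1
    linear_combination (h ^ 3) * hh
  have e2 : (h ^ (2 * k)) ^ 2 = (h ^ 4) ^ k := by rw [← pow_mul, ← pow_mul]; congr 1; ring
  rw [mul_pow, mul_pow, mul_pow, e1, e2]
  ring

lemma S0R_map {A B : Type*} [CommRing A] [CommRing B] (f : A →+* B) (p : ℕ) (h : A) : f (S0R A p h) = S0R B p (f h) := by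
  unfold S0R
  rw [map_sum]
  refine sum_congr rfl fun k _ => ?_
  simp

lemma har_map {K F : Type*} [Field K] [Field F] (f : K →+* F) (n : ℕ) : f (har K n) = har F n := by
  unfold har
  rw [map_sum]
  refine sum_congr rfl fun k _ => ?_
  rw [map_inv₀, map_natCast]

section Z
variable {p : ℕ} [hpr : Fact p.Prime] {n : ℕ}

lemma exists_z (hp8 : p % 8 = 1 ∨ p % 8 = 3) : ∃ z : GaloisField p 2, z ^ 4 = -1 := by
  classical
  letI : Fintype (GaloisField p 2) := Fintype.ofFinite _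
  have hcard : Fintype.card (GaloisField p 2) = p ^ 2 := by
    rw [← Nat.card_eq_fintype_card]; exact GaloisField.card p 2 two_ne_zero
  obtain ⟨g, hg⟩ := IsCyclic.exists_generator (α := (GaloisField p 2)ˣ)
  have hord : orderOf g = p ^ 2 - 1 := by
    rw [orderOf_eq_card_of_forall_mem_zpowers hg, Nat.card_eq_fintype_card, Fintype.card_units, hcard]
  have h8 : 8 ∣ p ^ 2 - 1 := by
    have : p ^ 2 % 8 = 1 := by
      rcases hp8 with h | h <;> rw [Nat.pow_mod, h]
    have hp2 := hpr.out.two_le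
    have : 1 ≤ p ^ 2 := Nat.one_le_pow _ _ (by omega)
    omega
  obtain ⟨m, hm⟩ := h8
  have hpos : 0 < p ^ 2 - 1 := by
    have hp2 := hpr.out.two_le
    have : 2 ^ 2 ≤ p ^ 2 := Nat.pow_le_pow_left hp2 2
    omega
  have hm0 : 0 < m := by
    rcases Nat.eq_zero_or_pos m with h | h
    · rw [h] at hm; omega
    · exact h
  set z : GaloisField p 2 := ((g ^ m : (GaloisField p 2)ˣ) : GaloisField p 2) with hz
  have h1 : z ^ 8 = 1 := by
    have : (g ^ m) ^ 8 = 1 := by rw [← pow_mul, mul_comm m 8, ← hm, ← hord, pow_orderOf_eq_one]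
    rw [hz, ← Units.val_pow_eq_pow_val, this, Units.val_one]
  have h2 : z ^ 4 ≠ 1 := by
    intro h
    rw [hz, ← Units.val_pow_eq_pow_val, Units.val_eq_one, ← pow_mul] at h
    have h3 := orderOf_dvd_of_pow_eq_one h
    rw [hord] at h3
    have := Nat.le_of_dvd (by omega) h3
    omega
  refine ⟨z, ?_⟩
  have h3 : (z ^ 4 - 1) * (z ^ 4 + 1) = 0 := by linear_combination h1
  rcases mul_eq_zero.1 h3 with h4 | h4
  · exact absurd (by linear_combination h4) h2
  · linear_combination h4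

lemma Hh_eq (hp : p = 2 * n + 1) {h : ZMod (p ^ 2)} (hh : 2 * h = 1) :
    (Zext p).ρ (Hv (ZMod (p ^ 2)) n h h) = Pell.Hh p n := by
  have h2 : (2 : ZMod p) ≠ 0 := two_ne (p := p) hp
  have hhF : 2 * (Zext p).ρ h = 1 := by
    have := congrArg (Zext p).ρ hh
    rwa [map_mul, map_one, map_ofNat] at this
  unfold Hv Pell.Hh
  rw [map_sum]
  have e1 : ∀ j, (Zext p).ρ (hc (ZMod (p ^ 2)) n h j * h ^ j) = (n.choose (2 * j) : ZMod p) * ((2 * j).choose j : ZMod p) * ((8 : ZMod p) ^ j)⁻¹ := by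
    intro j
    unfold hc
    simp only [map_mul, map_natCast, map_pow]
    have e2 : ((8 : ZMod p) ^ j)⁻¹ = ((Zext p).ρ h) ^ (2 * j) * ((Zext p).ρ h) ^ j := by
      apply inv_eq_of_mul_eq_one_right
      rw [pow_mul, ← mul_pow, ← mul_pow]
      have : (8 : ZMod p) * ((Zext p).ρ h ^ 2 * (Zext p).ρ h) = 1 := by
        linear_combination (4 * ((Zext p).ρ h) ^ 2 + 2 * (Zext p).ρ h + 1) * hhF
      rw [this, one_pow]
    rw [e2, Nat.centralBinom]
    ring
  rw [sum_congr rfl (fun j _ => e1 j)]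
  symm
  apply sum_subset
  · intro j hj
    rw [mem_range] at *
    omega
  · intro j _ hj
    rw [mem_range, not_lt] at hj
    rw [Nat.choose_eq_zero_of_lt (by omega)]
    simp

/-- **Value of `S₀` mod p²**, given a field `F` with a primitive eighth root of unity -/
theorem S0_main_aux (F : Type) [Field F] [Fintype F] [DecidableEq F] [CharP F p] (f : ZMod p →+* F) {z : F} (hz : z ^ 4 = -1)
    (hp8 : p % 8 = 1 ∨ p % 8 = 3) (hp3 : p ≠ 3) {h : ZMod (p ^ 2)} (hh : 2 * h = 1) (x y : ℤ)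
    (hxy : x ^ 2 + 2 * y ^ 2 = p) (hx : x % 4 = 1) :
    (x : ZMod (p ^ 2)) * S0R (ZMod (p ^ 2)) p h = 4 * (x : ZMod (p ^ 2)) ^ 2 - (p : ZMod (p ^ 2)) := by
  obtain ⟨M, n, hp, hM, hpM⟩ : ∃ M n, p = 2 * n + 1 ∧ (n = 4 * M ∨ n = 4 * M + 1) ∧ (p = 8 * M + 1 ∨ p = 8 * M + 3) := by
    rcases hp8 with h | h
    · exact ⟨p / 8, 4 * (p / 8), by omega, Or.inl rfl, Or.inl (by omega)⟩
    · exact ⟨p / 8, 4 * (p / 8) + 1, by omega, Or.inr rfl, Or.inr (by omega)⟩
  have hpp := hpr.out.two_le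
  have hn : 0 < n := by omega
  have hZ2 : (2 : ZMod p) ≠ 0 := two_ne (p := p) hp
  let A := Pell.W2 p F
  let S : SqExt p A F := Wext p F
  have hF2 : (2 : F) ≠ 0 := two_ne (p := p) hp
  have hsF := neg_two_pow (p := p) hp hM hz
  -- the maps
  have hfi : Function.Injective f := f.injective
  haveI : CharP A (p ^ 2) := charA S hpr.out
  let ι : ZMod (p ^ 2) →+* A := ZMod.castHom (dvd_refl _) A
  have hιi : Function.Injective ι := ZMod.castHom_injective A
  have hs : ((-2 : ZMod p)) ^ n = 1 := by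
    apply hfi
    rw [map_pow, map_neg, map_ofNat, map_one]; exact hsF
  -- square root of 2
  obtain ⟨r, hr, hrz⟩ := exists_sqrt S hF2 (s := z - z ^ 3) (a := (2 : A)) (by
    rw [map_ofNat]; linear_combination (z ^ 2 - 2) * hz) (by
    intro h0
    have : (z - z ^ 3) ^ 2 = 2 := by linear_combination (z ^ 2 - 2) * hz
    rw [h0] at this
    apply hF2
    rw [← this]; ring)
  have hhA : 2 * ι h = 1 := by
    have := congrArg ι hh
    rwa [map_mul, map_one, map_ofNat] at this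
  obtain ⟨v1, v2⟩ := S0_value S hp hn hM hhA hz hr hrz
  rw [← S0R_eq p hhA hr, ← S0R_map] at v1 v2
  set s := S0R (ZMod (p ^ 2)) p h with hsdef
  -- the square of s
  have hkey := key_value hp hM hp3 hs x y hxy
  set c : ZMod p := 2 * har (ZMod p) n - har (ZMod p) M / 2 with hc
  have hc1 : (2 * har F n - har F M / 2) = ((c.val : ℕ) : F) := by
    have : f c = ((c.val : ℕ) : F) := by
      rw [← map_natCast f, ZMod.natCast_zmod_val]
    rw [← this, hc, map_sub, map_mul, map_div₀, map_ofNat, har_map, har_map]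
  have hw1 : S.w (2 * har F n - har F M / 2) = (p : A) * ((c.val : ℕ) : A) := by
    rw [hc1]; exact S.w_of (map_natCast _ _)
  have hw2 : (Zext p).w c = (p : ZMod (p ^ 2)) * ((c.val : ℕ) : ZMod (p ^ 2)) := by
    apply (Zext p).w_of
    rw [map_natCast, ZMod.natCast_zmod_val]
  have hsq : s ^ 2 = 16 * (x : ZMod (p ^ 2)) ^ 2 - 8 * (p : ZMod (p ^ 2)) := by
    apply hιi
    rw [map_pow, v2, hw1]
    rw [hw2] at hkey
    have := congrArg ι hkey
    simp only [map_mul, map_pow, map_natCast, map_add, map_one, map_sub, map_ofNat, map_intCast] at this ⊢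
    linear_combination 4 * this
  -- mod p
  have hcM2 : (n.choose M : ZMod p) ^ 2 = 4 * (x : ZMod p) ^ 2 := by
    have := congrArg (Zext p).ρ hkey
    simp only [map_mul, map_pow, map_natCast, map_add, map_one, map_sub, map_ofNat, map_intCast, (Zext p).rho_w] at this
    rw [CharP.cast_eq_zero (ZMod p) p] at this
    linear_combination this
  obtain ⟨w1, _⟩ := H_value (Zext p) hp hM hh hs
  rw [Hh_eq hp hh] at w1
  have hsign := (Pell.sign_main M n hpM hp x y hxy hx (by rw [w1]; exact hcM2)).1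
  rw [w1] at hsign
  have hT : ((Pell.Tseq n : ℤ) : F) = 2 * (-1) ^ (M + n) := by
    have hz2 : (z - z ^ 3) ^ 2 = 2 := by linear_combination (z ^ 2 - 2) * hz
    have hnz : (-z) ^ 4 = -1 := by rw [← hz]; ring
    rw [← Pell.Tseq_eq (z - z ^ 3) hz2 n]
    have e0 : (2 - (z - z ^ 3)) = (2 + ((-z) - (-z) ^ 3)) := by ring
    rw [e0]
    rcases hM with hM | hM
    · rw [case1 (p := p) hp hM hz, case1 (p := p) hp hM hnz, pow_add]
      have hev : (-1 : F) ^ n = 1 := by rw [hM, pow_mul]; norm_num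
      rw [hev]; ring
    · rw [case3 (p := p) hp hM hz, case3 (p := p) hp hM hnz, pow_add]
      have hev : (-1 : F) ^ n = -1 := by rw [hM, pow_succ, pow_mul]; norm_num
      rw [hev]; ring
  have hred : (Zext p).ρ s = 4 * (x : ZMod p) := by
    apply hfi
    have e1 : f ((Zext p).ρ s) = S.ρ (ι s) := by
      obtain ⟨m, hm⟩ : ∃ m : ℕ, (m : ZMod (p ^ 2)) = s := ⟨s.val, ZMod.natCast_zmod_val s⟩
      rw [← hm]; simp
    rw [e1, v1, ← hsign, map_mul, map_natCast, map_intCast, hT]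
    ring
  -- x nonzero mod p
  have hx0 : (x : ZMod p) ≠ 0 := by
    intro h0
    rw [ZMod.intCast_zmod_eq_zero_iff_dvd] at h0
    have hle : x ^ 2 ≤ p := by nlinarith [sq_nonneg y]
    have hxne : x ≠ 0 := by rintro rfl; omega
    have h3 : (p : ℤ) ≤ |x| := Int.le_of_dvd (abs_pos.mpr hxne) ((dvd_abs _ _).mpr h0)
    have h4 : |x| ^ 2 = x ^ 2 := sq_abs x
    have h5 : (2 : ℤ) ≤ p := by exact_mod_cast hpp
    nlinarith
  have hpA : (p : ZMod (p ^ 2)) * p = 0 := Pell.p_mul_p (p := p)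
  have hprod : ((x : ZMod (p ^ 2)) * s + (4 * (x : ZMod (p ^ 2)) ^ 2 - (p : ZMod (p ^ 2)))) * ((x : ZMod (p ^ 2)) * s)
      = ((x : ZMod (p ^ 2)) * s + (4 * (x : ZMod (p ^ 2)) ^ 2 - (p : ZMod (p ^ 2)))) * (4 * (x : ZMod (p ^ 2)) ^ 2 - (p : ZMod (p ^ 2))) := by
    linear_combination ((x : ZMod (p ^ 2)) ^ 2) * hsq - hpA
  refine (Zext p).cancel ?_ hprod
  have h8 : (8 : ZMod p) ≠ 0 := by
    have : (8 : ZMod p) = 2 * 2 * 2 := by norm_num
    rw [this]; exact mul_ne_zero (mul_ne_zero hZ2 hZ2) hZ2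
  simp only [map_mul, map_pow, map_natCast, map_add, map_sub, map_ofNat, map_intCast, hred]
  rw [CharP.cast_eq_zero (ZMod p) p]
  have : (x : ZMod p) * (4 * x) + (4 * x ^ 2 - 0) = 8 * x ^ 2 := by ring
  rw [this]
  exact mul_ne_zero h8 (pow_ne_zero 2 hx0)

theorem S0_main (hp8 : p % 8 = 1 ∨ p % 8 = 3) (hp3 : p ≠ 3) {h : ZMod (p ^ 2)} (hh : 2 * h = 1) (x y : ℤ)
    (hxy : x ^ 2 + 2 * y ^ 2 = p) (hx : x % 4 = 1) :
    (x : ZMod (p ^ 2)) * S0R (ZMod (p ^ 2)) p h = 4 * (x : ZMod (p ^ 2)) ^ 2 - (p : ZMod (p ^ 2)) := by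
  classical
  let _ : Fintype (GaloisField p 2) := Fintype.ofFinite _
  obtain ⟨z, hz⟩ := exists_z (p := p) hp8
  exact S0_main_aux (GaloisField p 2) (algebraMap (ZMod p) (GaloisField p 2)) hz hp8 hp3 hh x y hxy hx

end Z

end Pool.Agent.PellSC
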