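import Pool.Agent.PellSC.Statement
import Pool.Agent.PellSC.Glue3

/-!
# From `ZMod (p^2)` to rational numbers; Q1
-/

set_option autoImplicit false
set_option linter.unusedSectionVars false
set_option linter.unusedVariables false

namespace Pool.Agent.PellSC

open Finset
open Pool.Agent.PellSC.Stmt (Q S0 CongrSq)

lemma Q_eq_pellQ (n : ℕ) : Q n = pellQ n := by
  induction n using Nat.twoStepInduction with
  | zero => rfl
  | one => rfl
  | more n h0 h1 => rw [Q, pellQ, h0, h1]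

lemma congrSq_of {p : ℕ} [hpr : Fact p.Prime] {a b : ℚ} (N D : ℤ) (hD : ¬ (p : ℤ) ∣ D) (hN : ((N : ℤ) : ZMod (p ^ 2)) = 0)
    (h : (D : ℚ) * (a - b) = N) : CongrSq p a b := by
  rw [ZMod.intCast_zmod_eq_zero_iff_dvd] at hN
  push_cast at hN
  by_cases hab : a = b
  · exact Or.inl hab
  · right
    have hD0 : D ≠ 0 := by rintro rfl; exact hD (dvd_zero _)
    have hDq : (D : ℚ) ≠ 0 := by exact_mod_cast hD0
    have hsub : a - b ≠ 0 := sub_ne_zero.mpr hab
    have hN0 : N ≠ 0 := by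
      rintro rfl
      rw [Int.cast_zero] at h
      rcases mul_eq_zero.1 h with h1 | h1
      · exact hDq h1
      · exact hsub h1
    have h1 : padicValRat p ((D : ℚ) * (a - b)) = padicValRat p (D : ℚ) + padicValRat p (a - b) :=
      padicValRat.mul hDq hsub
    rw [h, padicValRat.of_int, padicValRat.of_int, padicValInt.eq_zero_of_not_dvd hD] at h1
    have h2 := (padicValInt_dvd_iff (p := p) 2 N).1 hN
    rcases h2 with h2 | h2
    · exact absurd h2 hN0
    · have : (2 : ℤ) ≤ (padicValInt p N : ℤ) := by exact_mod_cast h2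
      omega

/-- integer numerator of `S_0` -/
def N0 (p : ℕ) : ℤ := ∑ k ∈ range p, (-1) ^ k * pellQ k * (k.centralBinom : ℤ) ^ 2 * 8 ^ (p - 1 - k)

lemma S0_mul (p : ℕ) : (8 : ℚ) ^ (p - 1) * S0 p = (N0 p : ℚ) := by
  unfold S0 N0
  rw [mul_sum, Int.cast_sum]
  refine sum_congr rfl fun k hk => ?_
  rw [mem_range] at hk
  have e1 : (8 : ℚ) ^ (p - 1) = 8 ^ (p - 1 - k) * 8 ^ k := by rw [← pow_add]; congr 1; omega
  have e2 : ((-8 : ℚ)) ^ k = (-1) ^ k * 8 ^ k := by rw [← mul_pow]; norm_num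
  have h8 : (8 : ℚ) ^ k ≠ 0 := by positivity
  have h1 : ((-1 : ℚ)) ^ k ≠ 0 := pow_ne_zero _ (by norm_num)
  have h11 : ((-1 : ℚ)) ^ k * (-1) ^ k = 1 := by rw [← mul_pow]; simp
  rw [Q_eq_pellQ, e1, e2, Nat.centralBinom]
  push_cast
  field_simp
  linear_combination (-((pellQ k : ℚ) * (((2 * k).choose k : ℚ)) ^ 2)) * h11

lemma S0R_mul {A : Type*} [CommRing A] (p : ℕ) {h : A} (hh : 2 * h = 1) : (8 : A) ^ (p - 1) * S0R A p h = ((N0 p : ℤ) : A) := by
  unfold S0R N0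
  rw [mul_sum, Int.cast_sum]
  refine sum_congr rfl fun k hk => ?_
  rw [mem_range] at hk
  have e1 : (8 : A) ^ (p - 1) = 8 ^ (p - 1 - k) * 8 ^ k := by rw [← pow_add]; congr 1; omega
  have e2 : (8 : A) ^ k * (-h ^ 3) ^ k = (-1) ^ k := by
    rw [← mul_pow]; congr 1
    linear_combination (-(4 * h ^ 2 + 2 * h + 1)) * hh
  push_cast
  rw [e1]
  linear_combination (8 ^ (p - 1 - k) * (pellQ k : A) * (k.centralBinom : A) ^ 2) * e2

lemma exists_half (p : ℕ) (hodd : Odd p) : ∃ h : ZMod (p ^ 2), 2 * h = 1 := by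
  obtain ⟨n, hn⟩ := hodd
  have h1 : Odd (p ^ 2) := by
    have : Odd p := ⟨n, hn⟩
    exact this.pow
  obtain ⟨m, hm⟩ := h1
  refine ⟨-(m : ZMod (p ^ 2)), ?_⟩
  have : ((p ^ 2 : ℕ) : ZMod (p ^ 2)) = 0 := ZMod.natCast_self _
  have e := congrArg (Nat.cast : ℕ → ZMod (p ^ 2)) hm
  rw [this, Nat.cast_add, Nat.cast_mul, Nat.cast_one, Nat.cast_ofNat] at e
  linear_combination e

theorem Q1 (p : ℕ) (hp : p.Prime) (h8 : p % 8 = 1 ∨ p % 8 = 3) (x y : ℤ) (hxy : (p : ℤ) = x ^ 2 + 2 * y ^ 2)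
    (hx : x % 8 = 1 ∨ x % 8 = 3) :
    CongrSq p (S0 p) ((-1) ^ ((x - 1) / 2) * (4 * x - p / x)) := by
  haveI : Fact p.Prime := ⟨hp⟩
  have hodd : Odd p := Nat.odd_iff.mpr (by omega)
  have hpp := hp.two_le
  -- the sign
  obtain ⟨X, hX4, hX2, hXr⟩ : ∃ X : ℤ, X % 4 = 1 ∧ X ^ 2 = x ^ 2 ∧
      ((-1 : ℚ) ^ ((x - 1) / 2) * (4 * x - p / x)) = 4 * X - p / X := by
    rcases hx with h | h
    · refine ⟨x, by omega, rfl, ?_⟩
      have : Even ((x - 1) / 2) := by rw [Int.even_iff]; omega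
      rw [this.neg_one_zpow, one_mul]
    · refine ⟨-x, by omega, by ring, ?_⟩
      have : Odd ((x - 1) / 2) := by rw [Int.odd_iff]; omega
      rw [this.neg_one_zpow]
      push_cast
      rw [div_neg]
      ring
  rw [hXr]
  have hXy : X ^ 2 + 2 * y ^ 2 = p := by rw [hX2]; exact hxy.symm
  have hXne : X ≠ 0 := by rintro rfl; omega
  have hXq : (X : ℚ) ≠ 0 := by exact_mod_cast hXne
  have hXp : ¬ (p : ℤ) ∣ X := by
    intro h0
    have hle : X ^ 2 ≤ p := by nlinarith [sq_nonneg y]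
    have h3 : (p : ℤ) ≤ |X| := Int.le_of_dvd (abs_pos.mpr hXne) ((dvd_abs _ _).mpr h0)
    have h4 : |X| ^ 2 = X ^ 2 := sq_abs X
    have h5 : (2 : ℤ) ≤ p := by exact_mod_cast hpp
    nlinarith
  have hpI : Prime (p : ℤ) := Nat.prime_iff_prime_int.mp hp
  have h8p : ¬ (p : ℤ) ∣ 8 := by
    intro h0
    have h1 : p ∣ 8 := by exact_mod_cast h0
    have h2 : p ∣ 2 := by
      have : (8 : ℕ) = 2 ^ 3 := by norm_num
      rw [this] at h1
      exact hp.dvd_of_dvd_pow h1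
    have h3 := Nat.le_of_dvd (by norm_num) h2
    omega
  have hD : ¬ (p : ℤ) ∣ 8 ^ (p - 1) * X := by
    intro h0
    rcases hpI.dvd_or_dvd h0 with h1 | h1
    · exact h8p (hpI.dvd_of_dvd_pow h1)
    · exact hXp h1
  apply congrSq_of (X * N0 p - 8 ^ (p - 1) * (4 * X ^ 2 - p)) (8 ^ (p - 1) * X) hD
  · by_cases hp3 : p = 3
    · subst hp3
      have hX1 : X = 1 := by
        have hXy' : X ^ 2 + 2 * y ^ 2 = 3 := by exact_mod_cast hXy
        have h1 : X ^ 2 ≤ 3 := by nlinarith [sq_nonneg y]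
        have h2 : X ≤ 1 := by nlinarith
        have h3 : -1 ≤ X := by nlinarith
        omega
      rw [hX1]
      have hN : N0 3 = 280 := by decide
      rw [hN]
      decide
    · obtain ⟨h, hh⟩ := exists_half p hodd
      have hm := S0_main h8 hp3 hh X y hXy hX4
      have h1 := S0R_mul p hh
      push_cast
      rw [← h1]
      linear_combination (8 ^ (p - 1)) * hm
  · push_cast
    rw [← S0_mul]
    field_simp

end Pool.Agent.PellSC
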