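import Pool.Agent.PellSC.Glue4

/-!
# Q2
-/

set_option autoImplicit false
set_option linter.unusedSectionVars false
set_option linter.unusedVariables false

namespace Pool.Agent.PellSC

open Finset

lemma sign_exp {p : ℕ} (h8 : p % 8 = 3) (x y : ℤ) (hxy : (p : ℤ) = x ^ 2 + 2 * y ^ 2) (hx : x % 8 = 1 ∨ x % 8 = 3) :
    (x % 8 = 1 → Even ((p - 3) / 8)) ∧ (x % 8 = 3 → Odd ((p - 3) / 8)) := by
  have hy : y % 2 = 1 := by
    by_contra h
    have h0 : y % 2 = 0 := by omega
    obtain ⟨b, hb⟩ : ∃ b, y = 2 * b := ⟨y / 2, by omega⟩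
    have hx2 : ∃ c, x ^ 2 = 8 * c + 1 := by
      rcases hx with h1 | h1
      · exact ⟨(x / 8) * (8 * (x / 8) + 2), by
          have : x = 8 * (x / 8) + 1 := by omega
          set a := x / 8
          rw [this]; ring⟩
      · exact ⟨8 * (x / 8) ^ 2 + 6 * (x / 8) + 1, by
          have : x = 8 * (x / 8) + 3 := by omega
          set a := x / 8
          rw [this]; ring⟩
    obtain ⟨c, hc⟩ := hx2
    rw [hb, hc] at hxy
    have : (p : ℤ) = 8 * (c + b ^ 2) + 1 := by linear_combination hxy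
    omega
  obtain ⟨b, hb⟩ : ∃ b, y = 2 * b + 1 := ⟨y / 2, by omega⟩
  obtain ⟨d, hd⟩ : ∃ d, b * (b + 1) = 2 * d := by
    rcases Int.even_or_odd b with ⟨e, he⟩ | ⟨e, he⟩
    · exact ⟨e * (b + 1), by rw [he]; ring⟩
    · exact ⟨b * (e + 1), by rw [he]; ring⟩
  have hy2 : 2 * y ^ 2 = 16 * d + 2 := by rw [hb]; linear_combination 8 * hd
  constructor
  · intro h1
    have e : x ^ 2 = 16 * ((x / 8) * (4 * (x / 8) + 1)) + 1 := by
      have : x = 8 * (x / 8) + 1 := by omega
      set a := x / 8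
      rw [this]; ring
    have : (p : ℤ) = 16 * ((x / 8) * (4 * (x / 8) + 1) + d) + 3 := by linear_combination hxy + e + hy2
    rw [Nat.even_iff]
    generalize (x / 8) * (4 * (x / 8) + 1) + d = q at this
    omega
  · intro h1
    have e : x ^ 2 = 16 * (4 * (x / 8) ^ 2 + 3 * (x / 8)) + 9 := by
      have : x = 8 * (x / 8) + 3 := by omega
      set a := x / 8
      rw [this]; ring
    have : (p : ℤ) = 16 * (4 * (x / 8) ^ 2 + 3 * (x / 8) + d) + 11 := by linear_combination hxy + e + hy2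
    rw [Nat.odd_iff]
    generalize 4 * (x / 8) ^ 2 + 3 * (x / 8) + d = q at this
    omega

open Stmt in
theorem Q2 (p : ℕ) (hp : p.Prime) (x y : ℤ) (hxy : (p : ℤ) = x ^ 2 + 2 * y ^ 2)
    (hx : x % 8 = 1 ∨ x % 8 = 3) :
    (p % 8 = 1 → CongrSq p (Stmt.S1 p) 0) ∧
    (p % 8 = 3 → CongrSq p (Stmt.S1 p) ((-1) ^ ((p - 3) / 8) * (2 * (x + p / x)))) := by
  have : Fact p.Prime := ⟨hp⟩
  have hpp := hp.two_le
  have hpI : Prime (p : ℤ) := Nat.prime_iff_prime_int.mp hp
  have h8p : p % 2 = 1 → ¬ (p : ℤ) ∣ 8 := by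
    intro hodd h0
    have h1 : p ∣ 8 := by exact_mod_cast h0
    have h2 : p ∣ 2 := by
      have : (8 : ℕ) = 2 ^ 3 := by norm_num
      rw [this] at h1
      exact hp.dvd_of_dvd_pow h1
    have h3 := Nat.le_of_dvd (by norm_num) h2
    omega
  constructor
  · intro h8
    have hodd : Odd p := Nat.odd_iff.mpr (by omega)
    obtain ⟨X, hX4, hX2⟩ : ∃ X : ℤ, X % 4 = 1 ∧ X ^ 2 = x ^ 2 := by
      rcases hx with h | h
      · exact ⟨x, by omega, rfl⟩
      · exact ⟨-x, by omega, by ring⟩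
    obtain ⟨h, hh⟩ := exists_half p hodd
    have hm := (S1_main (Or.inl h8) (by omega) hh X y (by rw [hX2]; exact hxy.symm) hX4).1 h8
    have h1 := S1R_mul p hh
    rw [hm, mul_zero] at h1
    apply congrSq_of (N1 p) (8 ^ (p - 1))
    · intro h0
      exact h8p (by omega) (hpI.dvd_of_dvd_pow h0)
    · exact h1.symm
    · push_cast
      rw [← S1_mul]; ring
  · intro h8
    have hodd : Odd p := Nat.odd_iff.mpr (by omega)
    obtain ⟨s1, s3⟩ := sign_exp h8 x y hxy hx
    obtain ⟨X, hX4, hX2, hXr⟩ : ∃ X : ℤ, X % 4 = 1 ∧ X ^ 2 = x ^ 2 ∧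
        ((-1 : ℚ) ^ ((p - 3) / 8) * (2 * (x + p / x))) = 2 * (X + p / X) := by
      rcases hx with h | h
      · refine ⟨x, by omega, rfl, ?_⟩
        rw [(s1 h).neg_one_pow, one_mul]
      · refine ⟨-x, by omega, by ring, ?_⟩
        rw [(s3 h).neg_one_pow]
        push_cast
        rw [div_neg]
        ring
    rw [hXr]
    have hXy : X ^ 2 + 2 * y ^ 2 = p := by rw [hX2]; exact hxy.symm
    have hXne : X ≠ 0 := by rintro rfl; omega
    have hXq : (X : ℚ) ≠ 0 := by exact_mod_cast hXne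
    have hXp : ¬ (p : ℤ) ∣ X := by
      intro h0
      have hle : X ^ 2 ≤ p := by nlinarith [sq_nonneg y]
      have h3 : (p : ℤ) ≤ |X| := Int.le_of_dvd (abs_pos.mpr hXne) ((dvd_abs _ _).mpr h0)
      have h4 : |X| ^ 2 = X ^ 2 := sq_abs X
      have h5 : (2 : ℤ) ≤ p := by exact_mod_cast hpp
      nlinarith
    have hD : ¬ (p : ℤ) ∣ 8 ^ (p - 1) * X := by
      intro h0
      rcases hpI.dvd_or_dvd h0 with h1 | h1
      · exact h8p (by omega) (hpI.dvd_of_dvd_pow h1)
      · exact hXp h1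
    apply congrSq_of (X * N1 p - 8 ^ (p - 1) * (2 * X ^ 2 + 2 * p)) (8 ^ (p - 1) * X) hD
    · by_cases hp3 : p = 3
      · subst hp3
        have hX1 : X = 1 := by
          have hXy' : X ^ 2 + 2 * y ^ 2 = 3 := by exact_mod_cast hXy
          have h1 : X ^ 2 ≤ 3 := by nlinarith [sq_nonneg y]
          have h2 : X ≤ 1 := by nlinarith
          have h3 : -1 ≤ X := by nlinarith
          omega
        rw [hX1]
        have hN : N1 3 = 368 := by decide
        rw [hN]
        decide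
      · obtain ⟨h, hh⟩ := exists_half p hodd
        have hm := (S1_main (Or.inr h8) hp3 hh X y hXy hX4).2 h8
        have h1 := S1R_mul p hh
        push_cast
        rw [← h1]
        linear_combination (8 ^ (p - 1)) * hm
    · push_cast
      rw [← S1_mul]
      field_simp

end Pool.Agent.PellSC
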