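import Pool.Agent.PellSC.Leg

/-!
# The logarithmic identity mod p
-/

set_option autoImplicit false
set_option linter.unusedSectionVars false
set_option linter.unusedVariables false

namespace Pool.Agent.PellSC

open Finset Polynomial

section field

variable {p n : ℕ} {F : Type*} [Field F] [hpr : Fact p.Prime] [CharP F p]

lemma two_ne (hp : p = 2 * n + 1) : (2 : F) ≠ 0 := by
  have := hpr.out
  have h3 : 2 < p := by
    rcases this.two_le.lt_or_eq with h | h
    · exact h
    · omega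
  exact_mod_cast cast_ne_zero' (F := F) (p := p) 2 (by norm_num) h3

/-- recurrence of the coefficients -/
lemma cc_rec (hp : p = 2 * n + 1) {h : F} (hh : 2 * h = 1) (k : ℕ) :
    ((k + 1 : ℕ) : F) ^ 2 * cc F h (k + 1) ^ 2 = ((k : F) + h) ^ 2 * cc F h k ^ 2 := by
  have h8 := Nat.succ_mul_centralBinom_succ k
  have h9 : ((k + 1 : ℕ) : F) * ((k + 1).centralBinom : F) = 2 * ((2 * k + 1 : ℕ) : F) * (k.centralBinom : F) := by
    exact_mod_cast congrArg (Nat.cast : ℕ → F) h8
  have h10 : ((k + 1 : ℕ) : F) * cc F h (k + 1) = ((k : F) + h) * cc F h k := by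
    unfold cc
    have e : h ^ (2 * (k + 1)) = h ^ 2 * h ^ (2 * k) := by ring
    rw [e]
    have e2 : ((2 * k + 1 : ℕ) : F) = 2 * ((k : F) + h) := by
      push_cast
      linear_combination (-1 : F) * hh
    rw [e2] at h9
    linear_combination (h ^ 2 * h ^ (2 * k)) * h9 + (((k : F) + h) * (k.centralBinom : F) * h ^ (2 * k)) * (2 * h + 1) * hh
  rw [← mul_pow, ← mul_pow, h10]

/-- telescoping -/
lemma g_aux (hp : p = 2 * n + 1) {h : F} (hh : 2 * h = 1) (k : ℕ) (hk : k + 1 < p) (m : ℕ) (hm : m ≤ k) :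
    ((k + 1 : ℕ) : F) ^ 2 * (∑ j ∈ range (m + 1), cc F h j ^ 2 / ((k + 1 - j : ℕ) : F))
      - ((k : F) + h) ^ 2 * (∑ j ∈ range m, cc F h j ^ 2 / ((k - j : ℕ) : F)) = ((k : F) + m + 1) * cc F h m ^ 2 := by
  induction m with
  | zero =>
    simp only [zero_add, range_one, sum_singleton, range_zero, sum_empty, mul_zero, sub_zero, Nat.sub_zero, Nat.cast_zero, add_zero]
    have h1 : ((k + 1 : ℕ) : F) ≠ 0 := cast_ne_zero' (p := p) (k + 1) (by omega) hk
    field_simp
    push_cast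
    ring
  | succ m ih =>
    rw [sum_range_succ (fun j => cc F h j ^ 2 / ((k + 1 - j : ℕ) : F)) (m + 1), sum_range_succ (fun j => cc F h j ^ 2 / ((k - j : ℕ) : F)) m]
    have h1 := ih (by omega)
    have h2 : ((k - m : ℕ) : F) ≠ 0 := cast_ne_zero' (p := p) (k - m) (by omega) (by omega)
    have h3 : (k + 1 - (m + 1) : ℕ) = k - m := by omega
    have h4 : ((k - m : ℕ) : F) = (k : F) - m := by rw [Nat.cast_sub (by omega)]
    have h5 := cc_rec (p := p) hp hh m
    rw [h3]
    have h6 : ((k + 1 : ℕ) : F) ^ 2 * (cc F h (m + 1) ^ 2 / ((k - m : ℕ) : F)) - ((k : F) + h) ^ 2 * (cc F h m ^ 2 / ((k - m : ℕ) : F))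
        = ((k : F) + (m + 1 : ℕ) + 1) * cc F h (m + 1) ^ 2 - ((k : F) + m + 1) * cc F h m ^ 2 := by
      rw [← mul_div_assoc, ← mul_div_assoc, div_sub_div_same, div_eq_iff h2, h4]
      have h7 : (2 * h) * (cc F h m ^ 2 * ((k : F) - m)) = 1 * (cc F h m ^ 2 * ((k : F) - m)) := by rw [hh]
      push_cast at h5 ⊢
      linear_combination h5 - h7
    rw [mul_add, mul_add]
    linear_combination h1 + h6

/-- `∑_{j<d} c_j²/(d-j) = 4 c_d² O_d` -/
lemma g_eq (hp : p = 2 * n + 1) {h : F} (hh : 2 * h = 1) (d : ℕ) (hd : d < p) :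
    ∑ j ∈ range d, cc F h j ^ 2 / ((d - j : ℕ) : F) = 4 * cc F h d ^ 2 * od F d := by
  induction d with
  | zero => simp
  | succ k ih =>
    have h1 := g_aux (p := p) hp hh k hd k le_rfl
    rw [ih (by omega)] at h1
    have h5 := cc_rec (p := p) hp hh k
    have h0 : ((k + 1 : ℕ) : F) ≠ 0 := cast_ne_zero' (p := p) (k + 1) (by omega) hd
    apply mul_left_cancel₀ (pow_ne_zero 2 h0)
    have h6 : ((k + 1 : ℕ) : F) ^ 2 * (∑ j ∈ range (k + 1), cc F h j ^ 2 / ((k + 1 - j : ℕ) : F))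
        = ((k : F) + h) ^ 2 * (4 * cc F h k ^ 2 * od F k) + ((k : F) + k + 1) * cc F h k ^ 2 := by
      linear_combination h1
    rw [h6, od_succ]
    have h7 : ((2 * k + 1 : ℕ) : F) = 2 * ((k : F) + h) := by
      push_cast
      linear_combination (-1 : F) * hh
    by_cases h8 : (k : F) + h = 0
    · rw [h8] at h5
      have h9 : cc F h (k + 1) ^ 2 = 0 := by
        have : ((k + 1 : ℕ) : F) ^ 2 * cc F h (k + 1) ^ 2 = 0 := by rw [h5]; ring
        rcases mul_eq_zero.1 this with h | h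
        · exact absurd h (pow_ne_zero 2 h0)
        · exact h
      rw [h9, h8]
      have h10 : (k : F) + k + 1 = 0 := by linear_combination 2 * h8 - hh
      rw [h10]; ring
    · have h2 : (2 : F) ≠ 0 := two_ne (p := p) hp
      rw [h7, mul_inv]
      have h11 : (((k + 1 : ℕ) : F)) ^ 2 * (4 * cc F h (k + 1) ^ 2 * (od F k + (2 : F)⁻¹ * ((k : F) + h)⁻¹))
          = 4 * (((k : F) + h) ^ 2 * cc F h k ^ 2) * (od F k + (2 : F)⁻¹ * ((k : F) + h)⁻¹) := by
        rw [← h5]; ring
      rw [h11]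
      have h12 : ((k : F) + h) * ((k : F) + h)⁻¹ = 1 := mul_inv_cancel₀ h8
      have h13 : (2 : F) * (2 : F)⁻¹ = 1 := mul_inv_cancel₀ h2
      have h14 : (k : F) + k + 1 = 2 * ((k : F) + h) := by linear_combination (-1 : F) * hh
      rw [h14]
      linear_combination (-(4 * cc F h k ^ 2 * (2 : F)⁻¹ * ((k : F) + h))) * h12 + (-(2 * cc F h k ^ 2 * ((k : F) + h))) * h13

/-- truncated logarithm -/
noncomputable def LamP (F : Type*) [Field F] (p : ℕ) : F[X] := ∑ j ∈ range (p - 1), C (((j + 1 : ℕ) : F)⁻¹) * X ^ (j + 1)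

/-- odd part of the truncated logarithm -/
noncomputable def ellP (F : Type*) [Field F] (n : ℕ) : F[X] := ∑ m ∈ range n, C (((2 * m + 1 : ℕ) : F)⁻¹) * X ^ (2 * m + 1)

noncomputable def cFP (F : Type*) [Field F] (n : ℕ) (h : F) : F[X] := ∑ k ∈ range (n + 1), C (cc F h k ^ 2) * X ^ k

noncomputable def DP (F : Type*) [Field F] (n : ℕ) (h : F) : F[X] := ∑ k ∈ range (n + 1), C (cc F h k ^ 2 * od F k) * X ^ k

lemma coeff_LamP (d : ℕ) (hd : d < p) : (LamP F p).coeff d = if d = 0 then 0 else ((d : ℕ) : F)⁻¹ := by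
  unfold LamP
  rw [finsetSum_coeff]
  simp only [coeff_C_mul_X_pow]
  rcases d with _ | d
  · simp
  · rw [sum_eq_single d]
    · simp
    · intro b _ hb; simp [Ne.symm hb]
    · intro h; rw [mem_range] at h; omega

lemma coeff_cFP (hp : p = 2 * n + 1) (h : F) (d : ℕ) (hd : d < p) : (cFP F n h).coeff d = cc F h d ^ 2 := by
  unfold cFP
  rw [finsetSum_coeff]
  simp only [coeff_C_mul_X_pow]
  rw [sum_ite_eq]
  split_ifs with h1
  · rfl
  · rw [mem_range, not_lt] at h1
    unfold cc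
    rw [centralBinom_zero hp (by omega) hd]; simp

lemma coeff_DP (hp : p = 2 * n + 1) (h : F) (d : ℕ) (hd : d < p) : (DP F n h).coeff d = cc F h d ^ 2 * od F d := by
  unfold DP
  rw [finsetSum_coeff]
  simp only [coeff_C_mul_X_pow]
  rw [sum_ite_eq]
  split_ifs with h1
  · rfl
  · rw [mem_range, not_lt] at h1
    unfold cc
    rw [centralBinom_zero hp (by omega) hd]; simp

lemma stepB (hp : p = 2 * n + 1) {h : F} (hh : 2 * h = 1) : (X : F[X]) ^ p ∣ LamP F p * cFP F n h - 4 * DP F n h := by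
  rw [X_pow_dvd_iff]
  intro d hd
  rw [coeff_sub, coeff_mul]
  have e4 : (4 * DP F n h).coeff d = 4 * (DP F n h).coeff d := by
    rw [show (4 : F[X]) = C 4 from rfl, coeff_C_mul]
  rw [e4, coeff_DP hp h d hd, Nat.sum_antidiagonal_eq_sum_range_succ (fun i j => (LamP F p).coeff i * (cFP F n h).coeff j), ← sum_range_reflect]
  have : ∀ j ∈ range d.succ, (LamP F p).coeff (d.succ - 1 - j) * (cFP F n h).coeff (d - (d.succ - 1 - j)) = if j = d then 0 else cc F h j ^ 2 / ((d - j : ℕ) : F) := by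
    intro j hj
    rw [mem_range] at hj
    have a1 : d.succ - 1 - j = d - j := by omega
    have a2 : d - (d - j) = j := by omega
    rw [a1, a2, coeff_LamP _ (by omega), coeff_cFP hp h j (by omega)]
    by_cases hjd : j = d
    · simp [hjd]
    · have : d - j ≠ 0 := by omega
      simp [hjd, this]
      ring
  rw [sum_congr rfl this, sum_range_succ]
  simp only [if_true, add_zero]
  have h2 : ∑ x ∈ range d, (if x = d then 0 else cc F h x ^ 2 / ((d - x : ℕ) : F)) = ∑ x ∈ range d, cc F h x ^ 2 / ((d - x : ℕ) : F) := by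
    refine sum_congr rfl fun x hx => ?_
    rw [mem_range] at hx
    rw [if_neg (by omega)]
  rw [h2, g_eq hp hh d hd]
  ring

end field

end Pool.Agent.PellSC
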