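import Pool.Agent.PellSC.Fld

/-!
# The logarithmic identity mod p, II
-/

set_option autoImplicit false
set_option linter.unusedSectionVars false
set_option linter.unusedVariables false

namespace Pool.Agent.PellSC

open Finset Polynomial

section field

variable {p n : ℕ} {F : Type*} [Field F] [hpr : Fact p.Prime] [CharP F p]

lemma choose_half_F (hp : p = 2 * n + 1) (k : ℕ) (hk : k ≤ n) :
    ((-4) ^ k * (n.choose k : F)) = (k.centralBinom : F) := by
  induction k with
  | zero => simp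
  | succ k ih =>
    have h0 : ((k + 1 : ℕ) : F) ≠ 0 := cast_ne_zero' (p := p) (k + 1) (by omega) (by omega)
    apply mul_left_cancel₀ h0
    have h1 := Nat.choose_succ_right_eq n k
    have h2 : (n.choose (k + 1) : F) * ((k + 1 : ℕ) : F) = (n.choose k : F) * ((n - k : ℕ) : F) := by
      exact_mod_cast congrArg (Nat.cast : ℕ → F) h1
    have hp0 : (p : F) = 0 := CharP.cast_eq_zero F p
    have h3 : 2 * ((n - k : ℕ) : F) = - ((2 * k + 1 : ℕ) : F) := by
      rw [Nat.cast_sub (by omega)]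
      rw [hp] at hp0
      push_cast at hp0 ⊢
      linear_combination hp0
    have h6 := ih (by omega)
    have h8 := Nat.succ_mul_centralBinom_succ k
    have h9 : ((k + 1 : ℕ) : F) * ((k + 1).centralBinom : F) = 2 * ((2 * k + 1 : ℕ) : F) * (k.centralBinom : F) := by
      exact_mod_cast congrArg (Nat.cast : ℕ → F) h8
    rw [h9, ← h6, pow_succ]
    linear_combination (-4 * (-4) ^ k) * h2 + (-2 * (-4) ^ k * (n.choose k : F)) * h3

/-- the polynomial `2X(1+X)^{p-1}` representing `2u/(1+u)` -/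
noncomputable def UP (F : Type*) [Field F] (p : ℕ) : F[X] := 2 * X * (1 + X) ^ (p - 1)

noncomputable def XcP (F : Type*) [Field F] (n : ℕ) (h : F) : F[X] :=
  ∑ k ∈ range (n + 1), C (cc F h k ^ 2 * od F k) * ((2 * X) ^ k * (1 + X) ^ (n - k))

lemma one_add_X_pow_p : (1 + X : F[X]) ^ p = 1 + X ^ p := by
  have := add_pow_char (1 : F[X]) X p
  rwa [one_pow] at this

lemma C1_der (hp : p = 2 * n + 1) (hn : 0 < n) :
    (X : F[X]) ^ (p - 1) ∣ derivative ((LamP F p).comp (UP F p) - 2 * ellP F n) := by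
  have hp3 : 3 ≤ p := by omega
  have hcop : IsCoprime ((X : F[X]) ^ (p - 1)) (1 - X ^ 2) := by
    apply IsCoprime.pow_left
    exact ⟨X, 1, by ring⟩
  apply hcop.dvd_of_dvd_mul_left
  -- derivatives
  have d1 : derivative (LamP F p) = ∑ j ∈ range (p - 1), X ^ j := by
    unfold LamP
    rw [derivative_sum]
    refine sum_congr rfl fun j hj => ?_
    rw [mem_range] at hj
    rw [derivative_C_mul, derivative_X_pow, ← mul_assoc, ← C_mul]
    have : (((j + 1 : ℕ) : F)⁻¹ * ((j + 1 : ℕ) : F)) = 1 := inv_mul_cancel₀ (cast_ne_zero' (p := p) (j + 1) (by omega) (by omega))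
    rw [this]; simp
  have d2 : derivative (ellP F n) = ∑ m ∈ range n, (X ^ 2) ^ m := by
    unfold ellP
    rw [derivative_sum]
    refine sum_congr rfl fun j hj => ?_
    rw [mem_range] at hj
    rw [derivative_C_mul, derivative_X_pow, ← mul_assoc, ← C_mul]
    have : (((2 * j + 1 : ℕ) : F)⁻¹ * ((2 * j + 1 : ℕ) : F)) = 1 := inv_mul_cancel₀ (cast_ne_zero' (p := p) (2 * j + 1) (by omega) (by omega))
    rw [this]; simp [pow_mul]
  have d3 : derivative (UP F p) = 2 * (1 + X) ^ (p - 2) := by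
    unfold UP
    obtain ⟨q, hq⟩ : ∃ q, p = q + 2 := ⟨p - 2, by omega⟩
    have hq1 : p - 1 = q + 1 := by omega
    have hq2 : p - 2 = q := by omega
    rw [hq1, hq2]
    have hc : ((q + 1 : ℕ) : F[X]) = -1 := by
      have : ((q + 2 : ℕ) : F[X]) = 0 := by rw [← hq]; exact CharP.cast_eq_zero F[X] p
      push_cast at this ⊢
      linear_combination this
    rw [derivative_mul, derivative_pow_succ]
    simp only [derivative_mul, derivative_ofNat, zero_mul, zero_add, derivative_X, mul_one, derivative_add, derivative_one]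
    have hc' : (C ((q : F) + 1) : F[X]) = -1 := by
      rw [← hc]; simp
    rw [hc', pow_succ]
    ring
  rw [derivative_sub, derivative_comp, derivative_mul, d1, d2, d3]
  simp only [derivative_ofNat, zero_mul, zero_add]
  -- pass to the quotient
  rw [← Ideal.mem_span_singleton, ← Ideal.Quotient.eq_zero_iff_mem]
  set q := Ideal.Quotient.mk (Ideal.span {(X : F[X]) ^ (p - 1)}) with hq
  have hx : (q X) ^ (p - 1) = 0 := by
    rw [← map_pow]
    exact Ideal.Quotient.eq_zero_iff_mem.2 (Ideal.mem_span_singleton_self _)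
  set x := q X with hxdef
  have hx2 : x ^ p = 0 := by
    have h7 : x ^ p = x ^ (p - 1) * x := by rw [← pow_succ]; congr 1; omega
    rw [h7, hx, zero_mul]
  have ha : (1 + x) ^ p = 1 := by
    have := congrArg q (one_add_X_pow_p (p := p) (F := F))
    simp only [map_pow, map_add, map_one] at this
    rw [this, hx2, add_zero]
  have hU : q (UP F p) = 2 * x * (1 + x) ^ (p - 1) := by
    unfold UP
    simp only [map_mul, map_pow, map_add, map_one, map_ofNat]
    rfl
  have hap : (1 + x) ^ (p - 1) * (1 + x) = 1 := by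
    rw [← pow_succ]
    have : p - 1 + 1 = p := by omega
    rw [this, ha]
  have hap2 : (1 + x) ^ (p - 2) * (1 + x) = (1 + x) ^ (p - 1) := by
    rw [← pow_succ]; congr 1; omega
  have hG : q ((∑ j ∈ range (p - 1), X ^ j : F[X]).comp (UP F p)) * (1 - q (UP F p)) = 1 := by
    have e1 : (∑ j ∈ range (p - 1), X ^ j : F[X]).comp (UP F p) = ∑ j ∈ range (p - 1), (UP F p) ^ j := by
      rw [Polynomial.sum_comp]
      refine sum_congr rfl fun j _ => ?_
      simp
    rw [e1, map_sum]
    simp only [map_pow]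
    rw [geom_sum_mul_neg, hU, mul_pow, mul_pow, hx]
    ring
  have hm : q (∑ m ∈ range n, (X ^ 2) ^ m : F[X]) * (1 - x ^ 2) = 1 := by
    rw [map_sum]
    simp only [map_pow]
    rw [geom_sum_mul_neg, ← pow_mul]
    have : 2 * n = p - 1 := by omega
    rw [this, ← hxdef, hx]; ring
  simp only [map_mul, map_sub, map_one, map_pow, map_add, map_ofNat]
  rw [← hxdef]
  set G := q ((∑ j ∈ range (p - 1), X ^ j : F[X]).comp (UP F p)) with hGdef
  set m := q (∑ m ∈ range n, (X ^ 2) ^ m : F[X]) with hmdef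
  have e5 : q (∑ m ∈ range n, (X ^ 2) ^ m : F[X]) = m := rfl
  rw [hU] at hG
  set e := (1 + x) ^ (p - 1) with he
  have h1 : (1 - 2 * x * e) * (1 + x) = 1 - x := by
    linear_combination (-2 * x) * hap
  linear_combination (2 * (1 - x) * G) * hap2 - 2 * hm + (-2 * G * e) * h1 + 2 * (e * (1 + x)) * hG + 2 * hap

lemma C1 (hp : p = 2 * n + 1) (hn : 0 < n) : (X : F[X]) ^ p ∣ (LamP F p).comp (UP F p) - 2 * ellP F n := by
  have h1 := C1_der (p := p) (F := F) hp hn
  rw [X_pow_dvd_iff] at h1 ⊢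
  intro d hd
  rcases d with _ | d
  · rw [coeff_sub, coeff_zero_eq_eval_zero, coeff_zero_eq_eval_zero, eval_comp]
    have : eval 0 (UP F p) = 0 := by simp [UP]
    rw [this]
    have e1 : eval 0 (LamP F p) = 0 := by
      unfold LamP
      rw [eval_finsetSum]
      apply sum_eq_zero
      intro j _; simp
    have e2 : eval 0 (ellP F n) = 0 := by
      unfold ellP
      rw [eval_finsetSum]
      apply sum_eq_zero
      intro j _; simp
    simp [e1, e2]
  · have h2 := h1 d (by omega)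
    rw [coeff_derivative] at h2
    rcases mul_eq_zero.1 h2 with h3 | h3
    · exact h3
    · exfalso
      have : ((d + 1 : ℕ) : F) ≠ 0 := cast_ne_zero' (p := p) (d + 1) (by omega) hd
      apply this
      push_cast
      exact h3

lemma U_dvd : (X : F[X]) ^ p ∣ (UP F p) ^ p := by
  unfold UP
  rw [mul_pow, mul_pow]
  exact ⟨2 ^ p * ((1 + X) ^ (p - 1)) ^ p, by ring⟩

/-- powers of `1+X` modulo `X^p` -/
lemma pow_mod (hp : p = 2 * n + 1) (k : ℕ) (hk : k ≤ n) :
    (X : F[X]) ^ p ∣ (1 + X) ^ n * (UP F p) ^ k - (2 * X) ^ k * (1 + X) ^ (n - k) := by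
  rw [← Ideal.mem_span_singleton, ← Ideal.Quotient.eq_zero_iff_mem]
  set q := Ideal.Quotient.mk (Ideal.span {(X : F[X]) ^ p}) with hq
  have hx : (q X) ^ p = 0 := by
    rw [← map_pow]
    exact Ideal.Quotient.eq_zero_iff_mem.2 (Ideal.mem_span_singleton_self _)
  set x := q X with hxdef
  have ha : (1 + x) ^ p = 1 := by
    have := congrArg q (one_add_X_pow_p (p := p) (F := F))
    simp only [map_pow, map_add, map_one] at this
    rw [this, hx, add_zero]
  unfold UP
  simp only [map_mul, map_sub, map_one, map_pow, map_add, map_ofNat]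
  rw [← hxdef, mul_pow, ← pow_mul]
  have e : (1 + x) ^ n * (1 + x) ^ ((p - 1) * k) = (1 + x) ^ (n - k) := by
    rw [← pow_add]
    have : n + (p - 1) * k = p * k + (n - k) := by
      have h3 : p - 1 + 1 = p := by omega
      have h4 : p * k = (p - 1) * k + k := by
        conv_lhs => rw [← h3]
        ring
      omega
    rw [this, pow_add, pow_mul, ha]; simp
  linear_combination (2 * x) ^ k * e

lemma cc_sq_F (hp : p = 2 * n + 1) {h : F} (hh : 2 * h = 1) {k : ℕ} (hk : k ≤ n) :
    (cc F h k) ^ 2 = (n.choose k : F) * (k.centralBinom : F) * (-h ^ 2) ^ k := by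
  have h1 := choose_half_F (p := p) (F := F) hp k hk
  have h4 : (-h ^ 2) ^ k = h ^ (4 * k) * (-4) ^ k := by
    have : (h ^ (4 * k) * (-4) ^ k) = (-h ^ 2 * (2 * h) ^ 2) ^ k := by
      rw [pow_mul, ← mul_pow]; congr 1; ring
    rw [this, hh]; simp
  rw [h4]
  unfold cc
  have e : (h ^ (2 * k)) ^ 2 = h ^ (4 * k) := by rw [← pow_mul]; ring_nf
  linear_combination (-(k.centralBinom : F) * (h ^ (4 * k))) * h1 + (k.centralBinom : F) ^ 2 * e

lemma C2 (hp : p = 2 * n + 1) {h : F} (hh : 2 * h = 1) :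
    (X : F[X]) ^ p ∣ (1 + X) ^ n * (cFP F n h).comp (UP F p) - Hv F[X] n (C h) (X ^ 2) := by
  have hh' : 2 * (C h : F[X]) = 1 := by
    rw [show (2 : F[X]) = C 2 from rfl, ← C_mul, hh, C_1]
  rw [← quad_trans n (C h) X hh']
  unfold cFP
  rw [Polynomial.sum_comp, mul_sum, ← sum_sub_distrib]
  apply dvd_sum
  intro k hk
  rw [mem_range] at hk
  have h1 := pow_mod (p := p) (F := F) hp k (by omega)
  have e : (1 + X) ^ n * ((C (cc F h k ^ 2) * X ^ k : F[X]).comp (UP F p)) - (n.choose k : F[X]) * (k.centralBinom : F[X]) * (-(X * C h)) ^ k * (1 + X) ^ (n - k)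
      = C (cc F h k ^ 2) * ((1 + X) ^ n * (UP F p) ^ k - (2 * X) ^ k * (1 + X) ^ (n - k)) := by
    rw [mul_comp, C_comp, pow_comp, X_comp, cc_sq_F (p := p) hp hh (by omega : k ≤ n)]
    have e2 : (C ((n.choose k : F) * (k.centralBinom : F) * (-h ^ 2) ^ k) : F[X]) = (n.choose k : F[X]) * (k.centralBinom : F[X]) * (-(C h) ^ 2) ^ k := by
      simp
    have e3 : (-(C h : F[X]) ^ 2) ^ k * (2 * X) ^ k = (-(X * C h)) ^ k := by
      rw [← mul_pow]; congr 1
      linear_combination (-(X * C h)) * hh'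
    rw [e2]
    linear_combination ((n.choose k : F[X]) * (k.centralBinom : F[X]) * (1 + X) ^ (n - k)) * e3
  rw [e]
  exact Dvd.dvd.mul_left h1 _

lemma C3 (hp : p = 2 * n + 1) (h : F) :
    (X : F[X]) ^ p ∣ (1 + X) ^ n * (DP F n h).comp (UP F p) - XcP F n h := by
  unfold DP XcP
  rw [Polynomial.sum_comp, mul_sum, ← sum_sub_distrib]
  apply dvd_sum
  intro k hk
  rw [mem_range] at hk
  have h1 := pow_mod (p := p) (F := F) hp k (by omega)
  have e : (1 + X) ^ n * ((C (cc F h k ^ 2 * od F k) * X ^ k : F[X]).comp (UP F p)) - C (cc F h k ^ 2 * od F k) * ((2 * X) ^ k * (1 + X) ^ (n - k))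
      = C (cc F h k ^ 2 * od F k) * ((1 + X) ^ n * (UP F p) ^ k - (2 * X) ^ k * (1 + X) ^ (n - k)) := by
    rw [mul_comp, C_comp, pow_comp, X_comp]
    ring
  rw [e]
  exact Dvd.dvd.mul_left h1 _

lemma C4 (hp : p = 2 * n + 1) (hn : 0 < n) {h : F} (hh : 2 * h = 1) :
    (X : F[X]) ^ p ∣ 2 * ellP F n * Hv F[X] n (C h) (X ^ 2) - 4 * XcP F n h := by
  obtain ⟨T, hT⟩ := stepB (p := p) hp hh
  obtain ⟨a, ha⟩ := C1 (p := p) (F := F) hp hn
  obtain ⟨b, hb⟩ := C2 (p := p) hp hh
  obtain ⟨c, hc⟩ := C3 (p := p) hp h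
  obtain ⟨d, hd⟩ := U_dvd (p := p) (F := F)
  have h1 := congrArg (fun f : F[X] => f.comp (UP F p)) hT
  simp only [sub_comp, mul_comp, pow_comp, X_comp] at h1
  have h4 : (4 : F[X]).comp (UP F p) = 4 := by
    rw [show (4 : F[X]) = C 4 from rfl, C_comp]
  rw [h4, hd] at h1
  set L := (LamP F p).comp (UP F p)
  set cF := (cFP F n h).comp (UP F p)
  set D := (DP F n h).comp (UP F p)
  set H := Hv F[X] n (C h) (X ^ 2)
  refine ⟨d * T.comp (UP F p) * (1 + X) ^ n - a * H + 4 * c - L * b, ?_⟩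
  linear_combination (1 + X) ^ n * h1 - H * ha + 4 * hc - L * hb

end field

end Pool.Agent.PellSC
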