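import Pool.Agent.PellSC.Fld2

/-!
# The logarithmic identity mod p, III: value at `x² = 1/2`
-/

set_option autoImplicit false
set_option linter.unusedSectionVars false
set_option linter.unusedVariables false

namespace Pool.Agent.PellSC

open Finset Polynomial

section field

variable {p n : ℕ} {F : Type*} [Field F] [hpr : Fact p.Prime] [CharP F p]

/-- tail polynomial -/
noncomputable def GP (F : Type*) [Field F] (n : ℕ) (h : F) : F[X] :=
  ∑ i ∈ range (n + 1), C (hc F n h i) * ∑ l ∈ range i, C (((l + 1 : ℕ) : F)⁻¹) * X ^ (i - 1 - l)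

noncomputable def WP (F : Type*) [Field F] (n : ℕ) (h : F) : F[X] :=
  ∑ i ∈ range (n + 1), C (hc F n h i) * ∑ m ∈ range (n - i), C (2 * ((2 * m + 1 : ℕ) : F)⁻¹) * X ^ (2 * m + 1 + 2 * i)

lemma hc_zero {R : Type*} [CommRing R] (h : R) {i : ℕ} (hi : n < 2 * i) : hc R n h i = 0 := by
  unfold hc
  rw [Nat.choose_eq_zero_of_lt hi]; simp

lemma Hv_poly (h : F) : Hv F[X] n (C h) (X ^ 2) = ∑ i ∈ range (n + 1), C (hc F n h i) * X ^ (2 * i) := by
  unfold Hv
  refine sum_congr rfl fun i _ => ?_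
  unfold hc
  simp [pow_mul]

lemma ell_split (hp : p = 2 * n + 1) (i : ℕ) (hi : i ≤ n) :
    2 * ellP F n * X ^ (2 * i) = (∑ m ∈ range (n - i), C (2 * ((2 * m + 1 : ℕ) : F)⁻¹) * X ^ (2 * m + 1 + 2 * i))
      - X ^ p * (∑ l ∈ range i, C (((l + 1 : ℕ) : F)⁻¹) * (X ^ 2) ^ (i - 1 - l)) := by
  have h2 : (2 : F) ≠ 0 := two_ne (p := p) hp
  unfold ellP
  have e0 : range n = range ((n - i) + i) := by congr 1; omega
  rw [e0, sum_range_add]
  have e1 : ∑ x ∈ range i, C (((2 * (n - i + x) + 1 : ℕ) : F)⁻¹) * (X : F[X]) ^ (2 * (n - i + x) + 1)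
      = ∑ l ∈ range i, C (((2 * (n - 1 - l) + 1 : ℕ) : F)⁻¹) * X ^ (2 * (n - 1 - l) + 1) := by
    rw [← sum_range_reflect]
    refine sum_congr rfl fun l hl => ?_
    rw [mem_range] at hl
    have : n - i + (i - 1 - l) = n - 1 - l := by omega
    rw [this]
  rw [e1, mul_add, add_mul, mul_sum, sum_mul, mul_sum, sum_mul, mul_sum, sub_eq_add_neg, ← sum_neg_distrib]
  congr 1
  · refine sum_congr rfl fun m _ => ?_
    rw [C_mul, show (C 2 : F[X]) = 2 from rfl, pow_add]
    ring
  · refine sum_congr rfl fun l hl => ?_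
    rw [mem_range] at hl
    have hp0 : (p : F) = 0 := CharP.cast_eq_zero F p
    have e2 : ((2 * (n - 1 - l) + 1 : ℕ) : F) = -(2 * ((l + 1 : ℕ) : F)) := by
      have : ((2 * (n - 1 - l) + 1 : ℕ) : F) + 2 * ((l + 1 : ℕ) : F) = (p : F) := by
        rw [hp]
        have h3 : 2 * n + 1 = (2 * (n - 1 - l) + 1) + 2 * (l + 1) := by omega
        rw [h3]; push_cast; ring
      rw [hp0] at this
      linear_combination this
    have e3 : (X : F[X]) ^ (2 * (n - 1 - l) + 1) * X ^ (2 * i) = X ^ p * (X ^ 2) ^ (i - 1 - l) := by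
      rw [← pow_add, ← pow_mul, ← pow_add]
      congr 1; omega
    rw [e2]
    have e4 : (C ((-(2 * ((l + 1 : ℕ) : F)))⁻¹) : F[X]) * 2 = - C (((l + 1 : ℕ) : F)⁻¹) := by
      rw [show (2 : F[X]) = C 2 from rfl, ← C_mul, ← C_neg]
      congr 1
      rw [inv_neg, mul_inv]
      field_simp
    linear_combination (X ^ (2 * (n - 1 - l) + 1) * X ^ (2 * i)) * e4 - C (((l + 1 : ℕ) : F)⁻¹) * e3

lemma D1 (hp : p = 2 * n + 1) (h : F) :
    2 * ellP F n * Hv F[X] n (C h) (X ^ 2) = WP F n h - X ^ p * (GP F n h).comp (X ^ 2) := by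
  rw [Hv_poly, mul_sum]
  unfold WP GP
  rw [Polynomial.sum_comp, mul_sum, ← sum_sub_distrib]
  refine sum_congr rfl fun i hi => ?_
  rw [mem_range] at hi
  have h1 := ell_split (p := p) (F := F) hp i (by omega)
  rw [mul_comp, C_comp, Polynomial.sum_comp]
  simp only [mul_comp, C_comp, pow_comp, X_comp]
  linear_combination C (hc F n h i) * h1

lemma mem_WP (hp : p = 2 * n + 1) (h : F) : WP F n h ∈ degreeLT F p := by
  unfold WP
  apply Submodule.sum_mem
  intro i hi
  rw [mem_range] at hi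
  rw [← smul_eq_C_mul]
  apply Submodule.smul_mem
  apply Submodule.sum_mem
  intro m hm
  rw [mem_range] at hm
  rw [mem_degreeLT]
  refine lt_of_le_of_lt (degree_C_mul_X_pow_le _ _) ?_
  exact_mod_cast (by omega : 2 * m + 1 + 2 * i < p)

lemma mem_XcP (hp : p = 2 * n + 1) (h : F) : XcP F n h ∈ degreeLT F p := by
  unfold XcP
  apply Submodule.sum_mem
  intro k hk
  rw [mem_range] at hk
  rw [← smul_eq_C_mul]
  apply Submodule.smul_mem
  rw [mem_degreeLT]
  have h1 : natDegree ((2 * X : F[X]) ^ k * (1 + X) ^ (n - k)) ≤ n := by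
    refine natDegree_mul_le.trans ?_
    have a1 : natDegree ((2 * X : F[X]) ^ k) ≤ k := by
      refine natDegree_pow_le.trans ?_
      have : natDegree (2 * X : F[X]) ≤ 1 := by
        rw [show (2 : F[X]) = C 2 from rfl]
        exact (natDegree_C_mul_le _ _).trans natDegree_X_le
      calc k * natDegree (2 * X : F[X]) ≤ k * 1 := Nat.mul_le_mul_left _ this
        _ = k := by ring
    have a2 : natDegree ((1 + X : F[X]) ^ (n - k)) ≤ n - k := by
      refine natDegree_pow_le.trans ?_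
      have : natDegree (1 + X : F[X]) ≤ 1 := by
        refine (natDegree_add_le _ _).trans ?_
        simp
      calc (n - k) * natDegree (1 + X : F[X]) ≤ (n - k) * 1 := Nat.mul_le_mul_left _ this
        _ = n - k := by ring
    omega
  refine lt_of_le_of_lt degree_le_natDegree ?_
  exact_mod_cast (by omega : natDegree ((2 * X : F[X]) ^ k * (1 + X) ^ (n - k)) < p)

lemma WP_eq (hp : p = 2 * n + 1) (hn : 0 < n) {h : F} (hh : 2 * h = 1) : WP F n h = 4 * XcP F n h := by
  have h1 := C4 (p := p) hp hn hh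
  rw [D1 (p := p) hp h] at h1
  have h2 : (X : F[X]) ^ p ∣ WP F n h - 4 * XcP F n h := by
    obtain ⟨c, hc⟩ := h1
    exact ⟨c + (GP F n h).comp (X ^ 2), by linear_combination hc⟩
  have h3 : WP F n h - 4 * XcP F n h ∈ degreeLT F p := by
    apply Submodule.sub_mem _ (mem_WP hp h)
    rw [show (4 : F[X]) = C 4 from rfl, ← smul_eq_C_mul]
    exact Submodule.smul_mem _ _ (mem_XcP hp h)
  have h4 : WP F n h - 4 * XcP F n h = 0 := by
    by_contra hne
    have h5 := degree_le_of_dvd h2 hne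
    rw [degree_X_pow] at h5
    rw [mem_degreeLT] at h3
    exact absurd (lt_of_le_of_lt h5 h3) (lt_irrefl _)
  exact sub_eq_zero.1 h4

/-- formal integration over `[0,1]` -/
noncomputable def Il (F : Type*) [Field F] : F[X] →ₗ[F] F :=
  Polynomial.lsum (fun k => (((k + 1 : ℕ) : F)⁻¹) • LinearMap.id)

lemma Il_monomial (k : ℕ) (a : F) : Il F (C a * X ^ k) = a * ((k + 1 : ℕ) : F)⁻¹ := by
  unfold Il
  rw [lsum_apply, C_mul_X_pow_eq_monomial, sum_monomial_index]
  · simp [mul_comm]
  · simp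

lemma Il_pow (k : ℕ) (hk : k + 1 < p) : Il F ((1 - X) ^ k) = ((k + 1 : ℕ) : F)⁻¹ := by
  have e1 : ((1 - X : F[X]) ^ k) = ∑ m ∈ range (k + 1), C ((-1) ^ m * (k.choose m : F)) * X ^ m := by
    have : (1 - X : F[X]) = -X + 1 := by ring
    rw [this, add_pow]
    refine sum_congr rfl fun m _ => ?_
    rw [one_pow, mul_one, C_mul, C_pow, C_neg, C_1, C_eq_natCast, neg_pow]
    ring
  rw [e1, map_sum]
  simp only [Il_monomial]
  have h0 : ((k + 1 : ℕ) : F) ≠ 0 := cast_ne_zero' (p := p) (k + 1) (by omega) hk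
  have e2 : ∀ m ∈ range (k + 1), (-1) ^ m * (k.choose m : F) * ((m + 1 : ℕ) : F)⁻¹ = ((k + 1 : ℕ) : F)⁻¹ * (-((-1) ^ (m + 1) * ((k + 1).choose (m + 1) : F))) := by
    intro m hm
    rw [mem_range] at hm
    have h1 : ((m + 1 : ℕ) : F) ≠ 0 := cast_ne_zero' (p := p) (m + 1) (by omega) (by omega)
    have h2 := Nat.add_one_mul_choose_eq k m
    have h3 : ((k + 1 : ℕ) : F) * (k.choose m : F) = ((k + 1).choose (m + 1) : F) * ((m + 1 : ℕ) : F) := by
      exact_mod_cast congrArg (Nat.cast : ℕ → F) h2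
    field_simp
    rw [pow_succ]
    linear_combination ((-1) ^ m) * h3
  rw [sum_congr rfl e2, ← mul_sum, sum_neg_distrib]
  have e3 : ∑ j ∈ range (k + 2), (-1) ^ j * ((k + 1).choose j : F) = 0 := by
    have := add_pow (-1 : F) 1 (k + 1)
    simp only [one_pow, mul_one] at this
    rw [← this]
    simp
  rw [sum_range_succ'] at e3
  simp only [pow_zero, Nat.choose_zero_right, Nat.cast_one, mul_one] at e3
  have e4 : ∑ j ∈ range (k + 1), (-1) ^ (j + 1) * ((k + 1).choose (j + 1) : F) = -1 := by linear_combination e3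
  rw [e4]; ring

lemma Il_symm (f : F[X]) (hf : f ∈ degreeLT F (p - 1)) : Il F (f.comp (1 - X)) = Il F f := by
  rw [mem_degreeLT] at hf
  have h1 : f = ∑ i ∈ range (p - 1), C (f.coeff i) * X ^ i := by
    ext m
    rw [finsetSum_coeff]
    simp only [coeff_C_mul_X_pow]
    rw [sum_ite_eq]
    split_ifs with h2
    · rfl
    · rw [mem_range, not_lt] at h2
      apply coeff_eq_zero_of_degree_lt
      exact lt_of_lt_of_le hf (by exact_mod_cast h2)
  conv_lhs => rw [h1]
  conv_rhs => rw [h1]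
  rw [Polynomial.sum_comp, map_sum, map_sum]
  refine sum_congr rfl fun i hi => ?_
  rw [mem_range] at hi
  rw [mul_comp, C_comp, pow_comp, X_comp, Il_monomial, ← smul_eq_C_mul, map_smul, Il_pow (p := p) i (by omega), smul_eq_mul]

/-- `H` as a polynomial -/
noncomputable def HP (F : Type*) [Field F] (n : ℕ) (h : F) : F[X] := ∑ i ∈ range (n + 1), C (hc F n h i) * X ^ i

lemma eval_HP (h v : F) : eval v (HP F n h) = Hv F n h v := by
  unfold HP Hv
  rw [eval_finsetSum]
  simp

lemma G_zero (hp : p = 2 * n + 1) (hn : 0 < n) {h : F} (hh : 2 * h = 1) (hs : (HP F n h).comp (1 - X) = HP F n h) :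
    eval h (GP F n h) = 0 := by
  set g : F[X] := ∑ i ∈ range (n + 1), C (hc F n h i) * ∑ l ∈ range i, X ^ l * (C h) ^ (i - 1 - l) with hg
  have h1 : g * (X - C h) = HP F n h - C (Hv F n h h) := by
    rw [hg, sum_mul]
    have : (C (Hv F n h h) : F[X]) = ∑ i ∈ range (n + 1), C (hc F n h i) * (C h) ^ i := by
      unfold Hv
      simp
    rw [this, HP, ← sum_sub_distrib]
    refine sum_congr rfl fun i _ => ?_
    rw [mul_assoc, geom_sum₂_mul]
    ring
  have h2 : (g.comp (1 - X) + g) * (X - C h) = 0 := by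
    have h3 := congrArg (fun f : F[X] => f.comp (1 - X)) h1
    simp only [mul_comp, sub_comp, X_comp, C_comp] at h3
    rw [hs] at h3
    have h4 : (2 : F[X]) * C h = 1 := by
      rw [show (2 : F[X]) = C 2 from rfl, ← C_mul, hh, C_1]
    linear_combination (-1 : F[X]) * h3 + h1 - g.comp (1 - X) * h4
  have h5 : g.comp (1 - X) + g = 0 := by
    rcases mul_eq_zero.1 h2 with h10 | h10
    · exact h10
    · exact absurd h10 (X_sub_C_ne_zero h)
  have hgm : g ∈ degreeLT F (p - 1) := by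
    rw [hg]
    apply Submodule.sum_mem
    intro i hi
    rw [mem_range] at hi
    rw [← smul_eq_C_mul]
    apply Submodule.smul_mem
    apply Submodule.sum_mem
    intro l hl
    rw [mem_range] at hl
    have : (X : F[X]) ^ l * (C h) ^ (i - 1 - l) = C (h ^ (i - 1 - l)) * X ^ l := by
      rw [C_pow]; ring
    rw [this, mem_degreeLT]
    refine lt_of_le_of_lt (degree_C_mul_X_pow_le _ _) ?_
    exact_mod_cast (by omega : l < p - 1)
  have h6 := Il_symm (p := p) g hgm
  have h7 : Il F g = 0 := by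
    have h8 : g.comp (1 - X) = -g := by linear_combination h5
    rw [h8, map_neg] at h6
    have h9 : (2 : F) * Il F g = 0 := by linear_combination (-1 : F) * h6
    rcases mul_eq_zero.1 h9 with h10 | h10
    · exact absurd h10 (two_ne (p := p) hp)
    · exact h10
  rw [← h7, hg, GP, map_sum, eval_finsetSum]
  refine sum_congr rfl fun i _ => ?_
  rw [← smul_eq_C_mul, ← smul_eq_C_mul, map_smul, map_sum, eval_smul, eval_finsetSum]
  congr 1
  refine sum_congr rfl fun l _ => ?_
  have : (X : F[X]) ^ l * (C h) ^ (i - 1 - l) = C (h ^ (i - 1 - l)) * X ^ l := by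
    rw [C_pow]; ring
  rw [this, Il_monomial]
  simp
  ring

lemma eval_XcP (h x : F) : eval x (XcP F n h) = Xc F n h x := by
  unfold XcP Xc
  rw [eval_finsetSum]
  simp

/-- value of the correction at the CM point -/
lemma Xc_eq (hp : p = 2 * n + 1) (hn : 0 < n) {h : F} (hh : 2 * h = 1) (hs : (HP F n h).comp (1 - X) = HP F n h)
    {x : F} (hx : x ^ 2 = h) : 4 * Xc F n h x = 2 * eval x (ellP F n) * Hv F n h h := by
  have h1 := D1 (p := p) hp h
  rw [WP_eq (p := p) hp hn hh] at h1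
  have h2 := congrArg (eval x) h1
  have h4 : eval x (4 * XcP F n h) = 4 * Xc F n h x := by
    rw [eval_mul, eval_XcP]; simp
  have h5 : eval x (Hv F[X] n (C h) (X ^ 2)) = Hv F n h h := by
    rw [Hv_poly, eval_finsetSum]
    unfold Hv
    refine sum_congr rfl fun i _ => ?_
    simp [pow_mul, hx]
  have h6 : eval x ((GP F n h).comp (X ^ 2)) = 0 := by
    rw [eval_comp]
    simp only [eval_pow, eval_X]
    rw [hx]
    exact G_zero (p := p) hp hn hh hs
  rw [eval_sub, h4, eval_mul, eval_mul, eval_mul, h5, h6] at h2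
  simp only [eval_ofNat, mul_zero, sub_zero] at h2
  exact h2.symm

end field

end Pool.Agent.PellSC
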