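import Pool.Agent.PellSC.Sym

/-!
# Gegenbauer polynomials at 0 (terminating Gauss second theorem)
-/

set_option autoImplicit false
set_option linter.unusedSectionVars false
set_option linter.unusedVariables false

namespace Pool.Agent.PellSC

open Finset Polynomial

/-- falling factorial in a ring -/
def df {R : Type*} [CommRing R] (x : R) (k : ℕ) : R := ∏ i ∈ range k, (x - (i : R))

section ring

variable {R : Type*} [CommRing R]

@[simp] lemma df_zero (x : R) : df x 0 = 1 := by simp [df]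
lemma df_succ (x : R) (k : ℕ) : df x (k + 1) = df x k * (x - k) := by simp [df, prod_range_succ]
lemma df_succ' (x : R) (k : ℕ) : df x (k + 1) = x * df (x - 1) k := by
  unfold df
  rw [prod_range_succ', mul_comm]
  simp only [Nat.cast_zero, sub_zero]
  congr 1
  refine prod_congr rfl fun i _ => ?_
  push_cast; ring

lemma df_nat (N k : ℕ) : df (N : R) k = ((N.descFactorial k : ℕ) : R) := by
  induction k with
  | zero => simp
  | succ k ih =>
    rw [df_succ, ih, Nat.descFactorial_succ]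
    by_cases h : k ≤ N
    · rw [Nat.cast_mul, Nat.cast_sub h]; ring
    · rw [Nat.descFactorial_eq_zero_iff_lt.2 (by omega)]; simp

lemma df_map {R' : Type*} [CommRing R'] (f : R →+* R') (x : R) (k : ℕ) : f (df x k) = df (f x) k := by
  unfold df
  simp

lemma coeff_one_sub_X_pow (k m : ℕ) : ((1 - X : R[X]) ^ k).coeff m = (-1) ^ m * (k.choose m : R) := by
  have e1 : ((1 - X : R[X]) ^ k) = ∑ m ∈ range (k + 1), C ((-1) ^ m * (k.choose m : R)) * X ^ m := by
    have : (1 - X : R[X]) = -X + 1 := by ring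
    rw [this, add_pow]
    refine sum_congr rfl fun m _ => ?_
    rw [one_pow, mul_one, C_mul, C_pow, C_neg, C_1, C_eq_natCast, neg_pow]
    ring
  rw [e1, finsetSum_coeff]
  simp only [coeff_C_mul_X_pow]
  rw [sum_ite_eq]
  split_ifs with h
  · rfl
  · rw [mem_range, not_lt] at h
    rw [Nat.choose_eq_zero_of_lt (by omega)]; simp

end ring

/-- `∑_j (-2)^j C(N,j) C(2(N-j), 2M-j) = C(N,M)` -/
lemma geg_int (N M : ℕ) : ∑ j ∈ range (2 * M + 1), (-2 : ℤ) ^ j * (N.choose j : ℤ) * ((2 * (N - j)).choose (2 * M - j) : ℤ) = (N.choose M : ℤ) := by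
  have h1 : ((1 + X ^ 2 : ℤ[X]) ^ N).coeff (2 * M) = (N.choose M : ℤ) := by
    rw [coeff_one_add_sq]
    have : 2 * M / 2 = M := by omega
    rw [if_pos (Dvd.intro _ rfl), this]
  have h2 : (1 + X ^ 2 : ℤ[X]) = 2 * X + (1 - X) ^ 2 := by ring
  rw [← h1, h2, add_pow, finsetSum_coeff]
  have e1 : ∀ j ∈ range (N + 1), ((2 * X : ℤ[X]) ^ j * ((1 - X) ^ 2) ^ (N - j) * ((N.choose j : ℕ) : ℤ[X])).coeff (2 * M)
      = if j ≤ 2 * M then (-2 : ℤ) ^ j * (N.choose j : ℤ) * ((2 * (N - j)).choose (2 * M - j) : ℤ) else 0 := by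
    intro j _
    have a3 : (2 * X : ℤ[X]) ^ j * ((1 - X) ^ 2) ^ (N - j) * ((N.choose j : ℕ) : ℤ[X])
        = C (2 ^ j * (N.choose j : ℤ)) * (X ^ j * (1 - X) ^ (2 * (N - j))) := by
      simp only [C_mul, C_pow, C_eq_natCast, mul_pow, pow_mul]
      rw [show (C 2 : ℤ[X]) = 2 from rfl]
      ring
    rw [a3, coeff_C_mul, coeff_X_pow_mul']
    split_ifs with h
    · rw [coeff_one_sub_X_pow]
      have e2 : (-1 : ℤ) ^ (2 * M - j) = (-1) ^ j := by
        have : (-1 : ℤ) ^ (2 * M - j) * (-1) ^ j = 1 := by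
          rw [← pow_add]
          have : 2 * M - j + j = 2 * M := by omega
          rw [this, pow_mul]; simp
        have h3 : (-1 : ℤ) ^ j * (-1) ^ j = 1 := by rw [← mul_pow]; simp
        calc (-1 : ℤ) ^ (2 * M - j) = (-1 : ℤ) ^ (2 * M - j) * ((-1) ^ j * (-1) ^ j) := by rw [h3, mul_one]
          _ = ((-1 : ℤ) ^ (2 * M - j) * (-1) ^ j) * (-1) ^ j := by ring
          _ = (-1) ^ j := by rw [this, one_mul]
      rw [e2]
      have e3 : (-2 : ℤ) ^ j = 2 ^ j * (-1) ^ j := by rw [← mul_pow]; norm_num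
      rw [e3]; ring
    · simp
  rw [sum_congr rfl e1]
  -- both sums equal the sum over a common range
  have e4 : ∑ j ∈ range (N + 1), (if j ≤ 2 * M then (-2 : ℤ) ^ j * (N.choose j : ℤ) * ((2 * (N - j)).choose (2 * M - j) : ℤ) else 0)
      = ∑ j ∈ range (N + 1 + (2 * M + 1)), (if j ≤ 2 * M then (-2 : ℤ) ^ j * (N.choose j : ℤ) * ((2 * (N - j)).choose (2 * M - j) : ℤ) else 0) := by
    apply sum_subset
    · intro k hk; rw [mem_range] at *; omega
    · intro k _ hk
      rw [mem_range, not_lt] at hk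
      rw [Nat.choose_eq_zero_of_lt (by omega : N < k)]; simp
  rw [e4]
  have e5 : ∑ j ∈ range (2 * M + 1), (-2 : ℤ) ^ j * (N.choose j : ℤ) * ((2 * (N - j)).choose (2 * M - j) : ℤ)
      = ∑ j ∈ range (2 * M + 1), (if j ≤ 2 * M then (-2 : ℤ) ^ j * (N.choose j : ℤ) * ((2 * (N - j)).choose (2 * M - j) : ℤ) else 0) := by
    refine sum_congr rfl fun j hj => ?_
    rw [mem_range] at hj
    rw [if_pos (by omega)]
  rw [e5]
  apply sum_subset
  · intro k hk; rw [mem_range] at *; omega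
  · intro k _ hk
    rw [mem_range, not_lt] at hk
    rw [if_neg (by omega)]

/-- polynomial version -/
lemma geg_poly (M : ℕ) : ∑ j ∈ range (2 * M + 1), (-2 : ℤ[X]) ^ j * ((2 * M).choose j : ℤ[X]) * (df (X : ℤ[X]) j * df (2 * X - 2 * (j : ℤ[X])) (2 * M - j))
    = (M.factorial : ℤ[X]) * (M.centralBinom : ℤ[X]) * df X M := by
  apply Polynomial.eq_of_infinite_eval_eq
  apply Set.infinite_of_injective_forall_mem (f := fun N : ℕ => (N : ℤ)) Nat.cast_injective
  intro N
  rw [Set.mem_ofPred_eq, eval_finsetSum]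
  have ev : ∀ (f : ℤ[X]) (k : ℕ), eval (N : ℤ) (df f k) = df (eval (N : ℤ) f) k := by
    intro f k
    exact df_map (evalRingHom (N : ℤ)) f k
  have e1 : ∀ j ∈ range (2 * M + 1), eval (N : ℤ) ((-2 : ℤ[X]) ^ j * ((2 * M).choose j : ℤ[X]) * (df (X : ℤ[X]) j * df (2 * X - 2 * (j : ℤ[X])) (2 * M - j)))
      = ((2 * M).factorial : ℤ) * ((-2 : ℤ) ^ j * (N.choose j : ℤ) * ((2 * (N - j)).choose (2 * M - j) : ℤ)) := by
    intro j hj
    rw [mem_range] at hj
    simp only [eval_mul, eval_pow, eval_natCast, ev, eval_X, eval_sub, eval_neg, eval_ofNat]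
    by_cases hjN : j ≤ N
    · have h2 : (2 * (N : ℤ) - 2 * (j : ℤ)) = ((2 * (N - j) : ℕ) : ℤ) := by
        push_cast [Nat.cast_sub hjN]; ring
      rw [h2, df_nat, df_nat, Nat.descFactorial_eq_factorial_mul_choose, Nat.descFactorial_eq_factorial_mul_choose]
      have h3 := Nat.choose_mul_factorial_mul_factorial (by omega : j ≤ 2 * M)
      have h4 : ((2 * M).choose j : ℤ) * (j.factorial : ℤ) * ((2 * M - j).factorial : ℤ) = ((2 * M).factorial : ℤ) := by exact_mod_cast h3
      push_cast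
      linear_combination ((-2 : ℤ) ^ j * (N.choose j : ℤ) * ((2 * (N - j)).choose (2 * M - j) : ℤ)) * h4
    · rw [df_nat, Nat.descFactorial_eq_zero_iff_lt.2 (by omega), Nat.choose_eq_zero_of_lt (by omega : N < j)]
      simp
  rw [sum_congr rfl e1, ← mul_sum, geg_int]
  simp only [eval_mul, eval_natCast, ev, eval_X]
  rw [df_nat, Nat.descFactorial_eq_factorial_mul_choose]
  have h5 := Nat.choose_mul_factorial_mul_factorial (by omega : M ≤ 2 * M)
  have h6 : 2 * M - M = M := by omega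
  rw [h6] at h5
  have h7 : (M.centralBinom : ℤ) * (M.factorial : ℤ) * (M.factorial : ℤ) = ((2 * M).factorial : ℤ) := by exact_mod_cast h5
  push_cast
  linear_combination (-(N.choose M : ℤ)) * h7

lemma geg_ring {R : Type*} [CommRing R] (M : ℕ) (x : R) :
    ∑ j ∈ range (2 * M + 1), (-2 : R) ^ j * ((2 * M).choose j : R) * (df x j * df (2 * x - 2 * (j : R)) (2 * M - j))
    = (M.factorial : R) * (M.centralBinom : R) * df x M := by
  have h := congrArg (eval₂ (Int.castRingHom R) x) (geg_poly M)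
  have ev : ∀ (f : ℤ[X]) (k : ℕ), eval₂ (Int.castRingHom R) x (df f k) = df (eval₂ (Int.castRingHom R) x f) k := by
    intro f k
    exact df_map (eval₂RingHom (Int.castRingHom R) x) f k
  rw [eval₂_finsetSum] at h
  simp only [eval₂_mul, eval₂_pow, eval₂_natCast, ev, eval₂_X, eval₂_sub, eval₂_neg, eval₂_ofNat] at h
  exact h

end Pool.Agent.PellSC
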