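import Pool.Agent.PellSC.AsmC
import Pool.Agent.Pell.SignMain

/-!
# Concrete extensions: `ZMod (p^2)` and `W(F_{p²})/p²`
-/

set_option autoImplicit false
set_option linter.unusedSectionVars false
set_option linter.unusedVariables false

namespace Pool.Agent.PellSC

open Finset

section Z
variable (p : ℕ) [hpr : Fact p.Prime]

/-- `ZMod (p^2)` as an extension of `ZMod p` -/
noncomputable def Zext : SqExt p (ZMod (p ^ 2)) (ZMod p) where
  ρ := Pell.red p
  surj := Pell.red_surj
  hp2 := (pow_two _).trans (Pell.p_mul_p (p := p))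
  ker := fun a h => by
    obtain ⟨c, hc⟩ := Pell.exists_eps_of_red_eq_zero h
    exact ⟨_, hc⟩
  ann := fun a h => (Pell.p_mul_eq_zero_iff a).1 h

lemma Zext_w (c : ZMod p) : (Zext p).w c = Pell.eps p c := by
  obtain ⟨a, rfl⟩ := Pell.red_surj c
  rw [Pell.eps_red]
  exact (Zext p).w_rho a

lemma har_eq_Har (m : ℕ) : har (ZMod p) m = Pell.Har p m := rfl

end Z

section W
variable (p : ℕ) [hpr : Fact p.Prime] (k : Type) [Field k] [Fintype k] [DecidableEq k] [CharP k p]

/-- `W(k)/p²` as an extension of `k` -/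
noncomputable def Wext : SqExt p (Pell.W2 p k) k where
  ρ := Ideal.Quotient.lift _ (WittVector.constantCoeff (p := p) (R := k)) (by
    intro a ha
    rw [Ideal.mem_span_singleton] at ha
    obtain ⟨b, rfl⟩ := ha
    rw [map_mul, map_pow, map_natCast, CharP.cast_eq_zero]
    ring)
  surj := by
    intro x
    refine ⟨Ideal.Quotient.mk _ (WittVector.teichmuller p x), ?_⟩
    rw [Ideal.Quotient.lift_mk]
    exact WittVector.teichmuller_coeff_zero p x
  hp2 := by rw [pow_two]; exact Pell.W2_p_sq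
  ker := by
    intro a ha
    obtain ⟨x, rfl⟩ := Pell.mk2_surj (p := p) (k := k) a
    have h1 : x.coeff 0 = 0 := ha
    rw [← Pell.p_dvd_iff] at h1
    obtain ⟨y, rfl⟩ := h1
    exact ⟨Pell.mk2 y, by rw [map_mul, map_natCast]⟩
  ann := by
    intro a ha
    obtain ⟨x, rfl⟩ := Pell.mk2_surj (p := p) (k := k) a
    have h0 : Pell.mk2 ((p : WittVector p k) * x) = 0 := by rw [map_mul, map_natCast]; exact ha
    rw [Pell.mk2_eq_zero_iff, pow_two] at h0
    have h1 := (mul_dvd_mul_iff_left Pell.W_p_ne_zero).mp h0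
    exact (Pell.p_dvd_iff x).1 h1

end W

section lift
variable {p : ℕ} {A F : Type*} [CommRing A] [Field F] (S : SqExt p A F)
include S

/-- Hensel lift of a square root of an integer -/
lemma exists_sqrt (hF2 : (2 : F) ≠ 0) {s : F} {a : A} (hs : s ^ 2 = S.ρ a) (hs0 : s ≠ 0) :
    ∃ r : A, r ^ 2 = a ∧ S.ρ r = s := by
  obtain ⟨r0, hr0⟩ := S.surj s
  obtain ⟨c, hc⟩ := S.exists_add_w (a := r0 ^ 2) (b := a) (by rw [map_pow, hr0, hs])
  refine ⟨r0 + S.w (-c / (2 * s)), ?_, by rw [map_add, S.rho_w, hr0, add_zero]⟩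
  have e1 := S.w_mul_w (-c / (2 * s)) (-c / (2 * s))
  have e2 : 2 * r0 * S.w (-c / (2 * s)) = S.w (-c) := by
    rw [S.mul_w, map_mul, map_ofNat, hr0]
    congr 1
    field_simp
  have e3 := S.w_neg c
  linear_combination hc + e1 + e2 + e3

lemma charA (hp : p.Prime) [CharP F p] : CharP A (p ^ 2) := by
  refine ⟨fun x => ⟨fun h => ?_, ?_⟩⟩
  · have h1 := congrArg S.ρ h
    rw [map_natCast, map_zero, CharP.cast_eq_zero_iff F p] at h1
    obtain ⟨m, rfl⟩ := h1
    rw [Nat.cast_mul] at h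
    have h2 := S.ann _ h
    rw [map_natCast, CharP.cast_eq_zero_iff F p] at h2
    obtain ⟨t, rfl⟩ := h2
    exact ⟨t, by ring⟩
  · rintro ⟨m, rfl⟩
    rw [Nat.cast_mul, Nat.cast_pow, S.hp2, zero_mul]

end lift

end Pool.Agent.PellSC
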