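import Pool.Agent.PellSC.Glue1

/-!
# Conversion of binomials, sign
-/

set_option autoImplicit false
set_option linter.unusedSectionVars false
set_option linter.unusedVariables false

namespace Pool.Agent.PellSC

open Finset

section ext
variable {p n : ℕ} {A F : Type*} [CommRing A] [Field F] (S : SqExt p A F)
variable [hpr : Fact p.Prime] [CharP F p]

include S

lemma neg_two_pow_w (hp : p = 2 * n + 1) (hs : ((-2 : F)) ^ n = 1) : (-2 : A) ^ n = 1 + S.w (-(har F n) / 4) := by
  have hF2 : (2 : F) ≠ 0 := two_ne (p := p) hp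
  have k3 : (-1) ^ n * ((2 * n).choose n : A) = 1 - S.w (har F n) := by
    have := choose_pred S n (by omega)
    have e : p - 1 = 2 * n := by omega
    rwa [e] at this
  have k4 := choose_half S hp n le_rfl
  rw [Nat.choose_self, Nat.cast_one, mul_one, od_refl (F := F) (p := p) hp n le_rfl, Nat.sub_self, har_zero, sub_zero, Nat.centralBinom] at k4
  have m11 : (-1 : A) ^ n * (-1) ^ n = 1 := by rw [← mul_pow]; simp
  set ν : A := (-2) ^ n with hν
  have k5 : ν ^ 2 = 1 + S.w (-(har F n) / 2) := by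
    have e1 : ν ^ 2 = (-1) ^ n * (-4) ^ n := by
      rw [hν, ← pow_mul, mul_comm n 2, pow_mul, ← mul_pow]; norm_num
    rw [e1, k4]
    have m1 := S.w_mul_w (har F n) (-har F n / 2)
    have e2 : har F n = (-har F n / 2) * (-2) := by field_simp
    have e3 : S.w (har F n) = -2 * S.w (-har F n / 2) := by
      rw [S.mul_w]
      simp only [map_neg, map_ofNat]
      congr 1
      field_simp
    rw [← mul_assoc, k3]
    linear_combination m1 - e3
  have := sqrt_one_add_w S hF2 (a := ν) (by rw [hν, map_pow, map_neg, map_ofNat]; exact hs) k5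
  rw [this]
  congr 2
  have : (4 : F) = 2 * 2 := by norm_num
  rw [this]
  field_simp

/-- `16^M C(n,M)² (1 + w(2H_n - H_M/2)) = C(2M,M)² (1 + w(H_M/2 - H_n))` -/
lemma choose_conv (hp : p = 2 * n + 1) {M : ℕ} (hM : n = 4 * M ∨ n = 4 * M + 1) :
    (16 : A) ^ M * ((n.choose M : A) ^ 2 * (1 + S.w (2 * har F n - har F M / 2)))
      = (M.centralBinom : A) ^ 2 * (1 + S.w (har F M / 2 - har F n)) := by
  have hF2 : (2 : F) ≠ 0 := two_ne (p := p) hp
  have h1 := choose_half S hp M (by omega)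
  rw [od_M (F := F) (p := p) hp hM] at h1
  have e16 : (16 : A) ^ M = (-4) ^ M * (-4) ^ M := by rw [← mul_pow]; norm_num
  have e2 : (16 : A) ^ M * (n.choose M : A) ^ 2 = (M.centralBinom : A) ^ 2 * (1 - S.w (3 / 2 * har F n - har F M / 2)) ^ 2 := by
    rw [e16]
    linear_combination ((-4) ^ M * (n.choose M : A) + (M.centralBinom : A) * (1 - S.w (3 / 2 * har F n - har F M / 2))) * h1
  have m1 := S.w_mul_w (3 / 2 * har F n - har F M / 2) (3 / 2 * har F n - har F M / 2)
  have m2 := S.w_mul_w (3 / 2 * har F n - har F M / 2) (2 * har F n - har F M / 2)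
  have e3 : S.w (har F M / 2 - har F n) = S.w (2 * har F n - har F M / 2) - 2 * S.w (3 / 2 * har F n - har F M / 2) := by
    rw [S.mul_w, ← S.w_sub]
    congr 1
    rw [map_ofNat]
    field_simp
    ring
  rw [← mul_assoc, e2, e3]
  linear_combination ((M.centralBinom : A) ^ 2 * (1 + S.w (2 * har F n - har F M / 2))) * m1 - (2 * (M.centralBinom : A) ^ 2) * m2

end ext

section Z
variable {p : ℕ} [hpr : Fact p.Prime] {n : ℕ}

/-- the key value in `ZMod (p^2)` -/
lemma key_value (hp : p = 2 * n + 1) {M : ℕ} (hM : n = 4 * M ∨ n = 4 * M + 1) (hp3 : p ≠ 3)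
    (hs : ((-2 : ZMod p)) ^ n = 1) (x y : ℤ) (hxy : x ^ 2 + 2 * y ^ 2 = p) :
    (n.choose M : ZMod (p ^ 2)) ^ 2 * (1 + (Zext p).w (2 * har (ZMod p) n - har (ZMod p) M / 2)) =
      4 * (x : ZMod (p ^ 2)) ^ 2 - 2 * (p : ZMod (p ^ 2)) := by
  have h2 : (2 : ZMod p) ≠ 0 := two_ne (p := p) hp
  have h4 : (4 : ZMod p) ≠ 0 := by
    have : (4 : ZMod p) = 2 * 2 := by norm_num
    rw [this]; exact mul_ne_zero h2 h2
  have hpart : (-2 : ZMod (p ^ 2)) ^ n * Pell.Kf p M ^ 2 = 4 * (x : ZMod (p ^ 2)) ^ 2 - 2 * (p : ZMod (p ^ 2)) := by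
    rcases hM with h | h
    · have := Pell.part2_A M (by omega) x y hxy
      rw [h, Even.neg_pow ⟨2 * M, by ring⟩]
      exact this
    · have := Pell.part2_B M (by omega) (by omega) x y hxy
      rw [h, Odd.neg_pow ⟨2 * M, by ring⟩]
      exact this
  have hk := Pell.Kf_sq (p := p) M h4 h2
  have hc := choose_conv (Zext p) hp hM
  have hν := neg_two_pow_w (Zext p) hp hs
  apply (Zext p).cancel (a := (16 : ZMod (p ^ 2)) ^ M)
  · rw [map_pow, map_ofNat]
    apply pow_ne_zero
    have : (16 : ZMod p) = 4 * 4 := by norm_num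
    rw [this]; exact mul_ne_zero h4 h4
  rw [hc, ← hpart, hν]
  have e1 : Pell.uu p ((Pell.Har p M - Pell.Har p (2 * M)) / 2) = 1 + (Zext p).w ((har (ZMod p) M - 3 / 2 * har (ZMod p) n) / 2) := by
    unfold Pell.uu
    rw [Zext_w, ← har_2M (F := ZMod p) (p := p) hp hM]
    rfl
  rw [e1] at hk
  have e2 : (1 + (Zext p).w (-(har (ZMod p) n) / 4)) * (1 + (Zext p).w ((har (ZMod p) M - 3 / 2 * har (ZMod p) n) / 2))
      = 1 + (Zext p).w (har (ZMod p) M / 2 - har (ZMod p) n) := by
    rw [(Zext p).one_add_w_mul]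
    congr 2
    have : (4 : ZMod p) = 2 * 2 := by norm_num
    rw [this]
    field_simp
    ring
  rw [← e2]
  have e3 : (((2 * M).choose M : ℕ) : ZMod (p ^ 2)) = (M.centralBinom : ZMod (p ^ 2)) := rfl
  rw [e3] at hk
  linear_combination (-(1 + (Zext p).w (-(har (ZMod p) n) / 4))) * hk

end Z

end Pool.Agent.PellSC
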