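import Pool.Agent.PellSC.Final1
import Pool.Agent.PellSC.AsmE

/-!
# The value of `S₁` in `ZMod (p^2)`; Q2
-/

set_option autoImplicit false
set_option linter.unusedSectionVars false
set_option linter.unusedVariables false

namespace Pool.Agent.PellSC

open Finset

/-- `S₁` in a ring with `2h = 1` -/
def S1R (A : Type*) [CommRing A] (p : ℕ) (h : A) : A :=
  ∑ k ∈ range p, (k : A) * (pellQ k : A) * (k.centralBinom : A) ^ 2 * (-h ^ 3) ^ k

lemma S1R_eq {A : Type*} [CommRing A] (p : ℕ) {h r : A} (hh : 2 * h = 1) (hr : r ^ 2 = 2) : S1R A p h = S1A A p h r := by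
  unfold S1R S1A FsD cc
  rw [← sum_add_distrib]
  refine sum_congr rfl fun k _ => ?_
  rw [← pellQ_eq r hr k]
  have e1 : (-h ^ 3) ^ k = (h ^ 4) ^ k * (-2) ^ k := by
    rw [← mul_pow]; congr 1
    linear_combination (h ^ 3) * hh
  have e2 : (h ^ (2 * k)) ^ 2 = (h ^ 4) ^ k := by rw [← pow_mul, ← pow_mul]; congr 1; ring
  rw [mul_pow, mul_pow, mul_pow, e1, e2]
  ring

lemma S1R_map {A B : Type*} [CommRing A] [CommRing B] (f : A →+* B) (p : ℕ) (h : A) : f (S1R A p h) = S1R B p (f h) := by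
  unfold S1R
  rw [map_sum]
  refine sum_congr rfl fun k _ => ?_
  simp

section Z
variable {p : ℕ} [hpr : Fact p.Prime] {n : ℕ}

theorem S1_main_aux (F : Type) [Field F] [Fintype F] [DecidableEq F] [CharP F p] (f : ZMod p →+* F) {z : F} (hz : z ^ 4 = -1)
    (hp8 : p % 8 = 1 ∨ p % 8 = 3) (hp3 : p ≠ 3) {h : ZMod (p ^ 2)} (hh : 2 * h = 1) (x y : ℤ)
    (hxy : x ^ 2 + 2 * y ^ 2 = p) (hx : x % 4 = 1) :
    (p % 8 = 1 → S1R (ZMod (p ^ 2)) p h = 0) ∧
    (p % 8 = 3 → (x : ZMod (p ^ 2)) * S1R (ZMod (p ^ 2)) p h = 2 * (x : ZMod (p ^ 2)) ^ 2 + 2 * (p : ZMod (p ^ 2))) := by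
  have hS0 := S0_main_aux F f hz hp8 hp3 hh x y hxy hx
  obtain ⟨M, n, hp, hM, hpM⟩ : ∃ M n, p = 2 * n + 1 ∧ (n = 4 * M ∨ n = 4 * M + 1) ∧ (p = 8 * M + 1 ∨ p = 8 * M + 3) := by
    rcases hp8 with h | h
    · exact ⟨p / 8, 4 * (p / 8), by omega, Or.inl rfl, Or.inl (by omega)⟩
    · exact ⟨p / 8, 4 * (p / 8) + 1, by omega, Or.inr rfl, Or.inr (by omega)⟩
  have hpp := hpr.out.two_le
  have hn : 0 < n := by omega
  have hZ2 : (2 : ZMod p) ≠ 0 := two_ne (p := p) hp
  let A := Pell.W2 p F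
  let S : SqExt p A F := Wext p F
  have hF2 : (2 : F) ≠ 0 := two_ne (p := p) hp
  haveI : CharP A (p ^ 2) := charA S hpr.out
  let ι : ZMod (p ^ 2) →+* A := ZMod.castHom (dvd_refl _) A
  have hιi : Function.Injective ι := ZMod.castHom_injective A
  obtain ⟨r, hr, hrz⟩ := exists_sqrt S hF2 (s := z - z ^ 3) (a := (2 : A)) (by
    rw [map_ofNat]; linear_combination (z ^ 2 - 2) * hz) (by
    intro h0
    have : (z - z ^ 3) ^ 2 = 2 := by linear_combination (z ^ 2 - 2) * hz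
    rw [h0] at this
    apply hF2
    rw [← this]; ring)
  have hhA : 2 * ι h = 1 := by
    have := congrArg ι hh
    rwa [map_mul, map_one, map_ofNat] at this
  obtain ⟨v1, v2⟩ := S0_value S hp hn hM hhA hz hr hrz
  -- x nonzero mod p
  have hx0 : (x : ZMod p) ≠ 0 := by
    intro h0
    rw [ZMod.intCast_zmod_eq_zero_iff_dvd] at h0
    have hle : x ^ 2 ≤ p := by nlinarith [sq_nonneg y]
    have hxne : x ≠ 0 := by rintro rfl; omega
    have h3 : (p : ℤ) ≤ |x| := Int.le_of_dvd (abs_pos.mpr hxne) ((dvd_abs _ _).mpr h0)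
    have h4 : |x| ^ 2 = x ^ 2 := sq_abs x
    have h5 : (2 : ℤ) ≤ p := by exact_mod_cast hpp
    nlinarith
  have hxF : (x : F) ≠ 0 := by
    have : f (x : ZMod p) = (x : F) := map_intCast f x
    rw [← this]
    exact (map_ne_zero f).2 hx0
  -- reduction of S0
  have hS0A := congrArg ι hS0
  rw [map_mul, map_intCast, S0R_map, S0R_eq p hhA hr] at hS0A
  simp only [map_sub, map_mul, map_pow, map_intCast, map_natCast, map_ofNat] at hS0A
  have hred := congrArg S.ρ hS0A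
  simp only [map_sub, map_mul, map_pow, map_intCast, map_natCast, map_ofNat] at hred
  rw [v1, S.p_zero, sub_zero] at hred
  have hred' : (-1 : F) ^ (M + n) * (n.choose M : F) = 2 * (x : F) := by
    apply mul_left_cancel₀ hxF
    apply mul_left_cancel₀ hF2
    linear_combination hred
  have hCM : (n.choose M : F) ≠ 0 := by
    intro h0
    rw [h0, mul_zero] at hred'
    exact (mul_ne_zero hF2 hxF) hred'.symm
  obtain ⟨w1, w3⟩ := S1_value S hp hn hM hhA hz hr hrz hCM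
  constructor
  · intro h8
    have hM1 : n = 4 * M := by
      rcases hM with h | h
      · exact h
      · exfalso; omega
    apply hιi
    rw [map_zero, S1R_map, S1R_eq p hhA hr]
    exact w1 hM1
  · intro h8
    have hM3 : n = 4 * M + 1 := by
      rcases hM with h | h
      · exfalso; omega
      · exact h
    have w := w3 hM3
    have hev : (-1 : F) ^ n = -1 := by rw [hM3, pow_succ, pow_mul]; norm_num
    have m2 : (-1 : F) ^ M * (-1) ^ M = 1 := by rw [← mul_pow]; simp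
    rw [pow_add, hev] at hred'
    have hw5 : (x : A) * S.w (10 * (-1) ^ M * (n.choose M : F)⁻¹) = -(5 * p) := by
      have a1 : -(5 * (p : A)) = S.w (-5) := by
        have := S.w_rho (-5 : A)
        rw [map_neg, map_ofNat] at this
        rw [this]; ring
      rw [a1, S.mul_w, map_intCast]
      congr 1
      have a2 : (n.choose M : F) * (n.choose M : F)⁻¹ = 1 := mul_inv_cancel₀ hCM
      linear_combination (-5 * (-1) ^ M * (n.choose M : F)⁻¹) * hred' - (5 * (n.choose M : F) * (n.choose M : F)⁻¹) * m2 - 5 * a2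
    apply (Zext p).cancel (a := (2 : ZMod (p ^ 2))) (by rw [map_ofNat]; exact hZ2)
    apply hιi
    rw [map_mul, map_mul, map_intCast, S1R_map, S1R_eq p hhA hr]
    simp only [map_add, map_mul, map_pow, map_intCast, map_natCast, map_ofNat]
    linear_combination (x : A) * w + hS0A - hw5

theorem S1_main (hp8 : p % 8 = 1 ∨ p % 8 = 3) (hp3 : p ≠ 3) {h : ZMod (p ^ 2)} (hh : 2 * h = 1) (x y : ℤ)
    (hxy : x ^ 2 + 2 * y ^ 2 = p) (hx : x % 4 = 1) :
    (p % 8 = 1 → S1R (ZMod (p ^ 2)) p h = 0) ∧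
    (p % 8 = 3 → (x : ZMod (p ^ 2)) * S1R (ZMod (p ^ 2)) p h = 2 * (x : ZMod (p ^ 2)) ^ 2 + 2 * (p : ZMod (p ^ 2))) := by
  classical
  let _ : Fintype (GaloisField p 2) := Fintype.ofFinite _
  obtain ⟨z, hz⟩ := exists_z (p := p) hp8
  exact S1_main_aux (GaloisField p 2) (algebraMap (ZMod p) (GaloisField p 2)) hz hp8 hp3 hh x y hxy hx

end Z

/-- integer numerator of `S_1` -/
def N1 (p : ℕ) : ℤ := ∑ k ∈ range p, (-1) ^ k * (k : ℤ) * pellQ k * (k.centralBinom : ℤ) ^ 2 * 8 ^ (p - 1 - k)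

lemma S1_mul (p : ℕ) : (8 : ℚ) ^ (p - 1) * Stmt.S1 p = (N1 p : ℚ) := by
  unfold Stmt.S1 N1
  rw [mul_sum, Int.cast_sum]
  refine sum_congr rfl fun k hk => ?_
  rw [mem_range] at hk
  have e1 : (8 : ℚ) ^ (p - 1) = 8 ^ (p - 1 - k) * 8 ^ k := by rw [← pow_add]; congr 1; omega
  have e2 : ((-8 : ℚ)) ^ k = (-1) ^ k * 8 ^ k := by rw [← mul_pow]; norm_num
  have h8 : (8 : ℚ) ^ k ≠ 0 := by positivity
  have h1 : ((-1 : ℚ)) ^ k ≠ 0 := pow_ne_zero _ (by norm_num)
  have h11 : ((-1 : ℚ)) ^ k * (-1) ^ k = 1 := by rw [← mul_pow]; simp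
  rw [Q_eq_pellQ, e1, e2, Nat.centralBinom]
  push_cast
  field_simp
  linear_combination (-((k : ℚ) * (pellQ k : ℚ) * (((2 * k).choose k : ℚ)) ^ 2)) * h11

lemma S1R_mul {A : Type*} [CommRing A] (p : ℕ) {h : A} (hh : 2 * h = 1) : (8 : A) ^ (p - 1) * S1R A p h = ((N1 p : ℤ) : A) := by
  unfold S1R N1
  rw [mul_sum, Int.cast_sum]
  refine sum_congr rfl fun k hk => ?_
  rw [mem_range] at hk
  have e1 : (8 : A) ^ (p - 1) = 8 ^ (p - 1 - k) * 8 ^ k := by rw [← pow_add]; congr 1; omega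
  have e2 : (8 : A) ^ k * (-h ^ 3) ^ k = (-1) ^ k := by
    rw [← mul_pow]; congr 1
    linear_combination (-(4 * h ^ 2 + 2 * h + 1)) * hh
  push_cast
  rw [e1]
  linear_combination (8 ^ (p - 1 - k) * (k : A) * (pellQ k : A) * (k.centralBinom : A) ^ 2) * e2

end Pool.Agent.PellSC
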