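import Pool.Agent.PellSC.Base

/-!
# Harmonic sums mod p and binomial coefficients mod p²
-/

set_option autoImplicit false
set_option linter.unusedSectionVars false
set_option linter.unusedVariables false

namespace Pool.Agent.PellSC

open Finset

/-- harmonic sum in a field -/
noncomputable def har (F : Type*) [Field F] (k : ℕ) : F := ∑ j ∈ range k, ((j + 1 : ℕ) : F)⁻¹

/-- odd harmonic sum in a field -/
noncomputable def od (F : Type*) [Field F] (k : ℕ) : F := ∑ j ∈ range k, ((2 * j + 1 : ℕ) : F)⁻¹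

section field

variable {F : Type*} [Field F]

@[simp] lemma har_zero : har F 0 = 0 := by simp [har]
@[simp] lemma od_zero : od F 0 = 0 := by simp [od]
lemma har_succ (k : ℕ) : har F (k + 1) = har F k + ((k + 1 : ℕ) : F)⁻¹ := by
  simp [har, sum_range_succ]
lemma od_succ (k : ℕ) : od F (k + 1) = od F k + ((2 * k + 1 : ℕ) : F)⁻¹ := by
  simp [od, sum_range_succ]

variable {p n : ℕ} [Fact p.Prime] [CharP F p]

lemma cast_ne_zero' (k : ℕ) (h0 : 0 < k) (h : k < p) : (k : F) ≠ 0 := by
  intro h1
  have := (CharP.cast_eq_zero_iff F p k).1 h1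
  exact absurd (Nat.le_of_dvd h0 this) (by omega)

/-- even/odd splitting -/
lemma har_two_mul (k : ℕ) (h2 : (2 : F) ≠ 0) : har F (2 * k) = od F k + har F k / 2 := by
  induction k with
  | zero => simp
  | succ k ih =>
    have e : 2 * (k + 1) = (2 * k + 1) + 1 := by ring
    rw [e, har_succ, har_succ, ih, od_succ, har_succ]
    have e2 : (((2 * k + 1) + 1 : ℕ) : F)⁻¹ = ((k + 1 : ℕ) : F)⁻¹ / 2 := by
      have : (((2 * k + 1) + 1 : ℕ) : F) = 2 * ((k + 1 : ℕ) : F) := by push_cast; ring
      rw [this, mul_inv]; ring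
    rw [e2]
    ring

/-- reflection -/
lemma od_refl (hp : p = 2 * n + 1) (k : ℕ) (hk : k ≤ n) : od F k = -(har F n - har F (n - k)) / 2 := by
  have hp2 : (2 : F) ≠ 0 := by
    have := Fact.out (p := p.Prime)
    have h3 : 2 < p := by
      rcases this.two_le.lt_or_eq with h | h
      · exact h
      · omega
    exact_mod_cast cast_ne_zero' (F := F) (p := p) 2 (by norm_num) h3
  induction k with
  | zero => simp
  | succ k ih =>
    rw [od_succ, ih (by omega)]
    have e : n - k = (n - (k + 1)) + 1 := by omega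
    rw [e, har_succ]
    have e2 : ((2 * k + 1 : ℕ) : F) = -2 * ((n - (k + 1) + 1 : ℕ) : F) := by
      have h1 : ((2 * k + 1 : ℕ) : F) + 2 * ((n - (k + 1) + 1 : ℕ) : F) = (p : F) := by
        rw [hp]
        have : (2 * n + 1 : ℕ) = (2 * k + 1) + 2 * (n - (k + 1) + 1) := by omega
        rw [this]
        push_cast
        ring
      rw [CharP.cast_eq_zero F p] at h1
      linear_combination h1
    rw [e2, mul_inv]
    field_simp
    ring

end field

section ext

variable {p n : ℕ} {A F : Type*} [CommRing A] [Field F] (S : SqExt p A F)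
variable [Fact p.Prime] [CharP F p]

include S

lemma rho_ne (k : ℕ) (h0 : 0 < k) (h : k < p) : S.ρ (k : A) ≠ 0 := by
  rw [map_natCast]; exact cast_ne_zero' k h0 h

/-- `(-1)^k C(p-1,k) = 1 - p H_k` -/
lemma choose_pred (k : ℕ) (hk : k < p) : ((-1) ^ k * ((p - 1).choose k : A)) = 1 - S.w (har F k) := by
  induction k with
  | zero => simp
  | succ k ih =>
    apply S.cancel (rho_ne S (k + 1) (by omega) hk)
    have h1 := Nat.choose_succ_right_eq (p - 1) k
    have h2 : ((p - 1).choose (k + 1) : A) * ((k + 1 : ℕ) : A) = ((p - 1).choose k : A) * (((p - 1 - k : ℕ)) : A) := by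
      exact_mod_cast congrArg (Nat.cast : ℕ → A) h1
    have h3 : ((p - 1 - k : ℕ) : A) = (p : A) - ((k + 1 : ℕ) : A) := by
      have : p - 1 - k = p - (k + 1) := by omega
      rw [this, Nat.cast_sub (by omega)]
    have h4 : ((k + 1 : ℕ) : A) * S.w (((k + 1 : ℕ) : F)⁻¹) = p := by
      rw [S.mul_w, map_natCast, mul_inv_cancel₀ (cast_ne_zero' (p := p) (k + 1) (by omega) hk)]
      have := S.w_rho 1
      rw [map_one, mul_one] at this
      exact this
    have h5 := S.w_mul_w (har F k) (((k + 1 : ℕ) : F)⁻¹)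
    have h6 := ih (by omega)
    have h7 : (p : A) * S.w (har F k) = 0 := by
      rw [S.mul_w, map_natCast, S.p_zero, zero_mul, S.w_zero]
    rw [har_succ, S.w_add, pow_succ]
    rw [h3] at h2
    linear_combination (-(-1) ^ k) * h2 + (((k + 1 : ℕ) : A) - p) * h6 + h4 + h7

/-- `(-4)^k C(n,k) = C(2k,k) (1 - p O_k)` -/
lemma choose_half (hp : p = 2 * n + 1) (k : ℕ) (hk : k ≤ n) :
    ((-4) ^ k * (n.choose k : A)) = (k.centralBinom : A) * (1 - S.w (od F k)) := by
  induction k with
  | zero => simp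
  | succ k ih =>
    apply S.cancel (rho_ne S (k + 1) (by omega) (by omega))
    have h1 := Nat.choose_succ_right_eq n k
    have h2 : (n.choose (k + 1) : A) * ((k + 1 : ℕ) : A) = (n.choose k : A) * ((n - k : ℕ) : A) := by
      exact_mod_cast congrArg (Nat.cast : ℕ → A) h1
    have h3 : 2 * ((n - k : ℕ) : A) = (p : A) - ((2 * k + 1 : ℕ) : A) := by
      rw [Nat.cast_sub (by omega), hp]
      push_cast
      ring
    have h4 : ((2 * k + 1 : ℕ) : A) * S.w (((2 * k + 1 : ℕ) : F)⁻¹) = p := by
      rw [S.mul_w, map_natCast, mul_inv_cancel₀ (cast_ne_zero' (p := p) (2 * k + 1) (by omega) (by omega))]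
      have := S.w_rho 1
      rw [map_one, mul_one] at this
      exact this
    have h6 := ih (by omega)
    have h7 : (p : A) * S.w (od F k) = 0 := by
      rw [S.mul_w, map_natCast, S.p_zero, zero_mul, S.w_zero]
    have h8 := Nat.succ_mul_centralBinom_succ k
    have h9 : ((k + 1 : ℕ) : A) * ((k + 1).centralBinom : A) = 2 * ((2 * k + 1 : ℕ) : A) * (k.centralBinom : A) := by
      exact_mod_cast congrArg (Nat.cast : ℕ → A) h8
    have h10 : (p : A) * S.w (((2 * k + 1 : ℕ) : F)⁻¹) = 0 := by
      rw [S.mul_w, map_natCast, S.p_zero, zero_mul, S.w_zero]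
    have h11 := S.w_mul_w (od F k) (((2 * k + 1 : ℕ) : F)⁻¹)
    rw [od_succ, S.w_add, pow_succ]
    have e1 : ((k + 1 : ℕ) : A) * ((-4) ^ k * -4 * ((n.choose (k + 1) : ℕ) : A)) = -2 * ((-4) ^ k * (n.choose k : A)) * (2 * ((n - k : ℕ) : A)) := by
      linear_combination (-4 * (-4) ^ k) * h2
    rw [e1, h3, h6]
    linear_combination (-(1 - (S.w (od F k) + S.w (((2 * k + 1 : ℕ) : F)⁻¹)))) * h9 + (2 * (k.centralBinom : A)) * h4 + (2 * (k.centralBinom : A)) * h7

end ext

end Pool.Agent.PellSC
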