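import Pool.Agent.PellSC.Harm

/-!
# The quadratic transformation of the truncated series, mod p²
-/

set_option autoImplicit false
set_option linter.unusedSectionVars false
set_option linter.unusedVariables false

namespace Pool.Agent.PellSC

open Finset

/-- sum over even numbers -/
lemma sum_even {R : Type*} [AddCommMonoid R] (g : ℕ → R) (N : ℕ) :
    ∑ k ∈ range (2 * N), (if 2 ∣ k then g k else 0) = ∑ j ∈ range N, g (2 * j) := by
  induction N with
  | zero => simp
  | succ N ih =>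
    have e : 2 * (N + 1) = (2 * N + 1) + 1 := by ring
    rw [e, sum_range_succ, sum_range_succ, ih, sum_range_succ]
    have h1 : 2 ∣ 2 * N := Dvd.intro _ rfl
    have h2 : ¬ 2 ∣ 2 * N + 1 := by omega
    simp [h1, h2]

lemma sum_even' {R : Type*} [AddCommMonoid R] (g : ℕ → R) (n : ℕ) (hg : ∀ k, n < k → g k = 0) :
    ∑ k ∈ range (n + 1), (if 2 ∣ k then g k else 0) = ∑ j ∈ range (n + 1), g (2 * j) := by
  rw [← sum_even g (n + 1)]
  apply sum_subset
  · intro k hk; rw [mem_range] at *; omega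
  · intro k _ hk
    rw [mem_range, not_lt] at hk
    rw [hg k (by omega)]; simp

section ring

variable {R : Type*} [CommRing R]

open Polynomial in
lemma coeff_one_add_sq (k m : ℕ) : ((1 + X ^ 2 : R[X]) ^ k).coeff m = if 2 ∣ m then (k.choose (m / 2) : R) else 0 := by
  have : (1 + X ^ 2 : R[X]) ^ k = expand R 2 ((1 + X) ^ k) := by
    simp
  rw [this, coeff_expand (by norm_num)]
  split_ifs with h
  · rw [coeff_one_add_X_pow]
  · rfl

/-- coefficient of `v^j` in `H` -/
def hc (R : Type*) [CommRing R] (n : ℕ) (h : R) (j : ℕ) : R := (n.choose (2 * j) : R) * (j.centralBinom : R) * h ^ (2 * j)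

/-- `H(v)` -/
def Hv (R : Type*) [CommRing R] (n : ℕ) (h v : R) : R := ∑ j ∈ range (n + 1), hc R n h j * v ^ j

open Polynomial in
/-- the exact quadratic transformation -/
lemma quad_trans (n : ℕ) (h u : R) (hh : 2 * h = 1) :
    ∑ k ∈ range (n + 1), (n.choose k : R) * (k.centralBinom : R) * (-(u * h)) ^ k * (1 + u) ^ (n - k) = Hv R n h (u ^ 2) := by
  have key : ((C (1 + u) * X + (-C (u * h)) * (1 + X) ^ 2 : R[X]) ^ n).coeff n = ((X + (-C (u * h)) * (1 + X ^ 2) : R[X]) ^ n).coeff n := by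
    congr 2
    have : (C (1 + u) : R[X]) = 1 + 2 * C (u * h) := by
      rw [show (2 : R[X]) = C 2 from rfl, ← C_mul, ← C_1, ← C_add]
      congr 1
      linear_combination (-u) * hh
    rw [this]
    ring
  rw [add_pow (C (1 + u) * X : R[X]) ((-C (u * h)) * (1 + X) ^ 2) n, add_pow (X : R[X]) ((-C (u * h)) * (1 + X ^ 2)) n, finsetSum_coeff, finsetSum_coeff] at key
  rw [← sum_range_reflect] at key
  have e1 : ∀ k ∈ range (n + 1), ((C (1 + u) * X : R[X]) ^ (n + 1 - 1 - k) * ((-C (u * h)) * (1 + X) ^ 2) ^ (n - (n + 1 - 1 - k)) * ((n.choose (n + 1 - 1 - k) : ℕ) : R[X])).coeff n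
      = (n.choose k : R) * (k.centralBinom : R) * (-(u * h)) ^ k * (1 + u) ^ (n - k) := by
    intro k hk
    rw [mem_range] at hk
    have a1 : n + 1 - 1 - k = n - k := by omega
    have a2 : n - (n - k) = k := by omega
    rw [a1, a2, Nat.choose_symm (by omega)]
    have a3 : (C (1 + u) * X : R[X]) ^ (n - k) * ((-C (u * h)) * (1 + X) ^ 2) ^ k * ((n.choose k : ℕ) : R[X])
        = C ((1 + u) ^ (n - k) * (-(u * h)) ^ k * (n.choose k : R)) * (X ^ (n - k) * (1 + X) ^ (2 * k)) := by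
      simp only [C_mul, C_pow, C_neg, C_eq_natCast]
      rw [mul_pow, mul_pow, pow_mul]
      ring
    rw [a3, coeff_C_mul]
    have a4 : (X ^ (n - k) * (1 + X : R[X]) ^ (2 * k)).coeff n = (k.centralBinom : R) := by
      have := coeff_X_pow_mul ((1 + X : R[X]) ^ (2 * k)) (n - k) k
      have a5 : k + (n - k) = n := by omega
      rw [a5] at this
      rw [this, coeff_one_add_X_pow]
      rfl
    rw [a4]; ring
  have e2 : ∀ m ∈ range (n + 1), ((X : R[X]) ^ m * ((-C (u * h)) * (1 + X ^ 2)) ^ (n - m) * ((n.choose m : ℕ) : R[X])).coeff n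
      = if 2 ∣ n - m then ((-(u * h)) ^ (n - m) * (n.choose (n - m) : R) * (((n - m).choose ((n - m) / 2) : ℕ) : R)) else 0 := by
    intro m hm
    rw [mem_range] at hm
    have a3 : (X : R[X]) ^ m * ((-C (u * h)) * (1 + X ^ 2)) ^ (n - m) * ((n.choose m : ℕ) : R[X])
        = C ((-(u * h)) ^ (n - m) * (n.choose m : R)) * (X ^ m * (1 + X ^ 2) ^ (n - m)) := by
      simp only [C_mul, C_pow, C_neg, C_eq_natCast]
      rw [mul_pow]
      ring
    rw [a3, coeff_C_mul]
    have a4 : (X ^ m * (1 + X ^ 2 : R[X]) ^ (n - m)).coeff n = if 2 ∣ n - m then (((n - m).choose ((n - m) / 2) : ℕ) : R) else 0 := by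
      have := coeff_X_pow_mul ((1 + X ^ 2 : R[X]) ^ (n - m)) m (n - m)
      have a5 : n - m + m = n := by omega
      rw [a5] at this
      rw [this, coeff_one_add_sq]
    rw [a4, Nat.choose_symm (by omega : m ≤ n)]
    split_ifs <;> ring
  rw [sum_congr rfl e1, sum_congr rfl e2] at key
  rw [key]
  rw [← sum_range_reflect]
  have e3 : ∀ j ∈ range (n + 1), (if 2 ∣ n - (n + 1 - 1 - j) then ((-(u * h)) ^ (n - (n + 1 - 1 - j)) * (n.choose (n - (n + 1 - 1 - j)) : R) * (((n - (n + 1 - 1 - j)).choose ((n - (n + 1 - 1 - j)) / 2) : ℕ) : R)) else 0)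
      = if 2 ∣ j then ((-(u * h)) ^ j * (n.choose j : R) * ((j.choose (j / 2) : ℕ) : R)) else 0 := by
    intro j hj
    rw [mem_range] at hj
    have : n - (n + 1 - 1 - j) = j := by omega
    rw [this]
  rw [sum_congr rfl e3, sum_even' (fun j => (-(u * h)) ^ j * (n.choose j : R) * ((j.choose (j / 2) : ℕ) : R)) n
    (fun k hk => by simp only [Nat.choose_eq_zero_of_lt hk]; simp)]
  unfold Hv hc
  refine sum_congr rfl fun j _ => ?_
  have a6 : 2 * j / 2 = j := by omega
  rw [a6, Even.neg_pow (even_two_mul j), Nat.centralBinom]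
  ring

end ring

section ext

variable {p n : ℕ} {A F : Type*} [CommRing A] [Field F] (S : SqExt p A F)
variable [hpr : Fact p.Prime] [CharP F p]

/-- `C(2k,k)/4^k` -/
def cc (R : Type*) [CommRing R] (h : R) (k : ℕ) : R := (k.centralBinom : R) * h ^ (2 * k)

/-- truncated hypergeometric series -/
def Fs (R : Type*) [CommRing R] (p : ℕ) (h l : R) : R := ∑ k ∈ range p, (cc R h k) ^ 2 * l ^ k

/-- the correction polynomial -/
noncomputable def Xc (F : Type*) [Field F] (n : ℕ) (h x : F) : F :=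
  ∑ k ∈ range (n + 1), (cc F h k) ^ 2 * od F k * ((2 * x) ^ k * (1 + x) ^ (n - k))

lemma centralBinom_zero (hp : p = 2 * n + 1) {k : ℕ} (h1 : n < k) (h2 : k < p) {R : Type*} [CommRing R] [CharP R p] : (k.centralBinom : R) = 0 := by
  have hp' := hpr.out
  rw [CharP.cast_eq_zero_iff R p]
  exact hp'.dvd_choose h2 (by omega) (by omega)

include S

lemma cc_sq (hp : p = 2 * n + 1) {h : A} (hh : 2 * h = 1) {k : ℕ} (hk : k ≤ n) :
    (cc A h k) ^ 2 = (n.choose k : A) * (k.centralBinom : A) * (-h ^ 2) ^ k + S.w ((cc F (S.ρ h) k) ^ 2 * od F k) := by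
  have h1 := choose_half S hp k hk
  have h4 : (-h ^ 2) ^ k = h ^ (4 * k) * (-4) ^ k := by
    have : (h ^ (4 * k) * (-4) ^ k) = (-h ^ 2 * (2 * h) ^ 2) ^ k := by
      rw [pow_mul, ← mul_pow]; congr 1; ring
    rw [this, hh]; simp
  have h5 : S.w ((cc F (S.ρ h) k) ^ 2 * od F k) = (cc A h k) ^ 2 * S.w (od F k) := by
    rw [S.mul_w]
    simp [cc]
  rw [h5, h4]
  unfold cc
  have e : (h ^ (2 * k)) ^ 2 = h ^ (4 * k) := by rw [← pow_mul]; ring_nf
  linear_combination (-(k.centralBinom : A) * (h ^ (4 * k))) * h1 - (k.centralBinom : A) ^ 2 * (S.w (od F k)) * e + (k.centralBinom : A) ^ 2 * e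

lemma cc_sq_zero (hp : p = 2 * n + 1) (h : A) {k : ℕ} (h1 : n < k) (h2 : k < p) : (cc A h k) ^ 2 = 0 := by
  have h3 : (k.centralBinom : F) = 0 := centralBinom_zero hp h1 h2
  have h4 : S.ρ (k.centralBinom : A) = 0 := by rw [map_natCast, h3]
  obtain ⟨b, hb⟩ := S.ker _ h4
  unfold cc
  rw [hb]
  linear_combination (b * h ^ (2 * k)) ^ 2 * S.hp2

/-- `(1+u)^n F(2u/(1+u)) = H(u²) + p X(u)` -/
lemma leg1 (hp : p = 2 * n + 1) {h : A} (hh : 2 * h = 1) {u l : A} (hl : l * (1 + u) = 2 * u) :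
    (1 + u) ^ n * Fs A p h l = Hv A n h (u ^ 2) + S.w (Xc F n (S.ρ h) (S.ρ u)) := by
  have hF : Fs A p h l = ∑ k ∈ range (n + 1), (cc A h k) ^ 2 * l ^ k := by
    unfold Fs
    symm
    apply sum_subset
    · intro k hk; rw [mem_range] at *; omega
    · intro k hk1 hk2
      rw [mem_range] at hk1
      rw [mem_range, not_lt] at hk2
      rw [cc_sq_zero S hp h (by omega) hk1, zero_mul]
  rw [hF, mul_sum, ← quad_trans n h u hh, Xc, S.w_sum, ← sum_add_distrib]
  refine sum_congr rfl fun k hk => ?_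
  rw [mem_range] at hk
  rw [cc_sq S hp hh (by omega)]
  have e1 : (1 + u) ^ n = (1 + u) ^ k * (1 + u) ^ (n - k) := by
    rw [← pow_add]; congr 1; omega
  have e2 : (1 + u) ^ k * l ^ k = (2 * u) ^ k := by
    rw [← mul_pow, mul_comm, hl]
  have e3 : (-h ^ 2) ^ k * (2 * u) ^ k = (-(u * h)) ^ k := by
    rw [← mul_pow]; congr 1
    linear_combination (-(u * h)) * hh
  have e4 : S.w (cc F (S.ρ h) k ^ 2 * od F k * ((2 * S.ρ u) ^ k * (1 + S.ρ u) ^ (n - k)))
      = ((2 * u) ^ k * (1 + u) ^ (n - k)) * S.w (cc F (S.ρ h) k ^ 2 * od F k) := by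
    rw [S.mul_w]
    congr 1
    simp only [map_mul, map_pow, map_add, map_one, map_ofNat]
    ring
  rw [e4, e1]
  linear_combination ((1 + u) ^ (n - k) * ((n.choose k : A) * (k.centralBinom : A) * (-h ^ 2) ^ k + S.w (cc F (S.ρ h) k ^ 2 * od F k))) * e2 + ((n.choose k : A) * (k.centralBinom : A) * (1 + u) ^ (n - k)) * e3

end ext

end Pool.Agent.PellSC
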