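import Pool.Agent.PellSC.AsmC

/-!
# Derivative of the Legendre transformation
-/

set_option autoImplicit false
set_option linter.unusedSectionVars false
set_option linter.unusedVariables false

namespace Pool.Agent.PellSC

open Finset Polynomial

section ring
variable {R : Type*} [CommRing R]

/-- `v H'(v)` -/
def Hd (R : Type*) [CommRing R] (n : ℕ) (h v : R) : R := ∑ j ∈ range (n + 1), (j : R) * hc R n h j * v ^ j

/-- weighted derivative of `X^k (1+X)^(n-k)` -/
lemma der_term (n k : ℕ) (hk : k ≤ n) (c : R) :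
    X * (1 + X) * derivative (C c * (X ^ k * (1 + X) ^ (n - k)) : R[X]) = C c * ((C (k : R) + C (n : R) * X) * (X ^ k * (1 + X) ^ (n - k))) := by
  obtain ⟨m, rfl⟩ : ∃ m, n = k + m := ⟨n - k, by omega⟩
  have e : k + m - k = m := by omega
  rw [e, derivative_C_mul, derivative_mul, derivative_X_pow, derivative_pow]
  have d1 : derivative (1 + X : R[X]) = 1 := by simp
  rw [d1]
  rcases k with _ | k <;> rcases m with _ | m
  · simp
  · simp only [Nat.cast_zero, C_0, pow_zero, zero_mul, Nat.add_sub_cancel, Nat.zero_add, Nat.cast_add, Nat.cast_one, C_add, C_1]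
    ring
  · simp only [Nat.cast_zero, C_0, pow_zero, zero_mul, Nat.add_sub_cancel, Nat.add_zero, Nat.cast_add, Nat.cast_one, C_add, C_1]
    ring
  · simp only [Nat.add_sub_cancel, Nat.cast_add, Nat.cast_one, C_add, C_1]
    ring

lemma der_sum (n : ℕ) (t : ℕ → R) (u : R) :
    ∑ k ∈ range (n + 1), (k : R) * t k * (u ^ k * (1 + u) ^ (n - k))
      = u * (1 + u) * eval u (derivative (∑ k ∈ range (n + 1), C (t k) * (X ^ k * (1 + X) ^ (n - k)) : R[X]))
        - (n : R) * u * ∑ k ∈ range (n + 1), t k * (u ^ k * (1 + u) ^ (n - k)) := by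
  have h1 : X * (1 + X) * derivative (∑ k ∈ range (n + 1), C (t k) * (X ^ k * (1 + X) ^ (n - k)) : R[X])
      = ∑ k ∈ range (n + 1), C (t k) * ((C (k : R) + C (n : R) * X) * (X ^ k * (1 + X) ^ (n - k))) := by
    rw [derivative_sum, mul_sum]
    refine sum_congr rfl fun k hk => ?_
    rw [mem_range] at hk
    exact der_term n k (by omega) (t k)
  have h2 := congrArg (eval u) h1
  rw [eval_finsetSum] at h2
  simp only [eval_mul, eval_X, eval_add, eval_one, eval_C, eval_pow] at h2
  rw [h2, mul_sum, ← sum_sub_distrib]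
  refine sum_congr rfl fun k _ => ?_
  ring

/-- derivative of the quadratic transformation -/
lemma quad_transD (n : ℕ) (h u : R) (hh : 2 * h = 1) :
    ∑ k ∈ range (n + 1), (k : R) * ((n.choose k : R) * (k.centralBinom : R) * (-h) ^ k) * (u ^ k * (1 + u) ^ (n - k))
      = 2 * (1 + u) * Hd R n h (u ^ 2) - (n : R) * u * Hv R n h (u ^ 2) := by
  rw [der_sum n (fun k => (n.choose k : R) * (k.centralBinom : R) * (-h) ^ k) u]
  have hh' : 2 * (C h : R[X]) = 1 := by
    rw [show (2 : R[X]) = C 2 from rfl, ← C_mul, hh, C_1]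
  have q := quad_trans n (C h) X hh'
  have e1 : (∑ k ∈ range (n + 1), C ((n.choose k : R) * (k.centralBinom : R) * (-h) ^ k) * (X ^ k * (1 + X) ^ (n - k)) : R[X])
      = ∑ k ∈ range (n + 1), (n.choose k : R[X]) * (k.centralBinom : R[X]) * (-(X * C h)) ^ k * (1 + X) ^ (n - k) := by
    refine sum_congr rfl fun k _ => ?_
    have : (-(X * C h) : R[X]) ^ k = (-C h) ^ k * X ^ k := by rw [← mul_pow]; congr 1; ring
    rw [this]
    simp only [C_mul, C_pow, C_neg, C_eq_natCast]
    ring
  rw [e1, q]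
  have e2 : ∑ k ∈ range (n + 1), (n.choose k : R) * (k.centralBinom : R) * (-h) ^ k * (u ^ k * (1 + u) ^ (n - k)) = Hv R n h (u ^ 2) := by
    rw [← quad_trans n h u hh]
    refine sum_congr rfl fun k _ => ?_
    have : (-(u * h)) ^ k = (-h) ^ k * u ^ k := by rw [← mul_pow]; congr 1; ring
    rw [this]; ring
  rw [e2]
  have e3 : u * eval u (derivative (Hv R[X] n (C h) (X ^ 2))) = 2 * Hd R n h (u ^ 2) := by
    unfold Hv Hd hc
    rw [derivative_sum, eval_finsetSum, mul_sum, mul_sum]
    refine sum_congr rfl fun j _ => ?_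
    have a1 : ((n.choose (2 * j) : R[X]) * (j.centralBinom : R[X]) * (C h) ^ (2 * j) * (X ^ 2) ^ j)
        = C ((n.choose (2 * j) : R) * (j.centralBinom : R) * h ^ (2 * j)) * X ^ (2 * j) := by
      simp only [C_mul, C_pow, C_eq_natCast]
      rw [pow_mul X 2 j]
    rw [a1, derivative_C_mul, derivative_X_pow]
    rcases j with _ | j
    · simp
    · simp only [eval_mul, eval_C, eval_pow, eval_X]
      have a2 : 2 * (j + 1) - 1 = 2 * j + 1 := by omega
      rw [a2, ← pow_mul u 2 (j + 1)]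
      have a3 : u ^ (2 * (j + 1)) = u * u ^ (2 * j + 1) := by rw [← pow_succ']; congr 1
      rw [a3]
      push_cast
      ring
  linear_combination (1 + u) * e3

end ring

section ext

variable {p n : ℕ} {A F : Type*} [CommRing A] [Field F] (S : SqExt p A F)
variable [hpr : Fact p.Prime] [CharP F p]

/-- `∑ k c_k² λ^k` -/
def FsD (R : Type*) [CommRing R] (p : ℕ) (h l : R) : R := ∑ k ∈ range p, (k : R) * (cc R h k) ^ 2 * l ^ k

/-- derivative form of the correction -/
lemma XcP_der (h x : F) :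
    ∑ k ∈ range (n + 1), (k : F) * ((cc F h k) ^ 2 * od F k) * ((2 * x) ^ k * (1 + x) ^ (n - k))
      = x * (1 + x) * eval x (derivative (XcP F n h)) - (n : F) * x * Xc F n h x := by
  have h1 := der_sum (R := F) n (fun k => (cc F h k) ^ 2 * od F k * 2 ^ k) x
  have e1 : (∑ k ∈ range (n + 1), C ((cc F h k) ^ 2 * od F k * 2 ^ k) * (X ^ k * (1 + X) ^ (n - k)) : F[X]) = XcP F n h := by
    unfold XcP
    refine sum_congr rfl fun k _ => ?_
    rw [mul_pow, C_mul, C_pow, show (C 2 : F[X]) = 2 from rfl]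
    ring
  have e2 : ∑ k ∈ range (n + 1), (cc F h k) ^ 2 * od F k * 2 ^ k * (x ^ k * (1 + x) ^ (n - k)) = Xc F n h x := by
    unfold Xc
    refine sum_congr rfl fun k _ => ?_
    rw [mul_pow]; ring
  rw [e1, e2] at h1
  rw [← h1]
  refine sum_congr rfl fun k _ => ?_
  rw [mul_pow]; ring

include S

lemma leg1D (hp : p = 2 * n + 1) {h : A} (hh : 2 * h = 1) {u l : A} (hl : l * (1 + u) = 2 * u) :
    (1 + u) ^ n * FsD A p h l = 2 * (1 + u) * Hd A n h (u ^ 2) - (n : A) * u * Hv A n h (u ^ 2)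
      + S.w (S.ρ u * (1 + S.ρ u) * eval (S.ρ u) (derivative (XcP F n (S.ρ h))) - (n : F) * S.ρ u * Xc F n (S.ρ h) (S.ρ u)) := by
  have hF : FsD A p h l = ∑ k ∈ range (n + 1), (k : A) * (cc A h k) ^ 2 * l ^ k := by
    unfold FsD
    symm
    apply sum_subset
    · intro k hk; rw [mem_range] at *; omega
    · intro k hk1 hk2
      rw [mem_range] at hk1
      rw [mem_range, not_lt] at hk2
      rw [cc_sq_zero S hp h (by omega) hk1, mul_zero, zero_mul]
  rw [hF, mul_sum, ← quad_transD n h u hh, ← XcP_der, S.w_sum, ← sum_add_distrib]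
  refine sum_congr rfl fun k hk => ?_
  rw [mem_range] at hk
  rw [cc_sq S hp hh (by omega)]
  have e1 : (1 + u) ^ n = (1 + u) ^ k * (1 + u) ^ (n - k) := by
    rw [← pow_add]; congr 1; omega
  have e2 : (1 + u) ^ k * l ^ k = (2 * u) ^ k := by
    rw [← mul_pow, mul_comm, hl]
  have e3 : (-h ^ 2) ^ k * (2 * u) ^ k = (-h) ^ k * u ^ k := by
    rw [← mul_pow, ← mul_pow]; congr 1
    linear_combination (-(u * h)) * hh
  have e4 : S.w ((k : F) * (cc F (S.ρ h) k ^ 2 * od F k) * ((2 * S.ρ u) ^ k * (1 + S.ρ u) ^ (n - k)))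
      = ((k : A) * ((2 * u) ^ k * (1 + u) ^ (n - k))) * S.w (cc F (S.ρ h) k ^ 2 * od F k) := by
    rw [S.mul_w]
    congr 1
    simp only [map_mul, map_pow, map_add, map_one, map_ofNat, map_natCast]
    ring
  rw [e4, e1]
  linear_combination ((k : A) * (1 + u) ^ (n - k) * ((n.choose k : A) * (k.centralBinom : A) * (-h ^ 2) ^ k + S.w (cc F (S.ρ h) k ^ 2 * od F k))) * e2 + ((k : A) * (n.choose k : A) * (k.centralBinom : A) * (1 + u) ^ (n - k)) * e3

end ext

end Pool.Agent.PellSC
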