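import Pool.Agent.PellSC.LegD

/-!
# The differential equations mod p and the Wronskians
-/

set_option autoImplicit false
set_option linter.unusedSectionVars false
set_option linter.unusedVariables false

namespace Pool.Agent.PellSC

open Finset Polynomial

section gen
variable {F : Type*} [Field F]

/-- coefficient of `(X(1-X)Y')'` -/
lemma coeff_ode (Y : F[X]) (m : ℕ) :
    (derivative (X * (1 - X) * derivative Y)).coeff m = ((m : F) + 1) ^ 2 * Y.coeff (m + 1) - (m : F) * ((m : F) + 1) * Y.coeff m := by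
  rw [coeff_derivative]
  have e : X * (1 - X) * derivative Y = X * derivative Y - X * (X * derivative Y) := by ring
  rw [e, coeff_sub, coeff_X_mul, coeff_X_mul, coeff_derivative]
  rcases m with _ | m
  · rw [mul_coeff_zero, coeff_X_zero]; simp
  · rw [coeff_X_mul, coeff_derivative]
    push_cast
    ring

/-- Wronskian identity -/
lemma wronski_der (H Y : F[X]) (κ c : F)
    (hH : derivative (X * (1 - X) * derivative H) = C κ * H)
    (hY : derivative (X * (1 - X) * derivative Y) = C κ * Y + C (2 * c) * derivative H) :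
    derivative (X * (1 - X) * (derivative Y * H - Y * derivative H) - C c * H ^ 2) = 0 := by
  have e : X * (1 - X) * (derivative Y * H - Y * derivative H) = (X * (1 - X) * derivative Y) * H - (X * (1 - X) * derivative H) * Y := by ring
  rw [derivative_sub, e, derivative_sub, derivative_mul, derivative_mul (f := X * (1 - X) * derivative H), hH, hY, derivative_C_mul, derivative_pow]
  simp only [C_mul, Nat.cast_ofNat]
  have h2 : (C (2 : F) : F[X]) = 2 := rfl
  simp only [h2]
  ring

lemma eq_C_of_der {p : ℕ} [CharP F p] [hpr : Fact p.Prime] (f : F[X]) (hf : derivative f = 0) (hd : f.natDegree < p) : f = C (f.coeff 0) := by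
  ext m
  rcases m with _ | m
  · simp
  · rw [coeff_C_succ]
    by_cases h : m + 1 < p
    · have h1 := congrArg (fun g : F[X] => g.coeff m) hf
      simp only [coeff_derivative, coeff_zero] at h1
      rcases mul_eq_zero.1 h1 with h2 | h2
      · exact h2
      · exfalso
        apply cast_ne_zero' (F := F) (p := p) (m + 1) (by omega) h
        push_cast
        exact h2
    · exact coeff_eq_zero_of_natDegree_lt (by omega)

lemma wronski {p n : ℕ} [CharP F p] [hpr : Fact p.Prime] (hp : p = 2 * n + 1) (hn : 0 < n) (H Y : F[X]) (κ c : F)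
    (hH : derivative (X * (1 - X) * derivative H) = C κ * H)
    (hY : derivative (X * (1 - X) * derivative Y) = C κ * Y + C (2 * c) * derivative H)
    (dH : H.natDegree ≤ n / 2) (dY : Y.natDegree ≤ n / 2) (h0 : H.coeff 0 = 1) :
    X * (1 - X) * (derivative Y * H - Y * derivative H) = C c * (H ^ 2 - 1) := by
  have h1 := wronski_der H Y κ c hH hY
  have d0 : natDegree (X * (1 - X) : F[X]) ≤ 2 := by
    refine natDegree_mul_le.trans ?_
    have a1 : natDegree (1 - X : F[X]) ≤ 1 := by
      refine (natDegree_sub_le _ _).trans ?_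
      simp
    have a2 : natDegree (X : F[X]) ≤ 1 := natDegree_X_le
    omega
  have dY' : (derivative Y).natDegree ≤ n / 2 := (natDegree_derivative_le Y).trans (by omega)
  have dH' : (derivative H).natDegree ≤ n / 2 := (natDegree_derivative_le H).trans (by omega)
  have d1 : natDegree (X * (1 - X) * (derivative Y * H - Y * derivative H) - C c * H ^ 2 : F[X]) < p := by
    have b1 : natDegree (derivative Y * H) ≤ n := natDegree_mul_le.trans (by omega)
    have b2 : natDegree (Y * derivative H) ≤ n := natDegree_mul_le.trans (by omega)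
    have b3 : natDegree (derivative Y * H - Y * derivative H) ≤ n := (natDegree_sub_le _ _).trans (by omega)
    have b4 : natDegree (X * (1 - X) * (derivative Y * H - Y * derivative H)) ≤ n + 2 := natDegree_mul_le.trans (by omega)
    have b5 : natDegree (C c * H ^ 2) ≤ n := by
      refine (natDegree_C_mul_le _ _).trans (natDegree_pow_le.trans (by omega))
    by_cases hn1 : n = 1
    · -- degree zero polynomials
      have hH0 : H.natDegree = 0 := by omega
      have hY0 : Y.natDegree = 0 := by omega
      have eH : derivative H = 0 := by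
        rw [eq_C_of_natDegree_eq_zero hH0]; exact derivative_C
      have eY : derivative Y = 0 := by
        rw [eq_C_of_natDegree_eq_zero hY0]; exact derivative_C
      rw [eH, eY]
      simp only [zero_mul, mul_zero, sub_self, zero_sub, natDegree_neg]
      omega
    · exact lt_of_le_of_lt (natDegree_sub_le _ _) (by omega)
  have h2 := eq_C_of_der (p := p) _ h1 d1
  have h3 : (X * (1 - X) * (derivative Y * H - Y * derivative H) - C c * H ^ 2 : F[X]).coeff 0 = -c := by
    rw [coeff_sub, coeff_C_mul, coeff_zero_eq_eval_zero, coeff_zero_eq_eval_zero]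
    rw [coeff_zero_eq_eval_zero] at h0
    simp [h0]
  rw [h3] at h2
  rw [C_neg] at h2
  linear_combination h2

end gen

section field

variable {p n : ℕ} {F : Type*} [Field F] [hpr : Fact p.Prime] [CharP F p]

/-- `∑ h_k H_k X^k` -/
noncomputable def BP (F : Type*) [Field F] (n : ℕ) (h : F) : F[X] := ∑ i ∈ range (n + 1), C (hc F n h i * har F i) * X ^ i

lemma coeff_HP (h : F) (m : ℕ) : (HP F n h).coeff m = hc F n h m := by
  unfold HP
  rw [finsetSum_coeff]
  simp only [coeff_C_mul_X_pow]
  rw [sum_ite_eq]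
  split_ifs with h1
  · rfl
  · rw [mem_range, not_lt] at h1
    rw [hc_zero h (by omega)]

lemma coeff_BP (h : F) (m : ℕ) : (BP F n h).coeff m = hc F n h m * har F m := by
  unfold BP
  rw [finsetSum_coeff]
  simp only [coeff_C_mul_X_pow]
  rw [sum_ite_eq]
  split_ifs with h1
  · rfl
  · rw [mem_range, not_lt] at h1
    rw [hc_zero h (by omega), zero_mul]

lemma coeff_GP (h : F) (m : ℕ) : (GP F n h).coeff m = ∑ j ∈ range (n + 1), hc F n h (m + 1 + j) * ((j + 1 : ℕ) : F)⁻¹ := by
  unfold GP
  rw [finsetSum_coeff]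
  have e1 : ∀ i, (C (hc F n h i) * ∑ l ∈ range i, C (((l + 1 : ℕ) : F)⁻¹) * X ^ (i - 1 - l) : F[X]).coeff m
      = if m < i then hc F n h i * ((i - m : ℕ) : F)⁻¹ else 0 := by
    intro i
    rw [coeff_C_mul, finsetSum_coeff]
    simp only [coeff_C_mul_X_pow]
    split_ifs with h1
    · rw [sum_eq_single (i - 1 - m)]
      · have a1 : m = i - 1 - (i - 1 - m) := by omega
        rw [if_pos a1]
        have a2 : i - 1 - m + 1 = i - m := by omega
        rw [a2]
      · intro b hb hne
        rw [mem_range] at hb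
        rw [if_neg (by omega)]
      · intro h2; rw [mem_range] at h2; omega
    · rw [sum_eq_zero]
      · simp
      · intro b hb
        rw [mem_range] at hb
        rw [if_neg (by omega)]
  rw [sum_congr rfl (fun i _ => e1 i)]
  -- both sums over i = m+1+j
  have e2 : ∑ i ∈ range (n + 1), (if m < i then hc F n h i * ((i - m : ℕ) : F)⁻¹ else 0)
      = ∑ i ∈ range ((m + 1) + (n + 1)), (if m < i then hc F n h i * ((i - m : ℕ) : F)⁻¹ else 0) := by
    apply sum_subset
    · intro i hi; rw [mem_range] at *; omega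
    · intro i _ hi
      rw [mem_range, not_lt] at hi
      split_ifs
      · rw [hc_zero h (by omega), zero_mul]
      · rfl
  rw [e2, sum_range_add]
  have e3 : ∑ x ∈ range (m + 1), (if m < x then hc F n h x * ((x - m : ℕ) : F)⁻¹ else 0) = 0 := by
    apply sum_eq_zero
    intro x hx
    rw [mem_range] at hx
    rw [if_neg (by omega)]
  rw [e3, zero_add]
  refine sum_congr rfl fun j _ => ?_
  have a1 : m + 1 + j - m = j + 1 := by omega
  rw [if_pos (by omega), a1]

/-- recursion of the coefficients of `H` -/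
lemma hc_recF (hp : p = 2 * n + 1) {h : F} (hh : 2 * h = 1) (k : ℕ) :
    ((k : F) + 1) ^ 2 * hc F n h (k + 1) = ((k : F) * ((k : F) + 1) + 3 * h ^ 4) * hc F n h k := by
  have h2 : (2 : F) ≠ 0 := two_ne (p := p) hp
  have hp0 : (p : F) = 0 := CharP.cast_eq_zero F p
  have hn : 2 * (n : F) + 1 = 0 := by
    rw [hp] at hp0; push_cast at hp0; exact hp0
  by_cases hk : 2 * k + 1 ≤ n
  · have r1 := hc_rec n h hh k hk
    have h3 : ((2 * k + 1 : ℕ) : F) ≠ 0 := cast_ne_zero' (p := p) (2 * k + 1) (by omega) (by omega)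
    have r2 := mul_left_cancel₀ h3 r1
    have e1 : ((n - 2 * k - 1 : ℕ) : F) = (n : F) - 2 * k - 1 := by
      have : n - 2 * k - 1 = n - (2 * k + 1) := by omega
      rw [this, Nat.cast_sub hk]; push_cast; ring
    have e2 : ((n - 2 * k : ℕ) : F) = (n : F) - 2 * k := by
      rw [Nat.cast_sub (by omega)]; push_cast; ring
    rw [e1, e2] at r2
    have h4 : (4 : F) ≠ 0 := by
      have : (4 : F) = 2 * 2 := by norm_num
      rw [this]; exact mul_ne_zero h2 h2
    apply mul_left_cancel₀ h4
    push_cast at r2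
    have hn' : (n : F) = -h := by linear_combination h * hn - (n : F) * hh
    rw [hn'] at r2
    have c1 : (-h - 2 * (k : F)) * (-h - 2 * k - 1) = 4 * ((k : F) * ((k : F) + 1) + 3 * h ^ 4) := by
      linear_combination (2 * (k : F) - 6 * h ^ 3 - 3 * h ^ 2 - h) * hh
    linear_combination r2 + hc F n h k * c1
  · by_cases hk2 : n < 2 * k
    · rw [hc_zero h hk2, hc_zero h (by omega : n < 2 * (k + 1))]; ring
    · have hnk : n = 2 * k := by omega
      rw [hc_zero h (by omega : n < 2 * (k + 1))]
      have hn' : (2 : F) * k = -h := by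
        have e : (n : F) = 2 * k := by rw [hnk]; push_cast; ring
        rw [← e]
        linear_combination h * hn - (n : F) * hh
      have c1 : (4 : F) * ((k : F) * ((k : F) + 1) + 3 * h ^ 4) = 0 := by
        linear_combination (2 * (k : F) + 2 - h) * hn' + (6 * h ^ 3 + 3 * h ^ 2 + 2 * h) * hh
      have h4 : (4 : F) ≠ 0 := by
        have : (4 : F) = 2 * 2 := by norm_num
        rw [this]; exact mul_ne_zero h2 h2
      rcases mul_eq_zero.1 c1 with h5 | h5
      · exact absurd h5 h4
      · rw [h5]; ring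

lemma ode_H (hp : p = 2 * n + 1) {h : F} (hh : 2 * h = 1) :
    derivative (X * (1 - X) * derivative (HP F n h)) = C (3 * h ^ 4) * HP F n h := by
  ext m
  rw [coeff_ode, coeff_C_mul, coeff_HP, coeff_HP]
  have := hc_recF (p := p) hp hh m
  linear_combination this

lemma ode_B (hp : p = 2 * n + 1) {h : F} (hh : 2 * h = 1) :
    derivative (X * (1 - X) * derivative (BP F n h)) = C (3 * h ^ 4) * BP F n h + C (2 * h) * derivative (HP F n h) := by
  ext m
  have h2l := hpr.out.two_le
  rw [coeff_ode, coeff_add, coeff_C_mul, coeff_C_mul, coeff_derivative, coeff_BP, coeff_BP, coeff_HP]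
  have r := hc_recF (p := p) hp hh m
  by_cases hm : m + 1 < p
  · have h1 : ((m + 1 : ℕ) : F) ≠ 0 := cast_ne_zero' (p := p) (m + 1) (by omega) hm
    have h2 : ((m + 1 : ℕ) : F) * ((m + 1 : ℕ) : F)⁻¹ = 1 := mul_inv_cancel₀ h1
    rw [har_succ]
    push_cast at h2 ⊢
    linear_combination (har F m) * r + (((m : F) + 1) * hc F n h (m + 1)) * h2 - (hc F n h (m + 1) * ((m : F) + 1)) * hh
  · rw [hc_zero h (by omega : n < 2 * (m + 1)), hc_zero h (by omega : n < 2 * m)]; ring

lemma ode_G (hp : p = 2 * n + 1) {h : F} (hh : 2 * h = 1) :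
    derivative (X * (1 - X) * derivative (GP F n h)) = C (3 * h ^ 4) * GP F n h + C (2 * 1) * derivative (HP F n h) := by
  ext m
  have h2l := hpr.out.two_le
  rw [coeff_ode, coeff_add, coeff_C_mul, coeff_C_mul, coeff_derivative, coeff_GP, coeff_GP, coeff_HP, mul_sum, mul_sum, mul_sum]
  have e1 : ∀ j ∈ range (n + 1), ((m : F) + 1) ^ 2 * (hc F n h (m + 1 + 1 + j) * ((j + 1 : ℕ) : F)⁻¹)
      - (m : F) * ((m : F) + 1) * (hc F n h (m + 1 + j) * ((j + 1 : ℕ) : F)⁻¹)
      - 3 * h ^ 4 * (hc F n h (m + 1 + j) * ((j + 1 : ℕ) : F)⁻¹)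
      = (2 * (m : F) + 2 + (j : ℕ)) * hc F n h (m + 1 + j) - (2 * (m : F) + 2 + ((j + 1 : ℕ) : F)) * hc F n h (m + 1 + (j + 1)) := by
    intro j hj
    rw [mem_range] at hj
    have h1 : ((j + 1 : ℕ) : F) ≠ 0 := cast_ne_zero' (p := p) (j + 1) (by omega) (by omega)
    have h2 : ((j + 1 : ℕ) : F) * ((j + 1 : ℕ) : F)⁻¹ = 1 := mul_inv_cancel₀ h1
    have r := hc_recF (p := p) hp hh (m + 1 + j)
    have a1 : m + 1 + 1 + j = m + 1 + j + 1 := by ring
    have a2 : m + 1 + (j + 1) = m + 1 + j + 1 := by ring
    rw [a1, a2]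
    push_cast at h2 r ⊢
    set I := ((j : F) + 1)⁻¹
    set x := hc F n h (m + 1 + j + 1)
    set y := hc F n h (m + 1 + j)
    linear_combination I * r + ((2 * (m : F) + 2 + j) * y - (2 * (m : F) + 3 + j) * x) * h2
  have e2 := sum_congr rfl e1
  rw [sum_sub_distrib, sum_sub_distrib, sum_range_sub' (fun j : ℕ => (2 * (m : F) + 2 + (j : F)) * hc F n h (m + 1 + j)) (n + 1)] at e2
  rw [hc_zero h (by omega : n < 2 * (m + 1 + (n + 1)))] at e2
  simp only [Nat.cast_zero, add_zero, mul_zero, sub_zero] at e2
  linear_combination e2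

lemma natDegree_le_of (Y : F[X]) (h : F) (hY : ∀ m, n < 2 * m → Y.coeff m = 0) : Y.natDegree ≤ n / 2 := by
  rw [natDegree_le_iff_coeff_eq_zero]
  intro m hm
  exact hY m (by omega)

lemma hc_0 (h : F) : hc F n h 0 = 1 := by simp [hc]

lemma dH (h : F) : (HP F n h).natDegree ≤ n / 2 :=
  natDegree_le_of (n := n) _ h (fun m hm => by rw [coeff_HP, hc_zero h hm])

lemma dB (h : F) : (BP F n h).natDegree ≤ n / 2 :=
  natDegree_le_of (n := n) _ h (fun m hm => by rw [coeff_BP, hc_zero h hm, zero_mul])

lemma dG (h : F) : (GP F n h).natDegree ≤ n / 2 :=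
  natDegree_le_of (n := n) _ h (fun m hm => by
    rw [coeff_GP]
    apply sum_eq_zero
    intro j _
    rw [hc_zero h (by omega), zero_mul])

/-- at the fixed point the derivative of `H` vanishes -/
lemma derH_half (hp : p = 2 * n + 1) {h : F} (hh : 2 * h = 1) (hs : (HP F n h).comp (1 - X) = HP F n h) :
    eval h (derivative (HP F n h)) = 0 := by
  have h2 : (2 : F) ≠ 0 := two_ne (p := p) hp
  have h1 := congrArg derivative hs
  rw [derivative_comp] at h1
  have h3 := congrArg (eval h) h1
  have e : (1 : F) - h = h := by linear_combination (-1 : F) * hh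
  simp only [eval_mul, eval_comp, eval_sub, eval_one, eval_X, derivative_sub, derivative_one, derivative_X, zero_sub, eval_neg, e] at h3
  have h4 : (2 : F) * eval h (derivative (HP F n h)) = 0 := by linear_combination (-1 : F) * h3
  rcases mul_eq_zero.1 h4 with h5 | h5
  · exact absurd h5 h2
  · exact h5

/-- `B'(1/2) H(1/2) = 2 (H(1/2)² - 1)` -/
lemma derB_half (hp : p = 2 * n + 1) (hn : 0 < n) {h : F} (hh : 2 * h = 1) (hs : (HP F n h).comp (1 - X) = HP F n h) :
    eval h (derivative (BP F n h)) * Hv F n h h = 2 * ((Hv F n h h) ^ 2 - 1) := by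
  have h1 := wronski (p := p) hp hn (HP F n h) (BP F n h) (3 * h ^ 4) h (ode_H (p := p) hp hh) (ode_B (p := p) hp hh) (dH h) (dB h)
    (by rw [coeff_HP, hc_0])
  have h3 := congrArg (eval h) h1
  simp only [eval_mul, eval_sub, eval_one, eval_X, eval_C, eval_pow, eval_HP, derH_half (p := p) hp hh hs] at h3
  linear_combination (4 : F) * h3 + ((eval h (derivative (BP F n h)) * Hv F n h h) * (2 * h - 1) + 2 * ((Hv F n h h) ^ 2 - 1)) * hh

/-- `G'(1/2) H(1/2) = 4 (H(1/2)² - 1)` -/
lemma derG_half (hp : p = 2 * n + 1) (hn : 0 < n) {h : F} (hh : 2 * h = 1) (hs : (HP F n h).comp (1 - X) = HP F n h) :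
    eval h (derivative (GP F n h)) * Hv F n h h = 4 * ((Hv F n h h) ^ 2 - 1) := by
  have h1 := wronski (p := p) hp hn (HP F n h) (GP F n h) (3 * h ^ 4) 1 (ode_H (p := p) hp hh) (ode_G (p := p) hp hh) (dH h) (dG h)
    (by rw [coeff_HP, hc_0])
  have h3 := congrArg (eval h) h1
  simp only [eval_mul, eval_sub, eval_one, eval_X, eval_C, eval_pow, eval_HP, derH_half (p := p) hp hh hs] at h3
  linear_combination (4 : F) * h3 + ((eval h (derivative (GP F n h)) * Hv F n h h) * (2 * h - 1)) * hh

end field

end Pool.Agent.PellSC
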