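import Mathlib

/-!
# Statement of MP_a989c0_nt: definitions
-/

set_option autoImplicit false

namespace Pool.Agent.PellSC.Stmt

/-- companion Pell numbers: `Q 0 = Q 1 = 2`, `Q (n+2) = 2 Q (n+1) + Q n` -/
def Q : ℕ → ℤ
  | 0 => 2
  | 1 => 2
  | (n + 2) => 2 * Q (n + 1) + Q n

/-- `S_0(p) = ∑_{k<p} Q_k / (-8)^k * C(2k,k)^2` -/
def S0 (p : ℕ) : ℚ := ∑ k ∈ Finset.range p, (Q k : ℚ) / (-8) ^ k * ((2 * k).choose k : ℚ) ^ 2

/-- `S_1(p) = ∑_{k<p} k Q_k / (-8)^k * C(2k,k)^2` -/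
def S1 (p : ℕ) : ℚ := ∑ k ∈ Finset.range p, (k : ℚ) * (Q k : ℚ) / (-8) ^ k * ((2 * k).choose k : ℚ) ^ 2

/-- `a ≡ b (mod p²)` for rational numbers: `a = b`, or the `p`-adic valuation of `a - b` is at least `2` -/
def CongrSq (p : ℕ) (a b : ℚ) : Prop := a = b ∨ 2 ≤ padicValRat p (a - b)

end Pool.Agent.PellSC.Stmt
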