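import Pool.Agent.PellSC.Fld3

/-!
# The symmetry `v ↦ 1 - v`
-/

set_option autoImplicit false
set_option linter.unusedSectionVars false
set_option linter.unusedVariables false

namespace Pool.Agent.PellSC

open Finset Polynomial

section ring

variable {R : Type*} [CommRing R]

lemma coeff_C_add_sq (v : R) (k : ℕ) : ((C v + X ^ 2 : R[X]) ^ k).coeff k = if 2 ∣ k then (k.choose (k / 2) : R) * v ^ (k / 2) else 0 := by
  have h1 : (C v + X ^ 2 : R[X]) ^ k = expand R 2 ((C v + X) ^ k) := by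
    simp
  rw [h1, coeff_expand (by norm_num)]
  split_ifs with h
  · have h2 : (C v + X : R[X]) ^ k = ∑ m ∈ range (k + 1), C (v ^ (k - m) * (k.choose m : R)) * X ^ m := by
      rw [add_comm, add_pow]
      refine sum_congr rfl fun m _ => ?_
      simp; ring
    rw [h2, finsetSum_coeff]
    simp only [coeff_C_mul_X_pow]
    rw [sum_ite_eq]
    have h3 : k / 2 ∈ range (k + 1) := by rw [mem_range]; omega
    rw [if_pos h3]
    have h4 : k - k / 2 = k / 2 := by omega
    rw [h4]; ring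
  · rfl

/-- `2^n H(v) = [Y^n] (v + 2Y + Y²)^n` -/
lemma S1 (n : ℕ) (h v : R) (hh : 2 * h = 1) :
    2 ^ n * Hv R n h v = ((C v + 2 * X + X ^ 2 : R[X]) ^ n).coeff n := by
  have e0 : (C v + 2 * X + X ^ 2 : R[X]) = (C v + X ^ 2) + 2 * X := by ring
  rw [e0, add_pow, finsetSum_coeff]
  have e1 : ∀ k ∈ range (n + 1), ((C v + X ^ 2 : R[X]) ^ k * (2 * X) ^ (n - k) * ((n.choose k : ℕ) : R[X])).coeff n
      = if 2 ∣ k then (2 ^ (n - k) * (n.choose k : R) * ((k.choose (k / 2) : R) * v ^ (k / 2))) else 0 := by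
    intro k hk
    rw [mem_range] at hk
    have a3 : (C v + X ^ 2 : R[X]) ^ k * (2 * X) ^ (n - k) * ((n.choose k : ℕ) : R[X])
        = C (2 ^ (n - k) * (n.choose k : R)) * (X ^ (n - k) * (C v + X ^ 2) ^ k) := by
      simp only [C_mul, C_pow, C_eq_natCast, mul_pow]
      rw [show (C 2 : R[X]) = 2 from rfl]
      ring
    rw [a3, coeff_C_mul]
    have a4 := coeff_X_pow_mul ((C v + X ^ 2 : R[X]) ^ k) (n - k) k
    have a5 : k + (n - k) = n := by omega
    rw [a5] at a4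
    rw [a4, coeff_C_add_sq]
    split_ifs <;> ring
  rw [sum_congr rfl e1, sum_even' (fun k => 2 ^ (n - k) * (n.choose k : R) * ((k.choose (k / 2) : R) * v ^ (k / 2))) n
    (fun k hk => by simp only [Nat.choose_eq_zero_of_lt hk]; simp)]
  unfold Hv hc
  rw [mul_sum]
  refine sum_congr rfl fun j _ => ?_
  have a6 : 2 * j / 2 = j := by omega
  rw [a6]
  by_cases hj : 2 * j ≤ n
  · have a7 : (2 : R) ^ n * h ^ (2 * j) = 2 ^ (n - 2 * j) := by
      have : (2 : R) ^ n = 2 ^ (n - 2 * j) * 2 ^ (2 * j) := by rw [← pow_add]; congr 1; omega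
      rw [this, mul_assoc, ← mul_pow, hh]; simp
    rw [Nat.centralBinom]
    linear_combination ((n.choose (2 * j) : R) * ((2 * j).choose j : R) * v ^ j) * a7
  · rw [Nat.choose_eq_zero_of_lt (by omega : n < 2 * j)]; simp

/-- the coefficients `(-1)^k C(n,k) C(2n-2k,n)` -/
def ee (R : Type*) [CommRing R] (n k : ℕ) : R := (-1) ^ k * (n.choose k : R) * ((2 * (n - k)).choose n : R)

lemma S2 (n : ℕ) (w : R) : (((1 + X) ^ 2 - C w : R[X]) ^ n).coeff n = ∑ k ∈ range (n + 1), ee R n k * w ^ k := by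
  rw [sub_eq_add_neg, add_comm, add_pow, finsetSum_coeff]
  refine sum_congr rfl fun k hk => ?_
  rw [mem_range] at hk
  have a3 : (-C w : R[X]) ^ k * ((1 + X) ^ 2) ^ (n - k) * ((n.choose k : ℕ) : R[X]) = C ((-1) ^ k * (n.choose k : R) * w ^ k) * (1 + X) ^ (2 * (n - k)) := by
    simp only [C_mul, C_pow, C_eq_natCast, C_neg, C_1]
    rw [neg_pow, pow_mul]
    ring
  rw [a3, coeff_C_mul, coeff_one_add_X_pow, ee]
  ring

lemma S3 (n : ℕ) (h w : R) (hh : 2 * h = 1) : 2 ^ n * Hv R n h (1 - w) = ∑ k ∈ range (n + 1), ee R n k * w ^ k := by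
  rw [S1 n h _ hh, ← S2]
  congr 2
  rw [C_sub, C_1]; ring

/-- recurrence for `hc` -/
lemma hc_rec (n : ℕ) (h : R) (hh : 2 * h = 1) (k : ℕ) (hk : 2 * k + 1 ≤ n) :
    ((2 * k + 1 : ℕ) : R) * (4 * ((k + 1 : ℕ) : R) ^ 2 * hc R n h (k + 1)) = ((2 * k + 1 : ℕ) : R) * (((n - 2 * k : ℕ) : R) * ((n - 2 * k - 1 : ℕ) : R) * hc R n h k) := by
  have h1 := Nat.choose_succ_right_eq n (2 * k)
  have h2 := Nat.choose_succ_right_eq n (2 * k + 1)
  have h8 := Nat.succ_mul_centralBinom_succ k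
  have h1' : (n.choose (2 * k + 1) : R) * ((2 * k + 1 : ℕ) : R) = (n.choose (2 * k) : R) * ((n - 2 * k : ℕ) : R) := by
    exact_mod_cast congrArg (Nat.cast : ℕ → R) h1
  have h2' : (n.choose (2 * (k + 1)) : R) * (2 * ((k + 1 : ℕ) : R)) = (n.choose (2 * k + 1) : R) * ((n - 2 * k - 1 : ℕ) : R) := by
    have := congrArg (Nat.cast : ℕ → R) h2
    have e : 2 * k + 1 + 1 = 2 * (k + 1) := by ring
    rw [e] at this
    push_cast at this ⊢
    have e2 : n - (2 * k + 1) = n - 2 * k - 1 := by omega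
    rw [e2] at this
    linear_combination this
  have h9 : ((k + 1 : ℕ) : R) * ((k + 1).centralBinom : R) = 2 * ((2 * k + 1 : ℕ) : R) * (k.centralBinom : R) := by
    exact_mod_cast congrArg (Nat.cast : ℕ → R) h8
  unfold hc
  have e : h ^ (2 * (k + 1)) = h ^ 2 * h ^ (2 * k) := by ring
  rw [e]
  have h3 : (2 * h) ^ 2 = 1 := by rw [hh]; simp
  set H := h ^ (2 * k)
  linear_combination (2 * ((2 * k + 1 : ℕ) : R) * ((k + 1 : ℕ) : R) * ((k + 1).centralBinom : R) * h ^ 2 * H) * h2'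
    + (2 * ((2 * k + 1 : ℕ) : R) * (n.choose (2 * k + 1) : R) * ((n - 2 * k - 1 : ℕ) : R) * h ^ 2 * H) * h9
    + (4 * ((2 * k + 1 : ℕ) : R) * (k.centralBinom : R) * ((n - 2 * k - 1 : ℕ) : R) * h ^ 2 * H) * h1'
    + (((2 * k + 1 : ℕ) : R) * (k.centralBinom : R) * ((n - 2 * k - 1 : ℕ) : R) * H * (n.choose (2 * k) : R) * ((n - 2 * k : ℕ) : R)) * h3

end ring

/-- recurrence for the numbers `C(n,k) C(2(n-k),n)` -/
lemma ee_rec_nat (n k : ℕ) (hk : 2 * k + 2 ≤ n) :
    (n - k) * (2 * (k + 1) * (2 * (n - k) - 1) * (n.choose (k + 1) * (2 * (n - (k + 1))).choose n))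
      = (n - k) * ((n - 2 * k) * (n - 2 * k - 1) * (n.choose k * (2 * (n - k)).choose n)) := by
  have h1 := Nat.choose_succ_right_eq n k
  obtain ⟨m, hm⟩ : ∃ m, n - k = m + 1 := ⟨n - k - 1, by omega⟩
  have e1 : n - (k + 1) = m := by omega
  have e2 : n - 2 * k = 2 * m + 2 - n := by omega
  have e3 : n - 2 * k - 1 = 2 * m + 1 - n := by omega
  rw [hm] at h1 ⊢
  rw [e1, e3, e2]
  have a1 := Nat.choose_mul_succ_eq (2 * m) n
  have a2 := Nat.choose_mul_succ_eq (2 * m + 1) n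
  have e4 : 2 * (m + 1) = 2 * m + 1 + 1 := by ring
  have e5 : 2 * (m + 1) - 1 = 2 * m + 1 := by omega
  rw [e5, e4]
  have e6 : 2 * m + 2 - n = 2 * m + 1 + 1 - n := by omega
  rw [e6]
  -- a1 : C(2m,n) * (2m+1) = C(2m+1,n) * (2m+1-n); a2 : C(2m+1,n)*(2m+1+1) = C(2m+2,n)*(2m+2-n)
  calc (m + 1) * (2 * (k + 1) * (2 * m + 1) * (n.choose (k + 1) * (2 * m).choose n))
      = (n.choose (k + 1) * (k + 1)) * ((2 * m + 1 + 1) * ((2 * m).choose n * (2 * m + 1))) := by ring
    _ = (n.choose k * (m + 1)) * ((2 * m + 1 + 1) * ((2 * m + 1).choose n * (2 * m + 1 - n))) := by rw [h1, a1]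
    _ = (n.choose k * (m + 1)) * ((2 * m + 1 - n) * ((2 * m + 1).choose n * (2 * m + 1 + 1))) := by ring
    _ = (n.choose k * (m + 1)) * ((2 * m + 1 - n) * ((2 * m + 1 + 1).choose n * (2 * m + 1 + 1 - n))) := by rw [a2]
    _ = _ := by ring

section ext

variable {p n : ℕ} {A F : Type*} [CommRing A] [Field F] (S : SqExt p A F)
variable [hpr : Fact p.Prime] [CharP F p]

include S

lemma w_two_inv (k : ℕ) (c : ℕ) (hc0 : (c : F) ≠ 0) (hk : ((k + 1 : ℕ) : F) ≠ 0) :
    (c : A) * ((k + 1 : ℕ) : A) * S.w (((k + 1 : ℕ) : F)⁻¹ / c) = p := by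
  rw [S.mul_w, map_mul, map_natCast, map_natCast]
  have : (c : F) * ((k + 1 : ℕ) : F) * (((k + 1 : ℕ) : F)⁻¹ / c) = 1 := by
    field_simp
  rw [this]
  have := S.w_rho 1
  rw [map_one, mul_one] at this
  exact this

lemma ee_eq (hp : p = 2 * n + 1) {h : A} (hh : 2 * h = 1) (k : ℕ) (hk : k ≤ n) :
    ee A n k = ((2 * n).choose n : A) * hc A n h k * (1 + S.w (har F k / 2)) := by
  induction k with
  | zero => simp [ee, hc]
  | succ k ih =>
    by_cases h2 : n < 2 * k + 2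
    · rw [hc_zero h (by omega : n < 2 * (k + 1))]
      unfold ee
      rw [Nat.choose_eq_zero_of_lt (by omega : 2 * (n - (k + 1)) < n)]
      simp
    · have hF : ((k + 1 : ℕ) : F) ≠ 0 := cast_ne_zero' (p := p) (k + 1) (by omega) (by omega)
      have hF2 : (2 : F) ≠ 0 := two_ne (p := p) hp
      have ih' := ih (by omega)
      have r1 := hc_rec n h hh k (by omega)
      have r1' := S.cancel (rho_ne S (2 * k + 1) (by omega) (by omega)) r1
      have r2 := ee_rec_nat n k (by omega)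
      have r3 := Nat.eq_of_mul_eq_mul_left (by omega : 0 < n - k) r2
      have r4 := congrArg (Nat.cast : ℕ → A) r3
      have c1 : ((2 * (n - k) - 1 : ℕ) : A) = (p : A) - 2 * ((k + 1 : ℕ) : A) := by
        have : 2 * (n - k) - 1 = p - 2 * (k + 1) := by omega
        rw [this, Nat.cast_sub (by omega)]; push_cast; ring
      have c2 := w_two_inv S k 2 (by exact_mod_cast hF2) hF
      simp only [Nat.cast_mul] at r4
      rw [c1] at r4
      set W := S.w (((k + 1 : ℕ) : F)⁻¹ / (2 : ℕ)) with hW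
      have hWp : S.w (har F k / 2) * W = 0 := S.w_mul_w _ _
      have hWW : W * W = 0 := S.w_mul_w _ _
      have hcan : S.ρ (4 * ((k + 1 : ℕ) : A) ^ 2) ≠ 0 := by
        rw [map_mul, map_pow, map_natCast, map_ofNat]
        have : (4 : F) ≠ 0 := by
          have e : (4 : F) = 2 * 2 := by norm_num
          rw [e]; exact mul_ne_zero hF2 hF2
        exact mul_ne_zero this (pow_ne_zero 2 hF)
      -- r5 : 4 (k+1)^2 (1 - W) * ee (k+1) = (n-2k)(n-2k-1) * ee k
      have r5 : 4 * ((k + 1 : ℕ) : A) ^ 2 * ((1 - W) * ee A n (k + 1)) = ((n - 2 * k : ℕ) : A) * ((n - 2 * k - 1 : ℕ) : A) * ee A n k := by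
        unfold ee
        rw [pow_succ]
        simp only [Nat.cast_ofNat] at r4 c2
        linear_combination (-(-1) ^ k * (-1)) * r4 + (2 * ((k + 1 : ℕ) : A) * (-1) ^ k * (n.choose (k + 1) : A) * ((2 * (n - (k + 1))).choose n : A)) * c2
      rw [ih'] at r5
      have r6 : 4 * ((k + 1 : ℕ) : A) ^ 2 * ((1 - W) * ee A n (k + 1)) = 4 * ((k + 1 : ℕ) : A) ^ 2 * (((2 * n).choose n : A) * hc A n h (k + 1) * (1 + S.w (har F k / 2))) := by
        rw [r5]
        linear_combination (-((2 * n).choose n : A) * (1 + S.w (har F k / 2))) * r1'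
      have r7 := S.cancel hcan r6
      have e1 : har F (k + 1) / 2 = har F k / 2 + ((k + 1 : ℕ) : F)⁻¹ / (2 : ℕ) := by
        rw [har_succ]; push_cast; ring
      rw [e1, S.w_add, ← hW]
      have r8 : ee A n (k + 1) = (1 + W) * ((1 - W) * ee A n (k + 1)) := by
        linear_combination (ee A n (k + 1)) * hWW
      rw [r8, r7]
      linear_combination (((2 * n).choose n : A) * hc A n h (k + 1)) * hWp

/-- symmetry mod `p` -/
lemma HP_symm (hp : p = 2 * n + 1) {h : F} (hh : 2 * h = 1) (hA : ∃ h' : A, 2 * h' = 1 ∧ S.ρ h' = h)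
    (h2 : (2 : F) ^ n = ((2 * n).choose n : F)) : (HP F n h).comp (1 - X) = HP F n h := by
  obtain ⟨h', hh', hρ⟩ := hA
  have hh2 : 2 * (C h : F[X]) = 1 := by
    rw [show (2 : F[X]) = C 2 from rfl, ← C_mul, hh, C_1]
  have h1 := S3 n (C h : F[X]) X hh2
  have e1 : (HP F n h).comp (1 - X) = Hv F[X] n (C h) (1 - X) := by
    unfold HP Hv
    rw [Polynomial.sum_comp]
    refine sum_congr rfl fun i _ => ?_
    rw [mul_comp, C_comp, pow_comp, X_comp]
    unfold hc; simp
  have hne : (2 : F) ^ n ≠ 0 := pow_ne_zero n (two_ne (p := p) hp)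
  have e2 : ∀ k ∈ range (n + 1), ee F[X] n k * X ^ k = C ((2 : F) ^ n) * (C (hc F n h k) * X ^ k) := by
    intro k hk
    rw [mem_range] at hk
    have h3 := congrArg S.ρ (ee_eq S hp hh' k (by omega))
    have h4 : S.ρ (ee A n k) = ee F n k := by unfold ee; simp
    have h5 : S.ρ (hc A n h' k) = hc F n h k := by unfold hc; simp [hρ]
    rw [h4, map_mul, map_mul, h5, map_natCast, map_add, map_one, S.rho_w, add_zero, mul_one, ← h2] at h3
    have h6 : ee F[X] n k = C (ee F n k) := by unfold ee; simp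
    rw [h6, h3, C_mul]; ring
  rw [e1]
  rw [sum_congr rfl e2, ← mul_sum] at h1
  have h7 : (C ((2 : F) ^ n) : F[X]) ≠ 0 := by rwa [Ne, C_eq_zero]
  have h8 : (2 : F[X]) ^ n = C ((2 : F) ^ n) := by
    rw [C_pow]; rfl
  rw [h8] at h1
  exact mul_left_cancel₀ h7 h1

/-- the sum of `h_k H_k 2^{-k}` -/
noncomputable def BB (F : Type*) [Field F] (n : ℕ) (h : F) : F := ∑ k ∈ range (n + 1), hc F n h k * har F k * h ^ k

lemma rho_hc (h : A) (k : ℕ) : S.ρ (hc A n h k) = hc F n (S.ρ h) k := by unfold hc; simp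

/-- `∑ h_k (1 + w(c H_k)) 2^{-k} = H + w (c B)` -/
lemma sum_hc_w {h : A} (c : F) :
    ∑ k ∈ range (n + 1), hc A n h k * (1 + S.w (c * har F k)) * h ^ k = Hv A n h h + S.w (c * BB F n (S.ρ h)) := by
  unfold Hv BB
  rw [mul_sum, S.w_sum, ← sum_add_distrib]
  refine sum_congr rfl fun k _ => ?_
  have : S.w (c * (hc F n (S.ρ h) k * har F k * S.ρ h ^ k)) = (hc A n h k * h ^ k) * S.w (c * har F k) := by
    rw [S.mul_w, map_mul, rho_hc, map_pow]
    congr 1; ring
  rw [this]; ring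

/-- the exact symmetry at the fixed point -/
lemma sym_half (hp : p = 2 * n + 1) {h : A} (hh : 2 * h = 1) :
    2 ^ n * Hv A n h h = ((2 * n).choose n : A) * (Hv A n h h + S.w (BB F n (S.ρ h) / 2)) := by
  have h1 := S3 n h h hh
  have h2 : (1 : A) - h = h := by linear_combination (-1 : A) * hh
  rw [h2] at h1
  rw [h1]
  have e1 : ∀ k ∈ range (n + 1), ee A n k * h ^ k = ((2 * n).choose n : A) * (hc A n h k * (1 + S.w ((1 / 2) * har F k)) * h ^ k) := by
    intro k hk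
    rw [mem_range] at hk
    rw [ee_eq S hp hh k (by omega)]
    have : (1 / 2 : F) * har F k = har F k / 2 := by ring
    rw [this]; ring
  rw [sum_congr rfl e1, ← mul_sum, sum_hc_w]
  congr 3
  ring

end ext

end Pool.Agent.PellSC
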